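import Mathlib

/-!
Polynomial inequalities for the double class EE of MP_66e4ee_co (statements of helper20).
-/

set_option autoImplicit false
set_option linter.unusedVariables false

namespace Pool.Agent.Helper6.EE

/-- polynomials with natural coefficients in five variables -/
def ev (y v r a b : ℝ) : List (ℕ × ℕ × ℕ × ℕ × ℕ × ℕ) → ℝ
  | [] => 0
  | (k, i, j, l, m, n) :: t => k * y ^ i * v ^ j * r ^ l * a ^ m * b ^ n + ev y v r a b t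

theorem ev_nonneg {y v r a b : ℝ} (hy : 0 ≤ y) (hv : 0 ≤ v) (hr : 0 ≤ r) (ha : 0 ≤ a)
    (hb : 0 ≤ b) : ∀ l, 0 ≤ ev y v r a b l
  | [] => le_refl _
  | (k, i, j, l, m, n) :: t => by
    have := ev_nonneg hy hv hr ha hb t
    simp only [ev]
    positivity

/-- a concave quadratic is nonnegative between two points where it is nonnegative -/
theorem conc {A B C s q l : ℝ} (hA : A ≤ 0) (h1 : s ≤ l) (h2 : l ≤ q)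
    (hs : 0 ≤ A * s ^ 2 + B * s + C) (hq : 0 ≤ A * q ^ 2 + B * q + C) :
    0 ≤ A * l ^ 2 + B * l + C := by
  rcases eq_or_lt_of_le (h1.trans h2) with h | h
  · have h3 : l = s := le_antisymm (h ▸ h2) h1
    rw [h3]; exact hs
  · have h4 : 0 < q - s := by linarith
    have h5 : 0 ≤ (q - s) * (A * l ^ 2 + B * l + C) := by
      have h6 : (q - s) * (A * l ^ 2 + B * l + C) = (q - l) * (A * s ^ 2 + B * s + C)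
        + (l - s) * (A * q ^ 2 + B * q + C) + (-A) * ((q - s) * ((l - s) * (q - l))) := by ring
      rw [h6]
      have h7 : 0 ≤ (q - l) := by linarith
      have h8 : 0 ≤ (l - s) := by linarith
      have h9 : 0 ≤ -A := by linarith
      positivity
    exact nonneg_of_mul_nonneg_right h5 h4

/-- the same with the right end point a quotient -/
theorem conc2 {A B C s N D l : ℝ} (hD : 0 < D) (hA : A ≤ 0) (h1 : s ≤ l) (h2 : D * l ≤ N)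
    (hs : 0 ≤ A * s ^ 2 + B * s + C) (hq : 0 ≤ A * N ^ 2 + B * N * D + C * D ^ 2) :
    0 ≤ A * l ^ 2 + B * l + C := by
  refine conc (q := N / D) hA h1 (by rw [le_div_iff₀ hD]; linarith) hs ?_
  have h3 : A * (N / D) ^ 2 + B * (N / D) + C = (A * N ^ 2 + B * N * D + C * D ^ 2) / D ^ 2 := by
    field_simp
  rw [h3]
  positivity

/-- linear version -/
theorem lin2 {B C s N D l : ℝ} (hD : 0 < D) (h1 : s ≤ l) (h2 : D * l ≤ N)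
    (hs : 0 ≤ B * s + C) (hq : 0 ≤ B * N + C * D) : 0 ≤ B * l + C := by
  have h := conc2 (A := 0) (B := B) (C := C) hD (le_refl _) h1 h2 (by linarith)
    (by
      have h3 : (0:ℝ) * N ^ 2 + B * N * D + C * D ^ 2 = (B * N + C * D) * D := by ring
      rw [h3]; positivity)
  linarith

/-- comparison of b l with a for a root bound -/
theorem tri {a b σ K l : ℝ} (hb : 0 ≤ b) (ha0 : 0 ≤ a) (ha : σ * b ≤ a) (hσ : σ ≤ l)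
    (hl : l ^ 2 ≤ σ * l + K) (h : 0 ≤ a ^ 2 - σ * a * b - K * b ^ 2) : b * l ≤ a := by
  by_contra hc
  push Not at hc
  have h1 : 0 < b * l - a := by linarith
  have h2 : σ * b ≤ l * b := mul_le_mul_of_nonneg_right hσ hb
  have h3 : 0 < b * l + a - σ * b := by linarith
  have h4 := mul_pos h1 h3
  have h5 : b ^ 2 * l ^ 2 ≤ b ^ 2 * (σ * l + K) := mul_le_mul_of_nonneg_left hl (by positivity)
  nlinarith

/-- the upper bound for lam -/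
theorem lam_le {x y σ X l : ℝ} (h1 : X + σ = 1)
    (hl2 : l ^ 2 + x * (x - y) ≤ σ * l + (σ + y) * X) :
    (24 * 1 - 16 * σ) * l ≤ 9 * 1 ^ 2 + 16 * ((σ + y) * X - x * (x - y)) := by
  nlinarith [sq_nonneg (l - 3 / 4)]

set_option maxRecDepth 100000 in
theorem p_O1 (y v r u x σ X M : ℝ) (hy : 0 ≤ y) (hv : 0 ≤ v) (hr : 0 ≤ r) (hu : 0 ≤ u)
  (hx : x = y+v) (hσ : σ = y+v+r) (hX : X = σ+y+u) (hM : M = X+σ) :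
    0 ≤ σ*(X*(X-y)) + 2*σ^2*(x-y) - (x-y)*(M-x)^2 := by
  have h : σ*(X*(X-y)) + 2*σ^2*(x-y) - (x-y)*(M-x)^2 = ev y v r u 0 [(2,3,0,0,0,0), (3,2,1,0,0,0), (5,2,0,1,0,0), (3,2,0,0,1,0), (4,1,2,0,0,0), (4,1,1,1,0,0), (1,1,1,0,1,0), (4,1,0,2,0,0), (5,1,0,1,1,0), (1,1,0,0,2,0), (2,0,3,0,0,0), (3,0,2,1,0,0), (1,0,1,2,0,0), (1,0,0,3,0,0), (2,0,0,2,1,0), (1,0,0,1,2,0)] := by
    subst hM hX hσ hx
    simp only [ev]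
    ring
  rw [h]
  exact ev_nonneg hy hv hr hu (le_refl _) _

set_option maxRecDepth 100000 in
theorem p_O2 (y v r u x σ X M : ℝ) (hy : 0 ≤ y) (hv : 0 ≤ v) (hr : 0 ≤ r) (hu : 0 ≤ u)
  (hx : x = y+v) (hσ : σ = y+v+r) (hX : X = σ+y+u) (hM : M = X+σ) :
    0 ≤ (M*(X*(X-y))*σ+(x-y)*(M-x)^2*(σ+x))^2-σ*(M*(X*(X-y))*σ+(x-y)*(M-x)^2*(σ+x))*((X*(X-y))*σ+(x-y)*(M-x)^2)-((σ+y)*X)*((X*(X-y))*σ+(x-y)*(M-x)^2)^2 := by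
  have h : (M*(X*(X-y))*σ+(x-y)*(M-x)^2*(σ+x))^2-σ*(M*(X*(X-y))*σ+(x-y)*(M-x)^2*(σ+x))*((X*(X-y))*σ+(x-y)*(M-x)^2)-((σ+y)*X)*((X*(X-y))*σ+(x-y)*(M-x)^2)^2 = ev y v r u 0 [(8,8,0,0,0,0), (44,7,1,0,0,0), (52,7,0,1,0,0), (36,7,0,0,1,0), (110,6,2,0,0,0), (240,6,1,1,0,0), (176,6,1,0,1,0), (146,6,0,2,0,0), (204,6,0,1,1,0), (66,6,0,0,2,0), (229,5,3,0,0,0), (477,5,2,1,0,0), (377,5,2,0,1,0), (549,5,1,2,0,0), (822,5,1,1,1,0), (283,5,1,0,2,0), (231,5,0,3,0,0), (489,5,0,2,1,0), (321,5,0,1,2,0), (63,5,0,0,3,0), (338,4,4,0,0,0), (819,4,3,1,0,0), (607,4,3,0,1,0), (818,4,2,2,0,0), (1376,4,2,1,1,0), (509,4,2,0,2,0), (680,4,1,3,0,0), (1566,4,1,2,1,0), (1107,4,1,1,2,0), (233,4,1,0,3,0), (225,4,0,4,0,0), (642,4,0,3,1,0), (642,4,0,2,2,0), (258,4,0,1,3,0), (33,4,0,0,4,0), (297,3,5,0,0,0), (1001,3,4,1,0,0), (673,3,4,0,1,0), (1100,3,3,2,0,0),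 (1732,3,3,1,1,0), (624,3,3,0,2,0), (692,3,2,3,0,0), (1924,3,2,2,1,0), (1516,3,2,1,2,0), (342,3,2,0,3,0), (490,3,1,4,0,0), (1552,3,1,3,1,0), (1697,3,1,2,2,0), (740,3,1,1,3,0), (103,3,1,0,4,0), (138,3,0,5,0,0), (498,3,0,4,1,0), (675,3,0,3,2,0), (417,3,0,2,3,0), (111,3,0,1,4,0), (9,3,0,0,5,0), (147,2,6,0,0,0), (680,2,5,1,0,0), (430,2,5,0,1,0), (1061,2,4,2,0,0), (1472,2,4,1,1,0), (494,2,4,0,2,0), (666,2,3,3,0,0), (1746,2,3,2,1,0), (1353,2,3,1,2,0), (307,2,3,0,3,0), (288,2,2,4,0,0), (1268,2,2,3,1,0), (1639,2,2,2,2,0), (790,2,2,1,3,0), (118,2,2,0,4,0), (204,2,1,5,0,0), (840,2,1,4,1,0), (1270,2,1,3,2,0), (864,2,1,2,3,0), (253,2,1,1,4,0), (23,2,1,0,5,0), (52,2,0,6,0,0), (228,2,0,5,1,0), (393,2,0,4,2,0), (332,2,0,3,3,0), (138,2,0,2,4,0), (24,2,0,1,5,0), (1,2,0,0,6,0), (38,1,7,0,0,0), (229,1,6,1,0,0), (140,1,6,0,1,0),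 (502,1,5,2,0,0), (644,1,5,1,1,0), (205,1,5,0,2,0), (466,1,4,3,0,0), (1020,1,4,2,1,0), (719,1,4,1,2,0), (157,1,4,0,3,0), (163,1,3,4,0,0), (712,1,3,3,1,0), (931,1,3,2,2,0), (458,1,3,1,3,0), (71,1,3,0,4,0), (47,1,2,5,0,0), (383,1,2,4,1,0), (757,1,2,3,2,0), (595,1,2,2,3,0), (192,1,2,1,4,0), (19,1,2,0,5,0), (45,1,1,6,0,0), (234,1,1,5,1,0), (462,1,1,4,2,0), (438,1,1,3,3,0), (203,1,1,2,4,0), (40,1,1,1,5,0), (2,1,1,0,6,0), (11,1,0,7,0,0), (57,1,0,6,1,0), (120,1,0,5,2,0), (130,1,0,4,3,0), (75,1,0,3,4,0), (21,1,0,2,5,0), (2,1,0,1,6,0), (4,0,8,0,0,0), (30,0,7,1,0,0), (18,0,7,0,1,0), (87,0,6,2,0,0), (107,0,6,1,1,0), (33,0,6,0,2,0), (118,0,5,3,0,0), (232,0,5,2,1,0), (152,0,5,1,2,0), (32,0,5,0,3,0), (68,0,4,4,0,0), (218,0,4,3,1,0), (249,0,4,2,2,0), (116,0,4,1,3,0), (18,0,4,0,4,0), (7,0,3,5,0,0), (91,0,3,4,1,0), (199,0,3,3,2,0),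 (165,0,3,2,3,0), (56,0,3,1,4,0), (6,0,3,0,5,0), (40,0,2,5,1,0), (125,0,2,4,2,0), (146,0,2,3,3,0), (77,0,2,2,4,0), (17,0,2,1,5,0), (1,0,2,0,6,0), (4,0,1,7,0,0), (26,0,1,6,1,0), (65,0,1,5,2,0), (81,0,1,4,3,0), (53,0,1,3,4,0), (17,0,1,2,5,0), (2,0,1,1,6,0), (1,0,0,8,0,0), (6,0,0,7,1,0), (15,0,0,6,2,0), (20,0,0,5,3,0), (15,0,0,4,4,0), (6,0,0,3,5,0), (1,0,0,2,6,0)] := by
    subst hM hX hσ hx
    simp only [ev]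
    ring
  rw [h]
  exact ev_nonneg hy hv hr hu (le_refl _) _

set_option maxRecDepth 100000 in
theorem p_O3s (y v r u x σ X M : ℝ) (hy : 0 ≤ y) (hv : 0 ≤ v) (hr : 0 ≤ r) (hu : 0 ≤ u)
  (hx : x = y+v) (hσ : σ = y+v+r) (hX : X = σ+y+u) (hM : M = X+σ) :
    0 ≤ (-(X*(X-y))-2*(X-x)*(x-y))*(σ+y)^2+((X*(X-y))*(M-x)-2*(X-x)*((x-y)*(2*X-x)-(X*(X-y))))*(σ+y)+(M*(X*(X-y))*x-2*(X-x)*((X-x)*(x-y)*X-(X*(X-y))*x)) := by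
  have h : (-(X*(X-y))-2*(X-x)*(x-y))*(σ+y)^2+((X*(X-y))*(M-x)-2*(X-x)*((x-y)*(2*X-x)-(X*(X-y))))*(σ+y)+(M*(X*(X-y))*x-2*(X-x)*((X-x)*(x-y)*X-(X*(X-y))*x)) = ev y v r u 0 [(18,4,0,0,0,0), (21,3,1,0,0,0), (51,3,0,1,0,0), (45,3,0,0,1,0), (20,2,2,0,0,0), (43,2,1,1,0,0), (46,2,1,0,1,0), (51,2,0,2,0,0), (87,2,0,1,1,0), (36,2,0,0,2,0), (11,1,3,0,0,0), (25,1,2,1,0,0), (25,1,2,0,1,0), (27,1,1,2,0,0), (58,1,1,1,1,0), (29,1,1,0,2,0), (21,1,0,3,0,0), (51,1,0,2,1,0), (39,1,0,1,2,0), (9,1,0,0,3,0), (2,0,4,0,0,0), (7,0,3,1,0,0), (6,0,3,0,1,0), (7,0,2,2,0,0), (15,0,2,1,1,0), (8,0,2,0,2,0), (5,0,1,3,0,0), (16,0,1,2,1,0), (15,0,1,1,2,0), (4,0,1,0,3,0), (3,0,0,4,0,0), (9,0,0,3,1,0), (9,0,0,2,2,0), (3,0,0,1,3,0)] := by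
    subst hM hX hσ hx
    simp only [ev]
    ring
  rw [h]
  exact ev_nonneg hy hv hr hu (le_refl _) _

set_option maxRecDepth 100000 in
theorem p_O3l (y v r u x σ X M : ℝ) (hy : 0 ≤ y) (hv : 0 ≤ v) (hr : 0 ≤ r) (hu : 0 ≤ u)
  (hx : x = y+v) (hσ : σ = y+v+r) (hX : X = σ+y+u) (hM : M = X+σ) :
    0 ≤ (-(X*(X-y))-2*(X-x)*(x-y))*(9*M^2+16*((σ+y)*X-x*(x-y)))^2+((X*(X-y))*(M-x)-2*(X-x)*((x-y)*(2*X-x)-(X*(X-y))))*(9*M^2+16*((σ+y)*X-x*(x-y)))*(24*M-16*σ)+(M*(X*(X-y))*x-2*(X-x)*((X-x)*(x-y)*X-(X*(X-y))*x))*(24*M-16*σ)^2 := by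
  have h : (-(X*(X-y))-2*(X-x)*(x-y))*(9*M^2+16*((σ+y)*X-x*(x-y)))^2+((X*(X-y))*(M-x)-2*(X-x)*((x-y)*(2*X-x)-(X*(X-y))))*(9*M^2+16*((σ+y)*X-x*(x-y)))*(24*M-16*σ)+(M*(X*(X-y))*x-2*(X-x)*((X-x)*(x-y)*X-(X*(X-y))*x))*(24*M-16*σ)^2 = ev y v r u 0 [(54270,6,0,0,0,0), (90603,5,1,0,0,0), (221709,5,0,1,0,0), (192309,5,0,0,1,0), (74543,4,2,0,0,0), (302036,4,1,1,0,0), (305976,4,1,0,1,0), (368679,4,0,2,0,0), (630458,4,0,1,1,0), (265687,4,0,0,2,0), (65416,3,3,0,0,0), (162736,3,2,1,0,0), (208612,3,2,0,1,0), (390424,3,1,2,0,0), (786552,3,1,1,1,0), (376618,3,1,0,2,0), (319840,3,0,3,0,0), (808348,3,0,2,1,0), (669742,3,0,1,2,0), (181242,3,0,0,3,0), (45640,2,4,0,0,0), (89296,2,3,1,0,0), (109344,2,3,0,1,0), (119440,2,2,2,0,0), (350472,2,2,1,1,0), (205706,2,2,0,2,0), (244496,2,1,3,0,0), (736096,2,1,2,1,0), (697200,2,1,1,2,0),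 (209332,2,1,0,3,0), (153032,2,0,4,0,0), (508168,2,0,3,1,0), (620834,2,0,2,2,0), (329192,2,0,1,3,0), (63476,2,0,0,4,0), (15536,1,5,0,0,0), (45872,1,4,1,0,0), (43744,1,4,0,1,0), (28192,1,3,2,0,0), (99712,1,3,1,1,0), (64264,1,3,0,2,0), (31328,1,2,3,0,0), (181728,1,2,2,1,0), (229056,1,2,1,2,0), (80964,1,2,0,3,0), (74160,1,1,4,0,0), (297792,1,1,3,1,0), (419736,1,1,2,2,0), (248552,1,1,1,3,0), (52259,1,1,0,4,0), (38384,1,0,5,0,0), (157056,1,0,4,1,0), (251504,1,0,3,2,0), (195852,1,0,2,3,0), (73469,1,0,1,4,0), (10449,1,0,0,5,0), (1904,0,6,0,0,0), (8064,0,5,1,0,0), (7296,0,5,0,1,0), (9488,0,4,2,0,0), (20544,0,4,1,1,0), (11000,0,4,0,2,0), (16448,0,3,2,1,0), (29680,0,3,1,2,0), (12048,0,3,0,3,0), (1296,0,2,4,0,0), (27776,0,2,3,1,0), (60176,0,2,2,2,0), (44360,0,2,1,3,0), (10655,0,2,0,4,0), (8064,0,1,5,0,0), (43968,0,1,4,1,0),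 (82288,0,1,3,2,0), (72240,0,1,2,3,0), (29788,0,1,1,4,0), (4572,0,1,0,5,0), (3952,0,0,6,0,0), (19136,0,0,5,1,0), (37656,0,0,4,2,0), (38248,0,0,3,3,0), (20879,0,0,2,4,0), (5670,0,0,1,5,0), (567,0,0,0,6,0)] + (640*(v*r)*(r^2-v^2)^2) := by
    subst hM hX hσ hx
    simp only [ev]
    ring
  rw [h]
  have h2 : 0 ≤ 640*(v*r)*(r^2-v^2)^2 := by positivity
  exact add_nonneg (ev_nonneg hy hv hr hu (le_refl _) _) h2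

set_option maxRecDepth 100000 in
theorem p_O4s (y v r u x σ X M : ℝ) (hy : 0 ≤ y) (hv : 0 ≤ v) (hr : 0 ≤ r) (hu : 0 ≤ u)
  (hx : x = y+v) (hσ : σ = y+v+r) (hX : X = σ+y+u) (hM : M = X+σ) :
    0 ≤ (-(σ*(X*(X-y)))-(x-y)*(M-x)^2-2*σ*(X-x)*(x-y))*(σ+y)^2+(σ*((X*(X-y))*(M-x))+(x-y)*(M-x)^2*σ-2*σ*(X-x)*((x-y)*(2*X-x)-(X*(X-y))))*(σ+y)+(σ*(M*(X*(X-y))*x)+(x-y)*(M-x)^2*((σ+x)*x)-2*σ*(X-x)*((X-x)*(x-y)*X-(X*(X-y))*x)) := by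
  have h : (-(σ*(X*(X-y)))-(x-y)*(M-x)^2-2*σ*(X-x)*(x-y))*(σ+y)^2+(σ*((X*(X-y))*(M-x))+(x-y)*(M-x)^2*σ-2*σ*(X-x)*((x-y)*(2*X-x)-(X*(X-y))))*(σ+y)+(σ*(M*(X*(X-y))*x)+(x-y)*(M-x)^2*((σ+x)*x)-2*σ*(X-x)*((X-x)*(x-y)*X-(X*(X-y))*x)) = ev y v r u 0 [(18,5,0,0,0,0), (39,4,1,0,0,0), (69,4,0,1,0,0), (45,4,0,0,1,0), (53,3,2,0,0,0), (115,3,1,1,0,0), (91,3,1,0,1,0), (102,3,0,2,0,0), (132,3,0,1,1,0), (36,3,0,0,2,0), (51,2,3,0,0,0), (116,2,2,1,0,0), (83,2,2,0,1,0), (121,2,1,2,0,0), (191,2,1,1,1,0), (65,2,1,0,2,0), (72,2,0,3,0,0), (138,2,0,2,1,0), (75,2,0,1,2,0), (9,2,0,0,3,0), (24,1,4,0,0,0), (75,1,3,1,0,0), (45,1,3,0,1,0), (79,1,2,2,0,0), (114,1,2,1,1,0), (40,1,2,0,2,0), (53,1,1,3,0,0), (125,1,1,2,1,0), (83,1,1,1,2,0), (13,1,1,0,3,0), (24,1,0,4,0,0), (60,1,0,3,1,0), (48,1,0,2,2,0), (12,1,0,1,3,0), (4,0,5,0,0,0), (18,0,4,1,0,0),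 (10,0,4,0,1,0), (26,0,3,2,0,0), (31,0,3,1,1,0), (10,0,3,0,2,0), (16,0,2,3,0,0), (35,0,2,2,1,0), (24,0,2,1,2,0), (4,0,2,0,3,0), (8,0,1,4,0,0), (25,0,1,3,1,0), (24,0,1,2,2,0), (7,0,1,1,3,0), (3,0,0,5,0,0), (9,0,0,4,1,0), (9,0,0,3,2,0), (3,0,0,2,3,0)] := by
    subst hM hX hσ hx
    simp only [ev]
    ring
  rw [h]
  exact ev_nonneg hy hv hr hu (le_refl _) _

set_option maxRecDepth 100000 in
theorem p_O4l (y v r u x σ X M : ℝ) (hy : 0 ≤ y) (hv : 0 ≤ v) (hr : 0 ≤ r) (hu : 0 ≤ u)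
  (hx : x = y+v) (hσ : σ = y+v+r) (hX : X = σ+y+u) (hM : M = X+σ) :
    0 ≤ (-(σ*(X*(X-y)))-(x-y)*(M-x)^2-2*σ*(X-x)*(x-y))*(9*M^2+16*((σ+y)*X-x*(x-y)))^2+(σ*((X*(X-y))*(M-x))+(x-y)*(M-x)^2*σ-2*σ*(X-x)*((x-y)*(2*X-x)-(X*(X-y))))*(9*M^2+16*((σ+y)*X-x*(x-y)))*(24*M-16*σ)+(σ*(M*(X*(X-y))*x)+(x-y)*(M-x)^2*((σ+x)*x)-2*σ*(X-x)*((X-x)*(x-y)*X-(X*(X-y))*x))*(24*M-16*σ)^2 := by
  have h : (-(σ*(X*(X-y)))-(x-y)*(M-x)^2-2*σ*(X-x)*(x-y))*(9*M^2+16*((σ+y)*X-x*(x-y)))^2+(σ*((X*(X-y))*(M-x))+(x-y)*(M-x)^2*σ-2*σ*(X-x)*((x-y)*(2*X-x)-(X*(X-y))))*(9*M^2+16*((σ+y)*X-x*(x-y)))*(24*M-16*σ)+(σ*(M*(X*(X-y))*x)+(x-y)*(M-x)^2*((σ+x)*x)-2*σ*(X-x)*((X-x)*(x-y)*X-(X*(X-y))*x))*(24*M-16*σ)^2 = ev y v r u 0 [(54270,7,0,0,0,0), (118341,6,1,0,0,0), (275979,6,0,1,0,0), (192309,6,0,0,1,0), (122486,5,2,0,0,0), (492548,5,1,1,0,0), (426681,5,1,0,1,0),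 (590388,5,0,2,0,0), (822767,5,0,1,1,0), (265687,5,0,0,2,0), (150254,4,3,0,0,0), (352975,4,2,1,0,0), (398586,4,2,0,1,0), (831759,4,1,2,0,0), (1454310,4,1,1,1,0), (565456,4,1,0,2,0), (688519,4,0,3,0,0), (1438806,4,0,2,1,0), (935429,4,0,1,2,0), (181242,4,0,0,3,0), (172848,3,4,0,0,0), (303208,3,3,1,0,0), (294304,3,3,0,1,0), (354552,3,2,2,0,0), (958484,3,2,1,1,0), (467700,3,2,0,2,0), (728136,3,1,3,0,0), (1934916,3,1,2,1,0), (1518312,3,1,1,2,0), (348834,3,1,0,3,0), (472872,3,0,4,0,0), (1316516,3,0,3,1,0), (1290576,3,0,2,2,0), (510434,3,0,1,3,0), (63476,3,0,0,4,0), (109824,2,5,0,0,0), (289528,2,4,1,0,0), (203584,2,4,0,1,0), (164232,2,3,2,0,0), (448088,2,3,1,1,0), (231308,2,3,0,2,0), (131040,2,2,3,0,0), (794776,2,2,2,1,0), (855794,2,2,1,2,0), (237756,2,2,0,3,0), (347880,2,1,4,0,0), (1255560,2,1,3,1,0), (1495354,2,1,2,2,0),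 (698140,2,1,1,3,0), (103797,2,1,0,4,0), (191416,2,0,5,0,0), (665224,2,0,4,1,0), (872338,2,0,3,2,0), (525044,2,0,2,3,0), (136945,2,0,1,4,0), (10449,2,0,0,5,0), (33248,1,6,0,0,0), (128541,1,5,1,0,0), (83504,1,5,0,1,0), (137696,1,4,2,0,0), (211712,1,4,1,1,0), (84960,1,4,0,2,0), (4,1,3,3,0,0), (169136,1,3,2,1,0), (241912,1,3,1,2,0), (76496,1,3,0,3,0), (224,1,2,4,0,0), (256608,1,2,3,1,0), (492712,1,2,2,2,0), (292676,1,2,1,3,0), (51702,1,2,0,4,0), (83316,1,1,5,0,0), (397184,1,1,4,1,0), (640120,1,1,3,2,0), (455108,1,1,2,3,0), (139300,1,1,1,4,0), (13365,1,1,0,5,0), (42336,1,0,6,0,0), (176192,1,0,5,1,0), (289160,1,0,4,2,0), (234100,1,0,3,3,0), (94348,1,0,2,4,0), (16119,1,0,1,5,0), (567,1,0,0,6,0), (3808,0,7,0,0,0), (21488,0,6,1,0,0), (12960,0,6,0,1,0), (20336,0,5,2,0,0), (47808,0,5,1,1,0), (15952,0,5,0,2,0), (7456,0,4,3,0,0),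 (43136,0,4,2,1,0), (41880,0,4,1,2,0), (11856,0,4,0,3,0), (1280,0,3,3,1,0), (51272,0,3,2,2,0), (41288,0,3,1,3,0), (8470,0,3,0,4,0), (23328,0,2,4,1,0), (87584,0,2,3,2,0), (86152,0,2,2,3,0), (32167,0,2,1,4,0), (3690,0,2,0,5,0), (4112,0,1,6,0,0), (48960,0,1,5,1,0), (100504,0,1,4,2,0), (96696,0,1,3,3,0), (45359,0,1,2,4,0), (9198,0,1,1,5,0), (486,0,1,0,6,0), (2276,0,0,7,0,0), (19136,0,0,6,1,0), (37656,0,0,5,2,0), (38248,0,0,4,3,0), (20879,0,0,3,4,0), (5670,0,0,2,5,0), (567,0,0,1,6,0)] + (4384*(v*r^2)*(r^2-2*v^2)^2 + 619*(y*v*r)*(2*r^2-3*v^2)^2 + 1676*(r^3)*(r^2-2*v^2)^2) := by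
    subst hM hX hσ hx
    simp only [ev]
    ring
  rw [h]
  have h2 : 0 ≤ 4384*(v*r^2)*(r^2-2*v^2)^2 + 619*(y*v*r)*(2*r^2-3*v^2)^2 + 1676*(r^3)*(r^2-2*v^2)^2 := by positivity
  exact add_nonneg (ev_nonneg hy hv hr hu (le_refl _) _) h2


/-- positivity of `lam + x` -/
theorem lx_pos {x y σ X lam T : ℝ} (hy : 0 ≤ y) (hyx : y ≤ x) (hxs : x ≤ σ) (hsX : σ + y ≤ X)
    (h1 : X + σ = 1)
    (hl1 : σ + y ≤ lam)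
    (hl2 : lam ^ 2 + x * (x - y) ≤ σ * lam + (σ + y) * X)
    (hT : T * (lam + x) = lam + X) : 0 < lam + x ∧ 0 < σ := by
  have h0 : 0 ≤ lam + x := by linarith
  have h2 : 0 < lam + x := by
    rcases eq_or_lt_of_le h0 with h | h
    · exfalso
      rw [← h, mul_zero] at hT
      linarith
    · exact h
  refine ⟨h2, ?_⟩
  rcases eq_or_lt_of_le (hy.trans (hyx.trans hxs)) with h | h
  · exfalso
    have h3 : x = 0 := by linarith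
    have h4 : y = 0 := by linarith
    have h5 : 0 < lam := by linarith
    rw [h3, h4, ← h] at hl2
    nlinarith
  · exact h

theorem O1 {x y σ X : ℝ} (hy : 0 ≤ y) (hyx : y ≤ x) (hxs : x ≤ σ) (hsX : σ + y ≤ X)
    (h1 : X + σ = 1) :
    (x-y)*(1-x)^2 ≤ σ*(X*(X-y)) + 2*σ^2*(x-y) := by
  have h := p_O1 y (x-y) (σ-x) (X-σ-y) x σ X 1 hy (by linarith) (by linarith) (by linarith)
    (by ring) (by ring) (by ring) (by linarith)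
  linarith

theorem O2 {x y σ X lam : ℝ} (hy : 0 ≤ y) (hyx : y ≤ x) (hxs : x ≤ σ) (hsX : σ + y ≤ X)
    (h1 : X + σ = 1)
    (hl1 : σ + y ≤ lam)
    (hl2 : lam ^ 2 + x * (x - y) ≤ σ * lam + (σ + y) * X) :
    (x-y)*(1-x)^2*(lam-σ-x) ≤ (1-lam)*(X*(X-y))*σ := by
  have h := p_O2 y (x-y) (σ-x) (X-σ-y) x σ X 1 hy (by linarith) (by linarith) (by linarith)
    (by ring) (by ring) (by ring) (by linarith)
  have hd : 0 ≤ x - y := by linarith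
  have hσ : 0 ≤ σ := by linarith
  have hX : 0 ≤ X := by linarith
  have hXy : 0 ≤ X - y := by linarith
  have hb : 0 ≤ (X*(X-y))*σ+(x-y)*(1-x)^2 := by positivity
  have ha0 : 0 ≤ (1*(X*(X-y))*σ+(x-y)*(1-x)^2*(σ+x)) := by
    have : 0 ≤ x := by linarith
    positivity
  have ha : σ * ((X*(X-y))*σ+(x-y)*(1-x)^2) ≤ (1*(X*(X-y))*σ+(x-y)*(1-x)^2*(σ+x)) := by
    have h2 : 0 ≤ (1 - σ) * ((X*(X-y))*σ) := mul_nonneg (by linarith) (by positivity)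
    have h3 : 0 ≤ x * ((x-y)*(1-x)^2) := mul_nonneg (by linarith) (by positivity)
    nlinarith
  have h4 := tri (K := (σ+y)*X) (l := lam) hb ha0 ha (by linarith)
    (by nlinarith [mul_nonneg (hy.trans hyx) hd]) h
  linarith

theorem O3 {x y σ X lam T : ℝ} (hy : 0 ≤ y) (hyx : y ≤ x) (hxs : x ≤ σ) (hsX : σ + y ≤ X)
    (h1 : X + σ = 1)
    (hl1 : σ + y ≤ lam)
    (hl2 : lam ^ 2 + x * (x - y) ≤ σ * lam + (σ + y) * X)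
    (hT : T * (lam + x) = lam + X) :
    2*(X-x)*((X+lam-x)*(x-y)*T - X*(X-y)) ≤ (1-lam)*(X*(X-y)) := by
  obtain ⟨hp, hσ⟩ := lx_pos hy hyx hxs hsX h1 hl1 hl2 hT
  have hd : 0 ≤ x - y := by linarith
  have ht : 0 ≤ X - x := by linarith
  have hX : 0 ≤ X := by linarith
  have hXy : 0 ≤ X - y := by linarith
  have hk := conc2 (by linarith) (by
      have : 0 ≤ X*(X-y)+2*(X-x)*(x-y) := by positivity
      linarith) hl1 (lam_le h1 hl2)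
    (p_O3s y (x-y) (σ-x) (X-σ-y) x σ X 1 hy (by linarith) (by linarith) (by linarith)
    (by ring) (by ring) (by ring) (by linarith))
    (p_O3l y (x-y) (σ-x) (X-σ-y) x σ X 1 hy (by linarith) (by linarith) (by linarith)
    (by ring) (by ring) (by ring) (by linarith))
  have h5 : 0 ≤ ((1-lam)*(X*(X-y)) - 2*(X-x)*((X+lam-x)*(x-y)*T - X*(X-y))) * (lam + x) := by
    refine le_of_le_of_eq hk ?_
    linear_combination (2*(X-x)*(X+lam-x)*(x-y)) * hT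
  have h6 := nonneg_of_mul_nonneg_left h5 hp
  linarith

theorem O4 {x y σ X lam T : ℝ} (hy : 0 ≤ y) (hyx : y ≤ x) (hxs : x ≤ σ) (hsX : σ + y ≤ X)
    (h1 : X + σ = 1)
    (hl1 : σ + y ≤ lam)
    (hl2 : lam ^ 2 + x * (x - y) ≤ σ * lam + (σ + y) * X)
    (hT : T * (lam + x) = lam + X) :
    (x-y)*(1-x)^2*(lam-σ-x) + 2*σ*(X-x)*((X+lam-x)*(x-y)*T - X*(X-y))
      ≤ σ*((1-lam)*(X*(X-y))) := by
  obtain ⟨hp, hσ⟩ := lx_pos hy hyx hxs hsX h1 hl1 hl2 hT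
  have hd : 0 ≤ x - y := by linarith
  have ht : 0 ≤ X - x := by linarith
  have hX : 0 ≤ X := by linarith
  have hXy : 0 ≤ X - y := by linarith
  have hk := conc2 (by linarith) (by
      have : 0 ≤ σ*(X*(X-y))+(x-y)*(1-x)^2+2*σ*(X-x)*(x-y) := by positivity
      linarith) hl1 (lam_le h1 hl2)
    (p_O4s y (x-y) (σ-x) (X-σ-y) x σ X 1 hy (by linarith) (by linarith) (by linarith)
    (by ring) (by ring) (by ring) (by linarith))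
    (p_O4l y (x-y) (σ-x) (X-σ-y) x σ X 1 hy (by linarith) (by linarith) (by linarith)
    (by ring) (by ring) (by ring) (by linarith))
  have h5 : 0 ≤ (σ*((1-lam)*(X*(X-y))) - ((x-y)*(1-x)^2*(lam-σ-x)
      + 2*σ*(X-x)*((X+lam-x)*(x-y)*T - X*(X-y)))) * (lam + x) := by
    refine le_of_le_of_eq hk ?_
    linear_combination (2*σ*(X-x)*(X+lam-x)*(x-y)) * hT
  have h6 := nonneg_of_mul_nonneg_left h5 hp
  linarith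

end Pool.Agent.Helper6.EE
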