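import Mathlib
import Pool.Agent.Helper6.SW.EEPoly

/-!
Polynomial inequalities E1-E3 and om for the double class EE of MP_66e4ee_co (statements of
helper20).
-/

set_option autoImplicit false
set_option linter.unusedVariables false

namespace Pool.Agent.Helper6.EE

set_option maxRecDepth 100000 in
theorem p_E1_0s_a (y v r u x σ X M : ℝ) (hy : 0 ≤ y) (hv : 0 ≤ v) (hr : 0 ≤ r) (hu : 0 ≤ u)
  (hx : x = y+v) (hσ : σ = y+v+r) (hX : X = σ+y+u) (hM : M = X+σ) (hc : v ≤ y) :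
    0 ≤ (σ*((σ*(X-y)^2)*(X*(X-y)))-(x-y)*(M-x)^2*((X-x)*(σ*(M+X)+X*y)-(σ*(X-y)^2)))*(σ+y)+((σ*((σ*(X-y)^2)*(X*(X-y)))-(x-y)*(M-x)^2*((X-x)*(σ*(M+X)+X*y)-(σ*(X-y)^2)))*x+σ*((σ*(M+X)+X*y)*M*σ*(x-y)*(X-x))) := by
  obtain ⟨w, hw, hw2⟩ : ∃ w, 0 ≤ w ∧ y = w + v := ⟨y - v, by linarith, by ring⟩
  have h : (σ*((σ*(X-y)^2)*(X*(X-y)))-(x-y)*(M-x)^2*((X-x)*(σ*(M+X)+X*y)-(σ*(X-y)^2)))*(σ+y)+((σ*((σ*(X-y)^2)*(X*(X-y)))-(x-y)*(M-x)^2*((X-x)*(σ*(M+X)+X*y)-(σ*(X-y)^2)))*x+σ*((σ*(M+X)+X*y)*M*σ*(x-y)*(X-x))) = ev w v r u 0 [(6,7,0,0,0,0), (28,6,1,0,0,0), (35,6,0,1,0,0), (21,6,0,0,1,0), (30,5,2,0,0,0), (173,5,1,1,0,0), (105,5,1,0,1,0), (86,5,0,2,0,0), (103,5,0,1,1,0), (27,5,0,0,2,0), (24,4,3,0,0,0), (350,4,2,1,0,0), (184,4,2,0,1,0), (421,4,1,2,0,0), (515,4,1,1,1,0), (133,4,1,0,2,0), (115,4,0,3,0,0), (206,4,0,2,1,0),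 (108,4,0,1,2,0), (15,4,0,0,3,0), (301,3,4,0,0,0), (684,3,3,1,0,0), (225,3,3,0,1,0), (941,3,2,2,0,0), (1085,3,2,1,1,0), (246,3,2,0,2,0), (521,3,1,3,0,0), (956,3,1,2,1,0), (504,3,1,1,2,0), (67,3,1,0,3,0), (90,3,0,4,0,0), (214,3,0,3,1,0), (168,3,0,2,2,0), (47,3,0,1,3,0), (3,3,0,0,4,0), (873,2,5,0,0,0), (1548,2,4,1,0,0), (490,2,4,0,1,0), (1588,2,3,2,0,0), (1556,2,3,1,1,0), (257,2,3,0,2,0), (1050,2,2,3,0,0), (1864,2,2,2,1,0), (933,2,2,1,2,0), (109,2,2,0,3,0), (347,2,1,4,0,0), (843,2,1,3,1,0), (671,2,1,2,2,0), (187,2,1,1,3,0), (11,2,1,0,4,0), (41,2,0,5,0,0), (121,2,0,4,1,0), (126,2,0,3,2,0), (53,2,0,2,3,0), (7,2,0,1,4,0), (949,1,6,0,0,0), (1967,1,5,1,0,0), (735,1,5,0,1,0), (1931,1,4,2,0,0), (1709,1,4,1,1,0), (228,1,4,0,2,0), (1254,1,3,3,0,0), (2030,1,3,2,1,0), (904,1,3,1,2,0), (83,1,3,0,3,0),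 (527,1,2,4,0,0), (1249,1,2,3,1,0), (968,1,2,2,2,0), (259,1,2,1,3,0), (13,1,2,0,4,0), (118,1,1,5,0,0), (353,1,1,4,1,0), (372,1,1,3,2,0), (158,1,1,2,3,0), (21,1,1,1,4,0), (10,1,0,6,0,0), (35,1,0,5,1,0), (45,1,0,4,2,0), (25,1,0,3,3,0), (5,1,0,2,4,0), (365,0,7,0,0,0), (919,0,6,1,0,0), (386,0,6,0,1,0), (1021,0,5,2,0,0), (900,0,5,1,1,0), (126,0,5,0,2,0), (698,0,4,3,0,0), (1042,0,4,2,1,0), (415,0,4,1,2,0), (30,0,4,0,3,0), (326,0,3,4,0,0), (725,0,3,3,1,0), (526,0,3,2,2,0), (130,0,3,1,3,0), (5,0,3,0,4,0), (98,0,2,5,0,0), (286,0,2,4,1,0), (295,0,2,3,2,0), (123,0,2,2,3,0), (16,0,2,1,4,0), (16,0,1,6,0,0), (56,0,1,5,1,0), (72,0,1,4,2,0), (40,0,1,3,3,0), (8,0,1,2,4,0), (1,0,0,7,0,0), (4,0,0,6,1,0), (6,0,0,5,2,0), (4,0,0,4,3,0), (1,0,0,3,4,0)] := by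
    subst hM hX hσ hx hw2
    simp only [ev]
    ring
  rw [h]
  exact ev_nonneg hw hv hr hu (le_refl _) _

set_option maxRecDepth 100000 in
theorem p_E1_0s_b (y v r u x σ X M : ℝ) (hy : 0 ≤ y) (hv : 0 ≤ v) (hr : 0 ≤ r) (hu : 0 ≤ u)
  (hx : x = y+v) (hσ : σ = y+v+r) (hX : X = σ+y+u) (hM : M = X+σ) (hc : y ≤ v) :
    0 ≤ (σ*((σ*(X-y)^2)*(X*(X-y)))-(x-y)*(M-x)^2*((X-x)*(σ*(M+X)+X*y)-(σ*(X-y)^2)))*(σ+y)+((σ*((σ*(X-y)^2)*(X*(X-y)))-(x-y)*(M-x)^2*((X-x)*(σ*(M+X)+X*y)-(σ*(X-y)^2)))*x+σ*((σ*(M+X)+X*y)*M*σ*(x-y)*(X-x))) := by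
  obtain ⟨w, hw, hw2⟩ : ∃ w, 0 ≤ w ∧ v = w + y := ⟨v - y, by linarith, by ring⟩
  have h : (σ*((σ*(X-y)^2)*(X*(X-y)))-(x-y)*(M-x)^2*((X-x)*(σ*(M+X)+X*y)-(σ*(X-y)^2)))*(σ+y)+((σ*((σ*(X-y)^2)*(X*(X-y)))-(x-y)*(M-x)^2*((X-x)*(σ*(M+X)+X*y)-(σ*(X-y)^2)))*x+σ*((σ*(M+X)+X*y)*M*σ*(x-y)*(X-x))) = ev y w r u 0 [(365,7,0,0,0,0), (1606,6,1,0,0,0), (919,6,0,1,0,0), (386,6,0,0,1,0), (2844,5,2,0,0,0), (3547,5,1,1,0,0), (1581,5,1,0,1,0), (1021,5,0,2,0,0), (900,5,0,1,1,0), (126,5,0,0,2,0), (2604,4,3,0,0,0), (5498,4,2,1,0,0), (2605,4,2,0,1,0), (3174,4,1,2,0,0), (2791,4,1,1,1,0), (402,4,1,0,2,0), (698,4,0,3,0,0), (1042,4,0,2,1,0), (415,4,0,1,2,0), (30,4,0,0,3,0), (1345,3,4,0,0,0), (4218,3,3,1,0,0), (2105,3,3,0,1,0), (4074,3,2,2,0,0), (3720,3,2,1,1,0), (605,3,2,0,2,0), (1538,3,1,3,0,0), (2138,3,1,2,1,0),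 (756,3,1,1,2,0), (37,3,1,0,3,0), (326,3,0,4,0,0), (725,3,0,3,1,0), (526,3,0,2,2,0), (130,3,0,1,3,0), (5,3,0,0,4,0), (396,2,5,0,0,0), (1701,2,4,1,0,0), (889,2,4,0,1,0), (2447,2,3,2,0,0), (2329,2,3,1,1,0), (417,2,3,0,2,0), (1476,2,2,3,0,0), (2026,2,2,2,1,0), (711,2,2,1,2,0), (40,2,2,0,3,0), (451,2,1,4,0,0), (926,2,1,3,1,0), (610,2,1,2,2,0), (131,2,1,1,3,0), (2,2,1,0,4,0), (98,2,0,5,0,0), (286,2,0,4,1,0), (295,2,0,3,2,0), (123,2,0,2,3,0), (16,2,0,1,4,0), (62,1,6,0,0,0), (346,1,5,1,0,0), (189,1,5,0,1,0), (684,1,4,2,0,0), (677,1,4,1,1,0), (130,1,4,0,2,0), (609,1,3,3,0,0), (850,1,3,2,1,0), (310,1,3,1,2,0), (22,1,3,0,3,0), (271,1,2,4,0,0), (520,1,2,3,1,0), (313,1,2,2,2,0), (59,1,2,1,3,0), (78,1,1,5,0,0), (219,1,1,4,1,0), (218,1,1,3,2,0), (88,1,1,2,3,0), (11,1,1,1,4,0), (16,1,0,6,0,0), (56,1,0,5,1,0),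 (72,1,0,4,2,0), (40,1,0,3,3,0), (8,1,0,2,4,0), (4,0,7,0,0,0), (28,0,6,1,0,0), (16,0,6,0,1,0), (72,0,5,2,0,0), (74,0,5,1,1,0), (15,0,5,0,2,0), (88,0,4,3,0,0), (126,0,4,2,1,0), (48,0,4,1,2,0), (4,0,4,0,3,0), (56,0,3,4,0,0), (105,0,3,3,1,0), (61,0,3,2,2,0), (11,0,3,1,3,0), (21,0,2,5,0,0), (54,0,2,4,1,0), (49,0,2,3,2,0), (18,0,2,2,3,0), (2,0,2,1,4,0), (6,0,1,6,0,0), (21,0,1,5,1,0), (27,0,1,4,2,0), (15,0,1,3,3,0), (3,0,1,2,4,0), (1,0,0,7,0,0), (4,0,0,6,1,0), (6,0,0,5,2,0), (4,0,0,4,3,0), (1,0,0,3,4,0)] := by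
    subst hM hX hσ hx hw2
    simp only [ev]
    ring
  rw [h]
  exact ev_nonneg hy hw hr hu (le_refl _) _

theorem p_E1_0s (y v r u x σ X M : ℝ) (hy : 0 ≤ y) (hv : 0 ≤ v) (hr : 0 ≤ r) (hu : 0 ≤ u)
  (hx : x = y+v) (hσ : σ = y+v+r) (hX : X = σ+y+u) (hM : M = X+σ) :
    0 ≤ (σ*((σ*(X-y)^2)*(X*(X-y)))-(x-y)*(M-x)^2*((X-x)*(σ*(M+X)+X*y)-(σ*(X-y)^2)))*(σ+y)+((σ*((σ*(X-y)^2)*(X*(X-y)))-(x-y)*(M-x)^2*((X-x)*(σ*(M+X)+X*y)-(σ*(X-y)^2)))*x+σ*((σ*(M+X)+X*y)*M*σ*(x-y)*(X-x))) := by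
  rcases le_total v y with hc | hc
  · exact p_E1_0s_a y v r u x σ X M hy hv hr hu hx hσ hX hM hc
  · exact p_E1_0s_b y v r u x σ X M hy hv hr hu hx hσ hX hM hc

set_option maxRecDepth 100000 in
theorem p_E1_0l_a (y v r u x σ X M : ℝ) (hy : 0 ≤ y) (hv : 0 ≤ v) (hr : 0 ≤ r) (hu : 0 ≤ u)
  (hx : x = y+v) (hσ : σ = y+v+r) (hX : X = σ+y+u) (hM : M = X+σ) (hc : v ≤ y) :
    0 ≤ (σ*((σ*(X-y)^2)*(X*(X-y)))-(x-y)*(M-x)^2*((X-x)*(σ*(M+X)+X*y)-(σ*(X-y)^2)))*(9*M^2+16*((σ+y)*X-x*(x-y)))+((σ*((σ*(X-y)^2)*(X*(X-y)))-(x-y)*(M-x)^2*((X-x)*(σ*(M+X)+X*y)-(σ*(X-y)^2)))*x+σ*((σ*(M+X)+X*y)*M*σ*(x-y)*(X-x)))*(24*M-16*σ) := by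
  obtain ⟨w, hw, hw2⟩ : ∃ w, 0 ≤ w ∧ y = w + v := ⟨y - v, by linarith, by ring⟩
  have h : (σ*((σ*(X-y)^2)*(X*(X-y)))-(x-y)*(M-x)^2*((X-x)*(σ*(M+X)+X*y)-(σ*(X-y)^2)))*(9*M^2+16*((σ+y)*X-x*(x-y)))+((σ*((σ*(X-y)^2)*(X*(X-y)))-(x-y)*(M-x)^2*((X-x)*(σ*(M+X)+X*y)-(σ*(X-y)^2)))*x+σ*((σ*(M+X)+X*y)*M*σ*(x-y)*(X-x)))*(24*M-16*σ) = ev w v r u 0 [(402,8,0,0,0,0), (1265,7,1,0,0,0), (2619,7,0,1,0,0), (1627,7,0,0,1,0), (887,6,2,0,0,0), (15083,6,1,1,0,0), (9571,6,1,0,1,0), (7373,6,0,2,0,0), (9174,6,0,1,1,0), (2597,6,0,0,2,0), (5,5,3,0,0,0), (28709,5,2,1,0,0), (17515,5,2,0,1,0), (41340,5,1,2,0,0), (52896,5,1,1,1,0), (14892,5,1,0,2,0), (11702,5,0,3,0,0), (21872,5,0,2,1,0), (12452,5,0,1,2,0), (2058,5,0,0,3,0), (6,4,4,0,0,0), (26148,4,3,1,0,0), (6695,4,3,0,1,0), (91517,4,2,2,0,0), (117100,4,2,1,1,0), (30605,4,2,0,2,0),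 (60834,4,1,3,0,0), (117328,4,1,2,1,0), (67403,4,1,1,2,0), (10770,4,1,0,3,0), (11440,4,0,4,0,0), (28548,4,0,3,1,0), (24514,4,0,2,2,0), (8220,4,0,1,3,0), (832,4,0,0,4,0), (20384,3,5,0,0,0), (66431,3,4,1,0,0), (4997,3,4,0,1,0), (133017,3,3,2,0,0), (150502,3,3,1,1,0), (28787,3,3,0,2,0), (130738,3,2,3,0,0), (255184,3,2,2,1,0), (143562,3,2,1,2,0), (20758,3,2,0,3,0), (52079,3,1,4,0,0), (134248,3,1,3,1,0), (117326,3,1,2,2,0), (39058,3,1,1,3,0), (3687,3,1,0,4,0), (7047,3,0,5,0,0), (22007,3,0,4,1,0), (25329,3,0,3,2,0), (12917,3,0,2,3,0), (2703,3,0,1,4,0), (155,3,0,0,5,0), (81621,2,6,0,0,0), (187059,2,5,1,0,0), (55924,2,5,0,1,0), (200302,2,4,2,0,0), (187760,2,4,1,1,0), (22638,2,4,0,2,0), (174620,2,3,3,0,0), (323925,2,3,2,1,0), (167434,2,3,1,2,0), (19225,2,3,0,3,0), (95428,2,2,4,0,0), (249864,2,2,3,1,0),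 (218309,2,2,2,2,0), (70438,2,2,1,3,0), (5804,2,2,0,4,0), (25995,2,1,5,0,0), (83803,2,1,4,1,0), (98597,2,1,3,2,0), (50688,2,1,2,3,0), (10391,2,1,1,4,0), (523,2,1,0,5,0), (2669,2,0,6,0,0), (10010,2,0,5,1,0), (14468,2,0,4,2,0), (9962,2,0,3,3,0), (3224,2,0,2,4,0), (398,2,0,1,5,0), (9,2,0,0,6,0), (96492,1,7,0,0,0), (217429,1,6,1,0,0), (87415,1,6,0,1,0), (227983,1,5,2,0,0), (207358,1,5,1,1,0), (28182,1,5,0,2,0), (167484,1,4,3,0,0), (281770,1,4,2,1,0), (129356,1,4,1,2,0), (11110,1,4,0,3,0), (93999,1,3,4,0,0), (239500,1,3,3,1,0), (202171,1,3,2,2,0), (61236,1,3,1,3,0), (4028,1,3,0,4,0), (34809,1,2,5,0,0), (114019,1,2,4,1,0), (135245,1,2,3,2,0), (69235,1,2,2,3,0), (13701,1,2,1,4,0), (563,1,2,0,5,0), (7018,1,1,6,0,0), (27120,1,1,5,1,0), (40123,1,1,4,2,0), (28064,1,1,3,3,0), (9118,1,1,2,4,0), (1094,1,1,1,5,0),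 (18,1,1,0,6,0), (568,1,0,7,0,0), (2486,1,0,6,1,0), (4327,1,0,5,2,0), (3763,1,0,4,3,0), (1667,1,0,3,4,0), (331,1,0,2,5,0), (18,1,0,1,6,0), (31901,0,8,0,0,0), (88042,0,7,1,0,0), (40048,0,7,0,1,0), (106852,0,6,2,0,0), (100874,0,6,1,1,0), (17059,0,6,0,2,0), (80454,0,5,3,0,0), (127213,0,5,2,1,0), (55191,0,5,1,2,0), (4580,0,5,0,3,0), (44358,0,4,4,0,0), (106200,0,4,3,1,0), (84458,0,4,2,2,0), (23768,0,4,1,3,0), (1239,0,4,0,4,0), (18237,0,3,5,0,0), (58743,0,3,4,1,0), (68551,0,3,3,2,0), (34355,0,3,2,3,0), (6492,0,3,1,4,0), (204,0,3,0,5,0), (5037,0,2,6,0,0), (19754,0,2,5,1,0), (29550,0,2,4,2,0), (20806,0,2,3,3,0), (6753,0,2,2,4,0), (790,0,2,1,5,0), (9,0,2,0,6,0), (792,0,1,7,0,0), (3562,0,1,6,1,0), (6341,0,1,5,2,0), (5615,0,1,4,3,0), (2521,0,1,3,4,0), (504,0,1,2,5,0), (27,0,1,1,6,0), (52,0,0,8,0,0),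 (260,0,0,7,1,0), (529,0,0,6,2,0), (556,0,0,5,3,0), (314,0,0,4,4,0), (88,0,0,3,5,0), (9,0,0,2,6,0)] + (1387*(w^2*v^2)*(4*v^2-w^2)^2 + 1002*(w^3*v)*(4*v^2-w^2)^2) := by
    subst hM hX hσ hx hw2
    simp only [ev]
    ring
  rw [h]
  have h2 : 0 ≤ 1387*(w^2*v^2)*(4*v^2-w^2)^2 + 1002*(w^3*v)*(4*v^2-w^2)^2 := by positivity
  exact add_nonneg (ev_nonneg hw hv hr hu (le_refl _) _) h2

set_option maxRecDepth 100000 in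
theorem p_E1_0l_b (y v r u x σ X M : ℝ) (hy : 0 ≤ y) (hv : 0 ≤ v) (hr : 0 ≤ r) (hu : 0 ≤ u)
  (hx : x = y+v) (hσ : σ = y+v+r) (hX : X = σ+y+u) (hM : M = X+σ) (hc : y ≤ v) :
    0 ≤ (σ*((σ*(X-y)^2)*(X*(X-y)))-(x-y)*(M-x)^2*((X-x)*(σ*(M+X)+X*y)-(σ*(X-y)^2)))*(9*M^2+16*((σ+y)*X-x*(x-y)))+((σ*((σ*(X-y)^2)*(X*(X-y)))-(x-y)*(M-x)^2*((X-x)*(σ*(M+X)+X*y)-(σ*(X-y)^2)))*x+σ*((σ*(M+X)+X*y)*M*σ*(x-y)*(X-x)))*(24*M-16*σ) := by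
  obtain ⟨w, hw, hw2⟩ : ∃ w, 0 ≤ w ∧ v = w + y := ⟨v - y, by linarith, by ring⟩
  have h : (σ*((σ*(X-y)^2)*(X*(X-y)))-(x-y)*(M-x)^2*((X-x)*(σ*(M+X)+X*y)-(σ*(X-y)^2)))*(9*M^2+16*((σ+y)*X-x*(x-y)))+((σ*((σ*(X-y)^2)*(X*(X-y)))-(x-y)*(M-x)^2*((X-x)*(σ*(M+X)+X*y)-(σ*(X-y)^2)))*x+σ*((σ*(M+X)+X*y)*M*σ*(x-y)*(X-x)))*(24*M-16*σ) = ev y w r u 0 [(31901,8,0,0,0,0), (158716,7,1,0,0,0), (88042,7,0,1,0,0), (40048,7,0,0,1,0), (321597,6,2,0,0,0), (398865,6,1,1,0,0), (192921,6,1,0,1,0), (106852,6,0,2,0,0), (100874,6,0,1,1,0), (17059,6,0,0,2,0), (346586,5,3,0,0,0), (731367,5,2,1,0,0), (372442,5,2,0,1,0), (413129,5,1,2,0,0), (397886,5,1,1,1,0), (74172,5,1,0,2,0), (80454,5,0,3,0,0), (127213,5,0,2,1,0), (55191,5,0,1,2,0), (4580,5,0,0,3,0), (219875,4,4,0,0,0), (688899,4,3,1,0,0), (365078,4,3,0,1,0), (663167,4,2,2,0,0),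 (664080,4,2,1,1,0), (137613,4,2,0,2,0), (234786,4,1,3,0,0), (354295,4,1,2,1,0), (146599,4,1,1,2,0), (11790,4,1,0,3,0), (44358,4,0,4,0,0), (106200,4,0,3,1,0), (84458,4,0,2,2,0), (23768,4,0,1,3,0), (1239,4,0,0,4,0), (84987,3,5,0,0,0), (363904,3,4,1,0,0), (199327,3,4,0,1,0), (525401,3,3,2,0,0), (544438,3,3,1,1,0), (121125,3,3,0,2,0), (309224,3,2,3,0,0), (468975,3,2,2,1,0), (201920,3,2,1,2,0), (20585,3,2,0,3,0), (83433,3,1,4,0,0), (185300,3,1,3,1,0), (135661,3,1,2,2,0), (33836,3,1,1,3,0), (928,3,1,0,4,0), (18237,3,0,5,0,0), (58743,3,0,4,1,0), (68551,3,0,3,2,0), (34355,3,0,2,3,0), (6492,3,0,1,4,0), (204,3,0,0,5,0), (19698,2,6,0,0,0), (109186,2,5,1,0,0), (61611,2,5,0,1,0), (217228,2,4,2,0,0), (231684,2,4,1,1,0), (54137,2,4,0,2,0), (192758,2,3,3,0,0), (298101,2,3,2,1,0), (134514,2,3,1,2,0), (16057,2,3,0,3,0),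 (79579,2,2,4,0,0), (168564,2,2,3,1,0), (118544,2,2,2,2,0), (29338,2,2,1,3,0), (1154,2,2,0,4,0), (19902,2,1,5,0,0), (62210,2,1,4,1,0), (70408,2,1,3,2,0), (33830,2,1,2,3,0), (5775,2,1,1,4,0), (49,2,1,0,5,0), (5037,2,0,6,0,0), (19754,2,0,5,1,0), (29550,2,0,4,2,0), (20806,2,0,3,3,0), (6753,2,0,2,4,0), (790,2,0,1,5,0), (9,2,0,0,6,0), (2516,1,7,0,0,0), (17400,1,6,1,0,0), (10104,1,6,0,1,0), (45048,1,5,2,0,0), (49292,1,5,1,1,0), (11953,1,5,0,2,0), (55552,1,4,3,0,0), (87720,1,4,2,1,0), (41112,1,4,1,2,0), (5389,1,4,0,3,0), (34212,1,3,4,0,0), (71780,1,3,3,1,0), (50611,1,3,2,2,0), (13182,1,3,1,3,0), (793,1,3,0,4,0), (11088,1,2,5,0,0), (31994,1,2,4,1,0), (33760,1,2,3,2,0), (15283,1,2,2,3,0), (2465,1,2,1,4,0), (9,1,2,0,5,0), (3056,1,1,6,0,0), (12388,1,1,5,1,0), (18977,1,1,4,2,0), (13548,1,1,3,3,0),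 (4388,1,1,2,4,0), (486,1,1,1,5,0), (792,1,0,7,0,0), (3562,1,0,6,1,0), (6341,1,0,5,2,0), (5615,1,0,4,3,0), (2521,1,0,3,4,0), (504,1,0,2,5,0), (27,1,0,1,6,0), (136,0,8,0,0,0), (1144,0,7,1,0,0), (684,0,7,0,1,0), (3704,0,6,2,0,0), (4152,0,6,1,1,0), (1038,0,6,0,2,0), (5984,0,5,3,0,0), (9640,0,5,2,1,0), (4658,0,5,1,2,0), (649,0,5,0,3,0), (5148,0,4,4,0,0), (10864,0,4,3,1,0), (7784,0,4,2,2,0), (2132,0,4,1,3,0), (160,0,4,0,4,0), (2376,0,3,5,0,0), (6520,0,3,4,1,0), (6574,0,3,3,2,0), (2891,0,3,2,3,0), (479,0,3,1,4,0), (9,0,3,0,5,0), (688,0,2,6,0,0), (2644,0,2,5,1,0), (3895,0,2,4,2,0), (2704,0,2,3,3,0), (859,0,2,2,4,0), (94,0,2,1,5,0), (224,0,1,7,0,0), (1076,0,1,6,1,0), (2014,0,1,5,2,0), (1852,0,1,4,3,0), (854,0,1,3,4,0), (173,0,1,2,5,0), (9,0,1,1,6,0), (52,0,0,8,0,0), (260,0,0,7,1,0), (529,0,0,6,2,0),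 (556,0,0,5,3,0), (314,0,0,4,4,0), (88,0,0,3,5,0), (9,0,0,2,6,0)] := by
    subst hM hX hσ hx hw2
    simp only [ev]
    ring
  rw [h]
  exact ev_nonneg hy hw hr hu (le_refl _) _

theorem p_E1_0l (y v r u x σ X M : ℝ) (hy : 0 ≤ y) (hv : 0 ≤ v) (hr : 0 ≤ r) (hu : 0 ≤ u)
  (hx : x = y+v) (hσ : σ = y+v+r) (hX : X = σ+y+u) (hM : M = X+σ) :
    0 ≤ (σ*((σ*(X-y)^2)*(X*(X-y)))-(x-y)*(M-x)^2*((X-x)*(σ*(M+X)+X*y)-(σ*(X-y)^2)))*(9*M^2+16*((σ+y)*X-x*(x-y)))+((σ*((σ*(X-y)^2)*(X*(X-y)))-(x-y)*(M-x)^2*((X-x)*(σ*(M+X)+X*y)-(σ*(X-y)^2)))*x+σ*((σ*(M+X)+X*y)*M*σ*(x-y)*(X-x)))*(24*M-16*σ) := by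
  rcases le_total v y with hc | hc
  · exact p_E1_0l_a y v r u x σ X M hy hv hr hu hx hσ hX hM hc
  · exact p_E1_0l_b y v r u x σ X M hy hv hr hu hx hσ hX hM hc

set_option maxRecDepth 100000 in
theorem p_E2_0s (y v r u x σ X M : ℝ) (hy : 0 ≤ y) (hv : 0 ≤ v) (hr : 0 ≤ r) (hu : 0 ≤ u)
  (hx : x = y+v) (hσ : σ = y+v+r) (hX : X = σ+y+u) (hM : M = X+σ) :
    0 ≤ ((σ*(X-y)^2)*(X*(X-y))-2*(X-x)*(((M+X)*(σ*(M+X)+X*y)-(σ*(X-y)^2))*(x-y)-x*(x-y)*(σ*(M+X)+X*y)-(X*(X-y))*(σ*(M+X)+X*y)))*(σ+y)+((σ*(X-y)^2)*(X*(X-y))*x+(σ*(M+X)+X*y)*M*σ*(x-y)*(X-x)-2*(X-x)*(((M+X)*(σ*(M+X)+X*y)-(σ*(X-y)^2))*(x-y)*X-x*(x-y)*(σ*(M+X)+X*y)*(2*X-x)-(X*(X-y))*(σ*(M+X)+X*y)*x)) := by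
  have h : ((σ*(X-y)^2)*(X*(X-y))-2*(X-x)*(((M+X)*(σ*(M+X)+X*y)-(σ*(X-y)^2))*(x-y)-x*(x-y)*(σ*(M+X)+X*y)-(X*(X-y))*(σ*(M+X)+X*y)))*(σ+y)+((σ*(X-y)^2)*(X*(X-y))*x+(σ*(M+X)+X*y)*M*σ*(x-y)*(X-x)-2*(X-x)*(((M+X)*(σ*(M+X)+X*y)-(σ*(X-y)^2))*(x-y)*X-x*(x-y)*(σ*(M+X)+X*y)*(2*X-x)-(X*(X-y))*(σ*(M+X)+X*y)*x)) = ev y v r u 0 [(90,6,0,0,0,0), (140,5,1,0,0,0), (375,5,0,1,0,0), (267,5,0,0,1,0), (72,4,2,0,0,0), (500,4,1,1,0,0), (420,4,1,0,1,0), (637,4,0,2,0,0), (884,4,0,1,1,0), (285,4,0,0,2,0), (30,3,3,0,0,0), (226,3,2,1,0,0), (252,3,2,0,1,0), (690,3,1,2,0,0), (1132,3,1,1,1,0), (423,3,1,0,2,0), (564,3,0,3,0,0), (1144,3,0,2,1,0), (713,3,0,1,2,0), (129,3,0,0,3,0), (27,2,4,0,0,0), (81,2,3,1,0,0), (97,2,3,0,1,0), (251,2,2,2,0,0), (545,2,2,1,1,0), (249,2,2,0,2,0), (457,2,1,3,0,0), (1098,2,1,2,1,0), (791,2,1,1,2,0),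 (162,2,1,0,3,0), (274,2,0,4,0,0), (722,2,0,3,1,0), (653,2,0,2,2,0), (226,2,0,1,3,0), (21,2,0,0,4,0), (13,1,5,0,0,0), (42,1,4,1,0,0), (34,1,4,0,1,0), (69,1,3,2,0,0), (163,1,3,1,1,0), (84,1,3,0,2,0), (115,1,2,3,0,0), (365,1,2,2,1,0), (316,1,2,1,2,0), (73,1,2,0,3,0), (144,1,1,4,0,0), (451,1,1,3,1,0), (471,1,1,2,2,0), (184,1,1,1,3,0), (19,1,1,0,4,0), (69,1,0,5,0,0), (221,1,0,4,1,0), (257,1,0,3,2,0), (127,1,0,2,3,0), (22,1,0,1,4,0), (2,0,6,0,0,0), (9,0,5,1,0,0), (6,0,5,0,1,0), (17,0,4,2,0,0), (31,0,4,1,1,0), (15,0,4,0,2,0), (18,0,3,3,0,0), (61,0,3,2,1,0), (57,0,3,1,2,0), (14,0,3,0,3,0), (18,0,2,4,0,0), (75,0,2,3,1,0), (93,0,2,2,2,0), (40,0,2,1,3,0), (4,0,2,0,4,0), (17,0,1,5,0,0), (65,0,1,4,1,0), (87,0,1,3,2,0), (48,0,1,2,3,0), (9,0,1,1,4,0), (7,0,0,6,0,0), (26,0,0,5,1,0), (36,0,0,4,2,0), (22,0,0,3,3,0),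 (5,0,0,2,4,0)] := by
    subst hM hX hσ hx
    simp only [ev]
    ring
  rw [h]
  exact ev_nonneg hy hv hr hu (le_refl _) _

set_option maxRecDepth 100000 in
theorem p_E2_0l (y v r u x σ X M : ℝ) (hy : 0 ≤ y) (hv : 0 ≤ v) (hr : 0 ≤ r) (hu : 0 ≤ u)
  (hx : x = y+v) (hσ : σ = y+v+r) (hX : X = σ+y+u) (hM : M = X+σ) :
    0 ≤ ((σ*(X-y)^2)*(X*(X-y))-2*(X-x)*(((M+X)*(σ*(M+X)+X*y)-(σ*(X-y)^2))*(x-y)-x*(x-y)*(σ*(M+X)+X*y)-(X*(X-y))*(σ*(M+X)+X*y)))*(9*M^2+16*((σ+y)*X-x*(x-y)))+((σ*(X-y)^2)*(X*(X-y))*x+(σ*(M+X)+X*y)*M*σ*(x-y)*(X-x)-2*(X-x)*(((M+X)*(σ*(M+X)+X*y)-(σ*(X-y)^2))*(x-y)*X-x*(x-y)*(σ*(M+X)+X*y)*(2*X-x)-(X*(X-y))*(σ*(M+X)+X*y)*x))*(24*M-16*σ) := by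
  have h : ((σ*(X-y)^2)*(X*(X-y))-2*(X-x)*(((M+X)*(σ*(M+X)+X*y)-(σ*(X-y)^2))*(x-y)-x*(x-y)*(σ*(M+X)+X*y)-(X*(X-y))*(σ*(M+X)+X*y)))*(9*M^2+16*((σ+y)*X-x*(x-y)))+((σ*(X-y)^2)*(X*(X-y))*x+(σ*(M+X)+X*y)*M*σ*(x-y)*(X-x)-2*(X-x)*(((M+X)*(σ*(M+X)+X*y)-(σ*(X-y)^2))*(x-y)*X-x*(x-y)*(σ*(M+X)+X*y)*(2*X-x)-(X*(X-y))*(σ*(M+X)+X*y)*x))*(24*M-16*σ) = ev y v r u 0 [(6030,7,0,0,0,0), (12889,6,1,0,0,0), (29235,6,0,1,0,0), (21189,6,0,0,1,0), (9886,5,2,0,0,0), (55100,5,1,1,0,0), (44319,5,1,0,1,0), (59994,5,0,2,0,0), (85631,5,0,1,1,0), (29155,5,0,0,2,0), (4056,4,3,0,0,0), (37062,4,2,1,0,0), (35715,4,2,0,1,0), (96454,4,1,2,0,0), (152716,4,1,1,1,0), (57067,4,1,0,2,0), (67606,4,0,3,0,0), (142701,4,0,2,1,0), (95599,4,0,1,2,0), (19894,4,0,0,3,0), (2402,3,4,0,0,0), (13194,3,3,1,0,0), (15849,3,3,0,1,0), (54020,3,2,2,0,0),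 (102503,3,2,1,1,0), (43969,3,2,0,2,0), (88524,3,1,3,0,0), (207263,3,1,2,1,0), (152262,3,1,1,2,0), (34434,3,1,0,3,0), (45216,3,0,4,0,0), (125643,3,0,3,1,0), (124489,3,0,2,2,0), (51018,3,0,1,3,0), (6992,3,0,0,4,0), (1681,2,5,0,0,0), (5609,2,4,1,0,0), (5796,2,4,0,1,0), (15382,2,3,2,0,0), (36592,2,3,1,1,0), (18264,2,3,0,2,0), (38220,2,2,3,0,0), (107470,2,2,2,1,0), (90418,2,2,1,2,0), (22709,2,2,0,3,0), (44949,2,1,4,0,0), (138668,2,1,3,1,0), (150728,2,1,2,2,0), (67202,2,1,1,3,0), (9999,2,1,0,4,0), (17959,2,0,5,0,0), (61674,2,0,4,1,0), (80480,2,0,3,2,0), (48841,2,0,2,3,0), (13233,2,0,1,4,0), (1157,2,0,0,5,0), (572,1,6,0,0,0), (2408,1,5,1,0,0), (1834,1,5,0,1,0), (4332,1,4,2,0,0), (9426,1,4,1,1,0), (4786,1,4,0,2,0), (7568,1,3,3,0,0), (26860,1,3,2,1,0), (26098,1,3,1,2,0), (7245,1,3,0,3,0), (13124,1,2,4,0,0),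 (48928,1,2,3,1,0), (61000,1,2,2,2,0), (30231,1,2,1,3,0), (4913,1,2,0,4,0), (11976,1,1,5,0,0), (45762,1,1,4,1,0), (65620,1,1,3,2,0), (43411,1,1,2,3,0), (12814,1,1,1,4,0), (1247,1,1,0,5,0), (3924,1,0,6,0,0), (16006,1,0,5,1,0), (25820,1,0,4,2,0), (20655,1,0,3,3,0), (8317,1,0,2,4,0), (1463,1,0,1,5,0), (63,1,0,0,6,0), (68,0,7,0,0,0), (396,0,6,1,0,0), (268,0,6,0,1,0), (884,0,5,2,0,0), (1472,0,5,1,1,0), (657,0,5,0,2,0), (1076,0,4,3,0,0), (3604,0,4,2,1,0), (3561,0,4,1,2,0), (1024,0,4,0,3,0), (1324,0,3,4,0,0), (6328,0,3,3,1,0), (9110,0,3,2,2,0), (4980,0,3,1,3,0), (874,0,3,0,4,0), (1748,0,2,5,0,0), (8172,0,2,4,1,0), (13516,0,2,3,2,0), (9974,0,2,2,3,0), (3226,0,2,1,4,0), (344,0,2,0,5,0), (1308,0,1,6,0,0), (5960,0,1,5,1,0), (10597,0,1,4,2,0), (9268,0,1,3,3,0), (4080,0,1,2,4,0), (802,0,1,1,5,0), (45,0,1,0,6,0),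 (364,0,0,7,0,0), (1716,0,0,6,1,0), (3287,0,0,5,2,0), (3250,0,0,4,3,0), (1728,0,0,3,4,0), (458,0,0,2,5,0), (45,0,0,1,6,0)] := by
    subst hM hX hσ hx
    simp only [ev]
    ring
  rw [h]
  exact ev_nonneg hy hv hr hu (le_refl _) _

set_option maxRecDepth 100000 in
theorem p_E3_0s (y v r u x σ X M : ℝ) (hy : 0 ≤ y) (hv : 0 ≤ v) (hr : 0 ≤ r) (hu : 0 ≤ u)
  (hx : x = y+v) (hσ : σ = y+v+r) (hX : X = σ+y+u) (hM : M = X+σ) :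
    0 ≤ (σ*((σ*(X-y)^2)*(X*(X-y)))-(x-y)*(M-x)^2*((X-x)*(σ*(M+X)+X*y)-(σ*(X-y)^2))-2*σ*(X-x)*(((M+X)*(σ*(M+X)+X*y)-(σ*(X-y)^2))*(x-y)-x*(x-y)*(σ*(M+X)+X*y)-(X*(X-y))*(σ*(M+X)+X*y)))*(σ+y)+(σ*((σ*(X-y)^2)*(X*(X-y))*x+(σ*(M+X)+X*y)*M*σ*(x-y)*(X-x))-(x-y)*(M-x)^2*((X-x)*(σ*(M+X)+X*y)-(σ*(X-y)^2))*x-2*σ*(X-x)*(((M+X)*(σ*(M+X)+X*y)-(σ*(X-y)^2))*(x-y)*X-x*(x-y)*(σ*(M+X)+X*y)*(2*X-x)-(X*(X-y))*(σ*(M+X)+X*y)*x)) := by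
  have h : (σ*((σ*(X-y)^2)*(X*(X-y)))-(x-y)*(M-x)^2*((X-x)*(σ*(M+X)+X*y)-(σ*(X-y)^2))-2*σ*(X-x)*(((M+X)*(σ*(M+X)+X*y)-(σ*(X-y)^2))*(x-y)-x*(x-y)*(σ*(M+X)+X*y)-(X*(X-y))*(σ*(M+X)+X*y)))*(σ+y)+(σ*((σ*(X-y)^2)*(X*(X-y))*x+(σ*(M+X)+X*y)*M*σ*(x-y)*(X-x))-(x-y)*(M-x)^2*((X-x)*(σ*(M+X)+X*y)-(σ*(X-y)^2))*x-2*σ*(X-x)*(((M+X)*(σ*(M+X)+X*y)-(σ*(X-y)^2))*(x-y)*X-x*(x-y)*(σ*(M+X)+X*y)*(2*X-x)-(X*(X-y))*(σ*(M+X)+X*y)*x)) = ev y v r u 0 [(90,7,0,0,0,0), (32,6,1,0,0,0), (465,6,0,1,0,0), (267,6,0,0,1,0), (15,5,2,0,0,0), (691,5,1,1,0,0), (519,5,1,0,1,0), (1012,5,0,2,0,0), (1151,5,0,1,1,0), (285,5,0,0,2,0), (70,4,2,1,0,0), (272,4,2,0,1,0), (771,4,1,2,0,0), (1840,4,1,1,1,0), (570,4,1,0,2,0), (1201,4,0,3,0,0), (2028,4,0,2,1,0), (998,4,0,1,2,0), (129,4,0,0,3,0), (1,3,4,0,0,0), (1,3,3,0,1,0), (90,3,2,2,0,0),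 (783,3,2,1,1,0), (394,3,2,0,2,0), (671,3,1,3,0,0), (2558,3,1,2,1,0), (1566,3,1,1,2,0), (243,3,1,0,3,0), (838,3,0,4,0,0), (1866,3,0,3,1,0), (1366,3,0,2,2,0), (355,3,0,1,3,0), (21,3,0,0,4,0), (5,2,5,0,0,0), (1,2,4,1,0,0), (6,2,4,0,1,0), (5,2,3,2,0,0), (53,2,3,1,1,0), (137,2,3,0,2,0), (51,2,2,3,0,0), (820,2,2,2,1,0), (805,2,2,1,2,0), (158,2,2,0,3,0), (363,2,1,4,0,0), (1735,2,1,3,1,0), (1579,2,1,2,2,0), (490,2,1,1,3,0), (34,2,1,0,4,0), (343,2,0,5,0,0), (943,2,0,4,1,0), (910,2,0,3,2,0), (353,2,0,2,3,0), (43,2,0,1,4,0), (20,1,6,0,0,0), (48,1,5,1,0,0), (29,1,5,0,1,0), (16,1,4,2,0,0), (49,1,4,1,1,0), (45,1,4,0,2,0), (7,1,3,3,0,0), (66,1,3,2,1,0), (196,1,3,1,2,0), (48,1,3,0,3,0), (9,1,2,4,0,0), (365,1,2,3,1,0), (534,1,2,2,2,0), (208,1,2,1,3,0), (16,1,2,0,4,0), (154,1,1,5,0,0), (569,1,1,4,1,0),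 (684,1,1,3,2,0), (316,1,1,2,3,0), (45,1,1,1,4,0), (76,1,0,6,0,0), (247,1,0,5,1,0), (293,1,0,4,2,0), (149,1,0,3,3,0), (27,1,0,2,4,0), (4,0,7,0,0,0), (20,0,6,1,0,0), (8,0,6,0,1,0), (9,0,5,2,0,0), (30,0,5,1,1,0), (11,0,5,0,2,0), (7,0,4,3,0,0), (30,0,4,2,1,0), (36,0,4,1,2,0), (8,0,4,0,3,0), (19,0,3,3,1,0), (67,0,3,2,2,0), (31,0,3,1,3,0), (2,0,3,0,4,0), (1,0,2,5,0,0), (56,0,2,4,1,0), (111,0,2,3,2,0), (64,0,2,2,3,0), (10,0,2,1,4,0), (7,0,1,6,0,0), (71,0,1,5,1,0), (105,0,1,4,2,0), (63,0,1,3,3,0), (13,0,1,2,4,0), (6,0,0,7,0,0), (26,0,0,6,1,0), (36,0,0,5,2,0), (22,0,0,4,3,0), (5,0,0,3,4,0)] + (30*(y*v*r)*(v^2-4*y*r)^2 + 29*(y^2*v)*(v^2-4*y*r)^2 + 14*(v*r^2)*(v^2-4*y*r)^2 + 14*(y^2*v)*(v^2-3*y^2)^2 + 9*(v*r^2)*(r^2-v^2)^2 + 5*(y*v^2)*(v^2-y^2)^2 + 1*(y*v^2)*(v^2-y*r)^2 + 1*(r^3)*(r^2-v^2)^2) :=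 by
    subst hM hX hσ hx
    simp only [ev]
    ring
  rw [h]
  have h2 : 0 ≤ 30*(y*v*r)*(v^2-4*y*r)^2 + 29*(y^2*v)*(v^2-4*y*r)^2 + 14*(v*r^2)*(v^2-4*y*r)^2 + 14*(y^2*v)*(v^2-3*y^2)^2 + 9*(v*r^2)*(r^2-v^2)^2 + 5*(y*v^2)*(v^2-y^2)^2 + 1*(y*v^2)*(v^2-y*r)^2 + 1*(r^3)*(r^2-v^2)^2 := by positivity
  exact add_nonneg (ev_nonneg hy hv hr hu (le_refl _) _) h2

set_option maxRecDepth 100000 in
theorem p_E3_0l (y v r u x σ X M : ℝ) (hy : 0 ≤ y) (hv : 0 ≤ v) (hr : 0 ≤ r) (hu : 0 ≤ u)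
  (hx : x = y+v) (hσ : σ = y+v+r) (hX : X = σ+y+u) (hM : M = X+σ) :
    0 ≤ (σ*((σ*(X-y)^2)*(X*(X-y)))-(x-y)*(M-x)^2*((X-x)*(σ*(M+X)+X*y)-(σ*(X-y)^2))-2*σ*(X-x)*(((M+X)*(σ*(M+X)+X*y)-(σ*(X-y)^2))*(x-y)-x*(x-y)*(σ*(M+X)+X*y)-(X*(X-y))*(σ*(M+X)+X*y)))*(9*M^2+16*((σ+y)*X-x*(x-y)))+(σ*((σ*(X-y)^2)*(X*(X-y))*x+(σ*(M+X)+X*y)*M*σ*(x-y)*(X-x))-(x-y)*(M-x)^2*((X-x)*(σ*(M+X)+X*y)-(σ*(X-y)^2))*x-2*σ*(X-x)*(((M+X)*(σ*(M+X)+X*y)-(σ*(X-y)^2))*(x-y)*X-x*(x-y)*(σ*(M+X)+X*y)*(2*X-x)-(X*(X-y))*(σ*(M+X)+X*y)*x))*(24*M-16*σ) := by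
  have h : (σ*((σ*(X-y)^2)*(X*(X-y)))-(x-y)*(M-x)^2*((X-x)*(σ*(M+X)+X*y)-(σ*(X-y)^2))-2*σ*(X-x)*(((M+X)*(σ*(M+X)+X*y)-(σ*(X-y)^2))*(x-y)-x*(x-y)*(σ*(M+X)+X*y)-(X*(X-y))*(σ*(M+X)+X*y)))*(9*M^2+16*((σ+y)*X-x*(x-y)))+(σ*((σ*(X-y)^2)*(X*(X-y))*x+(σ*(M+X)+X*y)*M*σ*(x-y)*(X-x))-(x-y)*(M-x)^2*((X-x)*(σ*(M+X)+X*y)-(σ*(X-y)^2))*x-2*σ*(X-x)*(((M+X)*(σ*(M+X)+X*y)-(σ*(X-y)^2))*(x-y)*X-x*(x-y)*(σ*(M+X)+X*y)*(2*X-x)-(X*(X-y))*(σ*(M+X)+X*y)*x))*(24*M-16*σ) = ev y v r u 0 [(6030,8,0,0,0,0), (1868,7,1,0,0,0), (35265,7,0,1,0,0), (21189,7,0,0,1,0), (7271,6,2,0,0,0), (72228,6,1,1,0,0), (51612,6,1,0,1,0), (51517,6,0,2,0,0), (106820,6,0,1,1,0), (29155,6,0,0,2,0), (14162,5,2,1,0,0), (37010,5,2,0,1,0), (156936,5,1,2,0,0), (222814,5,1,1,1,0), (70600,5,1,0,2,0), (127600,5,0,3,0,0), (228332,5,0,2,1,0), (124754,5,0,1,2,0),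 (19894,5,0,0,3,0), (2,4,4,0,0,0), (7,4,3,1,0,0), (6932,4,3,0,1,0), (59388,4,2,2,0,0), (145888,4,2,1,1,0), (62102,4,2,0,2,0), (135284,4,1,3,0,0), (397196,4,1,2,1,0), (250827,4,1,1,2,0), (45548,4,1,0,3,0), (112822,4,0,4,0,0), (268344,4,0,3,1,0), (220088,4,0,2,2,0), (70912,4,0,1,3,0), (6992,4,0,0,4,0), (1001,3,5,0,0,0), (4,3,4,1,0,0), (2,3,4,0,1,0), (7,3,3,2,0,0), (25090,3,3,1,1,0), (25867,3,3,0,2,0), (33140,3,2,3,0,0), (210994,3,2,2,1,0), (178020,3,2,1,2,0), (39044,3,2,0,3,0), (96621,3,1,4,0,0), (374210,3,1,3,1,0), (354034,3,1,2,2,0), (129406,3,1,1,3,0), (14415,3,1,0,4,0), (63175,3,0,5,0,0), (187317,3,0,4,1,0), (204969,3,0,3,2,0), (99859,3,0,2,3,0), (20225,3,0,1,4,0), (1157,3,0,0,5,0), (937,2,6,0,0,0), (2581,2,5,1,0,0), (2875,2,5,0,1,0), (4,2,4,2,0,0), (1588,2,4,1,1,0), (7836,2,4,0,2,0),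 (4,2,3,3,0,0), (31979,2,3,2,1,0), (58562,2,3,1,2,0), (16783,2,3,0,3,0), (20001,2,2,4,0,0), (151102,2,2,3,1,0), (190833,2,2,2,2,0), (84024,2,2,1,3,0), (10799,2,2,0,4,0), (43068,2,1,5,0,0), (196444,2,1,4,1,0), (247950,2,1,3,2,0), (136889,2,1,2,3,0), (31240,2,1,1,4,0), (2040,2,1,0,5,0), (21883,2,0,6,0,0), (77680,2,0,5,1,0), (106300,2,0,4,2,0), (69496,2,0,3,3,0), (21550,2,0,2,4,0), (2620,2,0,1,5,0), (63,2,0,0,6,0), (401,1,7,0,0,0), (1508,1,6,1,0,0), (2099,1,6,0,1,0), (2620,1,5,2,0,0), (6140,1,5,1,1,0), (2937,1,5,0,2,0), (4376,1,4,2,1,0), (13408,1,4,1,2,0), (4410,1,4,0,3,0), (4,1,3,4,0,0), (17344,1,3,3,1,0), (44165,1,3,2,2,0), (24962,1,3,1,3,0), (3721,1,3,0,4,0), (8336,1,2,5,0,0), (53502,1,2,4,1,0), (90464,1,2,3,2,0), (60176,1,2,2,3,0), (15844,1,2,1,4,0), (1194,1,2,0,5,0), (12872,1,1,6,0,0),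 (54448,1,1,5,1,0), (86077,1,1,4,2,0), (63806,1,1,3,3,0), (22296,1,1,2,4,0), (3100,1,1,1,5,0), (90,1,1,0,6,0), (4288,1,0,7,0,0), (17722,1,0,6,1,0), (29107,1,0,5,2,0), (23905,1,0,4,3,0), (10045,1,0,3,4,0), (1921,1,0,2,5,0), (108,1,0,1,6,0), (136,0,8,0,0,0), (872,0,7,1,0,0), (412,0,7,0,1,0), (899,0,6,2,0,0), (1960,0,6,1,1,0), (606,0,6,0,2,0), (248,0,5,3,0,0), (2896,0,5,2,1,0), (2574,0,5,1,2,0), (677,0,5,0,3,0), (1776,0,4,3,1,0), (5608,0,4,2,2,0), (3484,0,4,1,3,0), (560,0,4,0,4,0), (4,0,3,5,0,0), (3400,0,3,4,1,0), (11052,0,3,3,2,0), (9309,0,3,2,3,0), (2827,0,3,1,4,0), (241,0,3,0,5,0), (522,0,2,6,0,0), (7476,0,2,5,1,0), (15961,0,2,4,2,0), (14290,0,2,3,3,0), (5769,0,2,2,4,0), (928,0,2,1,5,0), (36,0,2,0,6,0), (563,0,1,7,0,0), (6220,0,1,6,1,0), (11836,0,1,5,2,0), (11038,0,1,4,3,0), (5230,0,1,3,4,0),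 (1145,0,1,2,5,0), (81,0,1,1,6,0), (364,0,0,8,0,0), (1716,0,0,7,1,0), (3287,0,0,6,2,0), (3250,0,0,5,3,0), (1728,0,0,4,4,0), (458,0,0,3,5,0), (45,0,0,2,6,0)] + (3257*(y^2*v*r)*(v^2-4*y*r)^2 + 2357*(y^2)*(v^3-4*y^2*r)^2 + 2260*(y*v*r^2)*(v^2-4*y*r)^2 + 2030*(y*v^2*r)*(v^2-3*y^2)^2 + 1494*(y*v^2*r)*(v^2-4*y*r)^2 + 796*(v*r^3)*(v^2-4*y*r)^2 + 1358*(y^3*v)*(v^2-2*y^2)^2 + 639*(v^2*r^2)*(v^2-4*y*r)^2 + 755*(y*v)*(v^3-3*y^3)^2 + 185*(y*v^2*u)*(v^2-4*y^2)^2 + 77*(v*r^3)*(3*r^2-2*v^2)^2 + 406*(v^2*r^2)*(r^2-v^2)^2) := by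
    subst hM hX hσ hx
    simp only [ev]
    ring
  rw [h]
  have h2 : 0 ≤ 3257*(y^2*v*r)*(v^2-4*y*r)^2 + 2357*(y^2)*(v^3-4*y^2*r)^2 + 2260*(y*v*r^2)*(v^2-4*y*r)^2 + 2030*(y*v^2*r)*(v^2-3*y^2)^2 + 1494*(y*v^2*r)*(v^2-4*y*r)^2 + 796*(v*r^3)*(v^2-4*y*r)^2 + 1358*(y^3*v)*(v^2-2*y^2)^2 + 639*(v^2*r^2)*(v^2-4*y*r)^2 + 755*(y*v)*(v^3-3*y^3)^2 + 185*(y*v^2*u)*(v^2-4*y^2)^2 + 77*(v*r^3)*(3*r^2-2*v^2)^2 + 406*(v^2*r^2)*(r^2-v^2)^2 := by positivity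
  exact add_nonneg (ev_nonneg hy hv hr hu (le_refl _) _) h2

set_option maxRecDepth 100000 in
theorem p_E1_cs (y v r a b u x σ X M : ℝ) (hy : 0 ≤ y) (hv : 0 ≤ v) (hr : 0 ≤ r) (ha : 0 ≤ a) (hb : 0 ≤ b)
  (hab : b = 1 - a) (hu : u = a*(y+3*v+3*r)/2)
  (hx : x = y+v) (hσ : σ = y+v+r) (hX : X = σ+y+u) (hM : M = X+σ) :
    0 ≤ (σ*((23*M)*(X*(X-y)))-(x-y)*(M-x)^2*((X-x)*100-(23*M)))*(σ+y)+((σ*((23*M)*(X*(X-y)))-(x-y)*(M-x)^2*((X-x)*100-(23*M)))*x+σ*(100*M*σ*(x-y)*(X-x))) := by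
  have h : (σ*((23*M)*(X*(X-y)))-(x-y)*(M-x)^2*((X-x)*100-(23*M)))*(σ+y)+((σ*((23*M)*(X*(X-y)))-(x-y)*(M-x)^2*((X-x)*100-(23*M)))*x+σ*(100*M*σ*(x-y)*(X-x))) = (1/8) * ev y v r a b [(7245,5,0,0,3,0), (16836,5,0,0,2,1), (12972,5,0,0,1,2), (3312,5,0,0,0,3), (32415,4,1,0,3,0), (70874,4,1,0,2,1), (51084,4,1,0,1,2), (12120,4,1,0,0,3), (36225,4,0,1,3,0), (75992,4,0,1,2,1), (52072,4,0,1,1,2), (11592,4,0,1,0,3), (59075,3,2,0,3,0), (133812,3,2,0,2,1), (100440,3,2,0,1,2), (24992,3,2,0,0,3), (111240,3,1,1,3,0), (221462,3,1,1,2,1), (145172,3,1,1,1,2), (31448,3,1,1,0,3), (69230,3,0,2,3,0), (130272,3,0,2,2,1), (79396,3,0,2,1,2), (15640,3,0,2,0,3), (55185,2,3,0,3,0), (139026,2,3,0,2,1), (106000,2,3,0,1,2), (24400,2,3,0,0,3), (129745,2,2,1,3,0), (292008,2,2,1,2,1), (212812,2,2,1,1,2), (49784,2,2,1,0,3),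 (131462,2,1,2,3,0), (239978,2,1,2,2,1), (145428,2,1,2,1,2), (29352,2,1,2,0,3), (62790,2,0,3,3,0), (105432,2,0,3,2,1), (57316,2,0,3,1,2), (10120,2,0,3,0,3), (26580,1,4,0,3,0), (75932,1,4,0,2,1), (53608,1,4,0,1,2), (10304,1,4,0,0,3), (70670,1,3,1,3,0), (204354,1,3,1,2,1), (154500,1,3,1,1,2), (33776,1,3,1,0,3), (80945,1,2,2,3,0), (194892,1,2,2,2,1), (140676,1,2,2,1,2), (31400,1,2,2,0,3), (65576,1,1,3,3,0), (111666,1,1,3,2,1), (63540,1,1,3,1,2), (12104,1,1,3,0,3), (26565,1,0,4,3,0), (39836,1,0,4,2,1), (19504,1,0,4,1,2), (3128,1,0,4,0,3), (5300,0,5,0,3,0), (16680,0,5,0,2,1), (9936,0,5,0,1,2), (1472,0,5,0,0,3), (15940,0,4,1,3,0), (57816,0,4,1,2,1), (40272,0,4,1,1,2), (7360,0,4,1,0,3), (18713,0,3,2,3,0), (69252,0,3,2,2,1), (52980,0,3,2,1,2), (11216,0,3,2,0,3), (17787,0,2,3,3,0), (42840,0,2,3,2,1),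 (29592,0,2,3,1,2), (6240,0,2,3,0,3), (14539,0,1,4,3,0), (22644,0,1,4,2,1), (11832,0,1,4,1,2), (2080,0,1,4,0,3), (4025,0,0,5,3,0), (5520,0,0,5,2,1), (2484,0,0,5,1,2), (368,0,0,5,0,3)] := by
    subst hM hX hσ hx hu hab
    simp only [ev]
    ring
  rw [h]
  have h1 := ev_nonneg hy hv hr ha hb
  exact mul_nonneg (by norm_num) (h1 _)

set_option maxRecDepth 100000 in
theorem p_E1_cl (y v r a b u x σ X M : ℝ) (hy : 0 ≤ y) (hv : 0 ≤ v) (hr : 0 ≤ r) (ha : 0 ≤ a) (hb : 0 ≤ b)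
  (hab : b = 1 - a) (hu : u = a*(y+3*v+3*r)/2)
  (hx : x = y+v) (hσ : σ = y+v+r) (hX : X = σ+y+u) (hM : M = X+σ) :
    0 ≤ (σ*((23*M)*(X*(X-y)))-(x-y)*(M-x)^2*((X-x)*100-(23*M)))*(9*M^2+16*((σ+y)*X-x*(x-y)))+((σ*((23*M)*(X*(X-y)))-(x-y)*(M-x)^2*((X-x)*100-(23*M)))*x+σ*(100*M*σ*(x-y)*(X-x)))*(24*M-16*σ) := by
  have h : (σ*((23*M)*(X*(X-y)))-(x-y)*(M-x)^2*((X-x)*100-(23*M)))*(9*M^2+16*((σ+y)*X-x*(x-y)))+((σ*((23*M)*(X*(X-y)))-(x-y)*(M-x)^2*((X-x)*100-(23*M)))*x+σ*(100*M*σ*(x-y)*(X-x)))*(24*M-16*σ) = (1/32) * ev y v r a b [(2494695,6,0,0,5,0), (10211816,6,0,0,4,1), (16667088,6,0,0,3,2), (13556752,6,0,0,2,3), (5494608,6,0,0,1,4), (887616,6,0,0,0,5), (13643065,5,1,0,5,0), (53117574,5,1,0,4,1), (82162392,5,1,0,3,2), (63081984,5,1,0,2,3), (24025040,5,1,0,1,4), (3628320,5,1,0,0,5), (15588020,5,0,1,5,0),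 (59792088,5,0,1,4,1), (90869596,5,0,1,3,2), (68311288,5,0,1,2,3), (25360720,5,0,1,1,4), (3711648,5,0,1,0,5), (31212660,4,2,0,5,0), (119811880,4,2,0,4,1), (183401888,4,2,0,3,2), (140024192,4,2,0,2,3), (53358368,4,2,0,1,4), (8125504,4,2,0,0,5), (64639035,4,1,1,5,0), (235265140,4,1,1,4,1), (338834508,4,1,1,3,2), (241332128,4,1,1,2,3), (85015872,4,1,1,1,4), (11859072,4,1,1,0,5), (39824155,4,0,2,5,0), (142563384,4,0,2,4,1), (201075476,4,0,2,3,2), (139456912,4,0,2,2,3), (47479360,4,0,2,1,4), (6336960,4,0,2,0,5), (38313890,3,3,0,5,0), (150950916,3,3,0,4,1), (234843592,3,3,0,3,2), (179672688,3,3,0,2,3), (67263680,3,3,0,1,4), (9785408,3,3,0,0,5), (105970340,3,2,1,5,0), (387649560,3,2,1,4,1), (565174536,3,2,1,3,2), (410336160,3,2,1,2,3), (148176368,3,2,1,1,4), (21236704,3,2,1,0,5), (118101062,3,1,2,5,0),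 (400464932,3,1,2,4,1), (536179404,3,1,2,3,2), (354672248,3,1,2,2,3), (116088848,3,1,2,1,4), (15070944,3,1,2,0,5), (53310320,3,0,3,5,0), (177303504,3,0,3,4,1), (231284504,3,0,3,3,2), (147770032,3,0,3,2,3), (46210864,3,0,3,1,4), (5657632,3,0,3,0,5), (26675935,2,4,0,5,0), (111979968,2,4,0,4,1), (176863960,2,4,0,3,2), (131714992,2,4,0,2,3), (46176288,2,4,0,1,4), (6068608,2,4,0,0,5), (85957010,2,3,1,5,0), (343227904,2,3,1,4,1), (531012560,2,3,1,3,2), (396809936,2,3,1,2,3), (142835632,2,3,1,1,4), (19769792,2,3,1,0,5), (123257520,2,2,2,5,0), (435242032,2,2,2,4,1), (612214652,2,2,2,3,2), (427462848,2,2,2,2,3), (147602272,2,2,2,1,4), (20092544,2,2,2,0,5), (104041418,2,1,3,5,0), (327842888,2,1,3,4,1), (408086812,2,1,3,3,2), (251448656,2,1,3,2,3), (76892672,2,1,3,1,4), (9357568,2,1,3,0,5), (39445805,2,0,4,5,0),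 (121273848,2,0,4,4,1), (145834168,2,0,4,3,2), (85778960,2,0,4,2,3), (24702000,2,0,4,1,4), (2789440,2,0,4,0,5), (10013685,1,5,0,5,0), (46037734,1,5,0,4,1), (71995264,1,5,0,3,2), (50080368,1,5,0,2,3), (15769216,1,5,0,1,4), (1806592,1,5,0,0,5), (34619040,1,4,1,5,0), (165607248,1,4,1,4,1), (270503916,1,4,1,3,2), (198637128,1,4,1,2,3), (67095552,1,4,1,1,4), (8426112,1,4,1,0,5), (51508474,1,3,2,5,0), (231049044,1,3,2,4,1), (372694076,1,3,2,3,2), (277909960,1,3,2,2,3), (97365504,1,3,2,1,4), (12951680,1,3,2,0,5), (55625860,1,2,3,5,0), (196219944,1,2,3,4,1), (273206144,1,2,3,3,2), (186561808,1,2,3,2,3), (62299776,1,2,3,1,4), (8131328,1,2,3,0,5), (44466065,1,1,4,5,0), (130122198,1,1,4,4,1), (150934588,1,1,4,3,2), (87021560,1,1,4,2,3), (25002240,1,1,4,1,4), (2869120,1,1,4,0,5), (15285340,1,0,5,5,0),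 (43201176,1,0,5,4,1), (47771276,1,0,5,3,2), (25888984,1,0,5,2,3), (6888960,1,0,5,1,4), (721280,1,0,5,0,5), (1587350,0,6,0,5,0), (8102560,0,6,0,4,1), (12068312,0,6,0,3,2), (7539104,0,6,0,2,3), (2068096,0,6,0,1,4), (200192,0,6,0,0,5), (5581355,0,5,1,5,0), (34555852,0,5,1,4,1), (56700980,0,5,1,3,2), (38692976,0,5,1,2,3), (11714752,0,5,1,1,4), (1288448,0,5,1,0,5), (6527861,0,4,2,5,0), (53708560,0,4,2,4,1), (97480568,0,4,2,3,2), (72060704,0,4,2,2,3), (23701120,0,4,2,1,4), (2869760,0,4,2,0,5), (4894762,0,3,3,5,0), (42171056,0,3,3,4,1), (79334884,0,3,3,3,2), (61219696,0,3,3,2,3), (21226688,0,3,3,1,4), (2743552,0,3,3,0,5), (7420420,0,2,4,5,0), (28880744,0,2,4,4,1), (41795164,0,2,4,3,2), (28611568,0,2,4,2,3), (9375296,0,2,4,1,4), (1186048,0,2,4,0,5), (7529739,0,1,5,5,0), (20468676,0,1,5,4,1), (22168824,0,1,5,3,2),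 (11988384,0,1,5,2,3), (3243648,0,1,5,1,4), (351744,0,1,5,0,5), (2419025,0,0,6,5,0), (6247720,0,0,6,4,1), (6348644,0,0,6,3,2), (3177680,0,0,6,2,3), (784576,0,0,6,1,4), (76544,0,0,6,0,5)] := by
    subst hM hX hσ hx hu hab
    simp only [ev]
    ring
  rw [h]
  have h1 := ev_nonneg hy hv hr ha hb
  exact mul_nonneg (by norm_num) (h1 _)

set_option maxRecDepth 100000 in
theorem p_E2_cs (y v r a b u x σ X M : ℝ) (hy : 0 ≤ y) (hv : 0 ≤ v) (hr : 0 ≤ r) (ha : 0 ≤ a) (hb : 0 ≤ b)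
  (hab : b = 1 - a) (hu : u = a*(y+3*v+3*r)/2)
  (hx : x = y+v) (hσ : σ = y+v+r) (hX : X = σ+y+u) (hM : M = X+σ) :
    0 ≤ ((23*M)*(X*(X-y))-2*(X-x)*(((M+X)*100-(23*M))*(x-y)-x*(x-y)*100-(X*(X-y))*100))*(σ+y)+((23*M)*(X*(X-y))*x+100*M*σ*(x-y)*(X-x)-2*(X-x)*(((M+X)*100-(23*M))*(x-y)*X-x*(x-y)*100*(2*X-x)-(X*(X-y))*100*x)) := by
  have h : ((23*M)*(X*(X-y))-2*(X-x)*(((M+X)*100-(23*M))*(x-y)-x*(x-y)*100-(X*(X-y))*100))*(σ+y)+((23*M)*(X*(X-y))*x+100*M*σ*(x-y)*(X-x)-2*(X-x)*(((M+X)*100-(23*M))*(x-y)*X-x*(x-y)*100*(2*X-x)-(X*(X-y))*100*x)) = (1/8) * ev y v r a b [(34245,4,0,0,3,0), (74436,4,0,0,2,1), (53772,4,0,0,1,2), (12912,4,0,0,0,3), (110889,3,1,0,3,0), (186344,3,1,0,2,1), (94568,3,1,0,1,2), (13000,3,1,0,0,3), (154980,3,0,1,3,0), (293156,3,0,1,2,1), (179900,3,0,1,1,2), (35480,3,0,1,0,3),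 (129655,2,2,0,3,0), (165004,2,2,0,2,1), (63544,2,2,0,1,2), (9304,2,2,0,0,3), (342901,2,1,1,3,0), (478436,2,1,1,2,1), (197976,2,1,1,1,2), (23480,2,1,1,0,3), (244250,2,0,2,3,0), (394716,2,0,2,2,1), (205096,2,0,2,1,2), (34560,2,0,2,0,3), (63623,1,3,0,3,0), (65264,1,3,0,2,1), (26476,1,3,0,1,2), (4288,1,3,0,0,3), (230890,1,2,1,3,0), (236052,1,2,1,2,1), (81228,1,2,1,1,2), (10888,1,2,1,0,3), (309407,1,1,2,3,0), (350304,1,1,2,2,1), (122172,1,1,2,1,2), (12560,1,1,2,0,3), (152540,1,0,3,3,0), (208316,1,0,3,2,1), (93820,1,0,3,1,2), (13960,1,0,3,0,3), (10612,0,4,0,3,0), (12168,0,4,0,2,1), (4776,0,4,0,1,2), (736,0,4,0,0,3), (42969,0,3,1,3,0), (44484,0,3,1,2,1), (17436,0,3,1,1,2), (2448,0,3,1,0,3), (74327,0,2,2,3,0), (68784,0,2,2,2,1), (23028,0,2,2,1,2), (3056,0,2,2,0,3), (69395,0,1,3,3,0), (67188,0,1,3,2,1),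 (20052,0,1,3,1,2), (1712,0,1,3,0,3), (29025,0,0,4,3,0), (35520,0,0,4,2,1), (14484,0,0,4,1,2), (1968,0,0,4,0,3)] := by
    subst hM hX hσ hx hu hab
    simp only [ev]
    ring
  rw [h]
  have h1 := ev_nonneg hy hv hr ha hb
  exact mul_nonneg (by norm_num) (h1 _)

set_option maxRecDepth 100000 in
theorem p_E2_cl (y v r a b u x σ X M : ℝ) (hy : 0 ≤ y) (hv : 0 ≤ v) (hr : 0 ≤ r) (ha : 0 ≤ a) (hb : 0 ≤ b)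
  (hab : b = 1 - a) (hu : u = a*(y+3*v+3*r)/2)
  (hx : x = y+v) (hσ : σ = y+v+r) (hX : X = σ+y+u) (hM : M = X+σ) :
    0 ≤ ((23*M)*(X*(X-y))-2*(X-x)*(((M+X)*100-(23*M))*(x-y)-x*(x-y)*100-(X*(X-y))*100))*(9*M^2+16*((σ+y)*X-x*(x-y)))+((23*M)*(X*(X-y))*x+100*M*σ*(x-y)*(X-x)-2*(X-x)*(((M+X)*100-(23*M))*(x-y)*X-x*(x-y)*100*(2*X-x)-(X*(X-y))*100*x))*(24*M-16*σ) := by
  have h : ((23*M)*(X*(X-y))-2*(X-x)*(((M+X)*100-(23*M))*(x-y)-x*(x-y)*100-(X*(X-y))*100))*(9*M^2+16*((σ+y)*X-x*(x-y)))+((23*M)*(X*(X-y))*x+100*M*σ*(x-y)*(X-x)-2*(X-x)*(((M+X)*100-(23*M))*(x-y)*X-x*(x-y)*100*(2*X-x)-(X*(X-y))*100*x))*(24*M-16*σ) = (1/32) * ev y v r a b [(11791695,5,0,0,5,0), (46497416,5,0,0,4,1), (73049488,5,0,0,3,2), (57159952,5,0,0,2,3), (22278608,5,0,0,1,4), (3460416,5,0,0,0,5), (51876257,4,1,0,5,0), (179760956,4,1,0,4,1),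 (242200316,4,1,0,3,2), (157126440,4,1,0,2,3), (48275712,4,1,0,1,4), (5434784,4,1,0,0,5), (68086325,4,0,1,5,0), (247771872,4,0,1,4,1), (355812108,4,0,1,3,2), (251573736,4,0,1,2,3), (87344512,4,0,1,1,4), (11867232,4,0,1,0,5), (90138670,3,2,0,5,0), (271571064,3,2,0,4,1), (311339528,3,2,0,3,2), (168198920,3,2,0,2,3), (42666944,3,2,0,1,4), (4194528,3,2,0,0,5), (232111316,3,1,1,5,0), (732822272,3,1,1,4,1), (890538456,3,1,1,3,2), (516130016,3,1,1,2,3), (140965856,3,1,1,1,4), (14302080,3,1,1,0,5), (152680830,3,0,2,5,0), (508824712,3,0,2,4,1), (663473768,3,0,2,3,2), (422337576,3,0,2,2,3), (131040448,3,0,2,1,4), (15852128,3,0,2,0,5), (77075418,2,3,0,5,0), (200190160,2,3,0,4,1), (196554064,2,3,0,3,2), (92847240,2,3,0,2,3), (22294192,2,3,0,1,4), (2344384,2,3,0,0,5), (290455550,2,2,1,5,0), (783607736,2,2,1,4,1),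 (797157416,2,2,1,3,2), (381008792,2,2,1,2,3), (86211632,2,2,1,1,4), (7582400,2,2,1,0,5), (376362806,2,1,2,5,0), (1072122192,2,1,2,4,1), (1167069256,2,1,2,3,2), (604112408,2,1,2,2,3), (148082928,2,1,2,1,4), (13654720,2,1,2,0,5), (165713490,2,0,3,5,0), (501469992,2,0,3,4,1), (590277936,2,0,3,3,2), (338102856,2,0,3,2,3), (94440816,2,0,3,1,4), (10317504,2,0,3,0,5), (32281379,1,4,0,5,0), (72223872,1,4,0,4,1), (63099304,1,4,0,3,2), (28745192,1,4,0,2,3), (7180608,1,4,0,1,4), (779392,1,4,0,0,5), (156922452,1,3,1,5,0), (357232880,1,3,1,4,1), (307921880,1,3,1,3,2), (130091952,1,3,1,2,3), (28491776,1,3,1,1,4), (2759936,1,3,1,0,5), (298341682,1,2,2,5,0), (710633840,1,2,2,4,1), (636690112,1,2,2,3,2), (269731888,1,2,2,2,3), (54485888,1,2,2,1,4), (4274944,1,2,2,0,5), (260517492,1,1,3,5,0), (662185104,1,1,3,4,1),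 (642486552,1,1,3,3,2), (298029168,1,1,3,2,3), (66018048,1,1,3,1,4), (5556480,1,1,3,0,5), (86771315,1,0,4,5,0), (236397456,1,0,4,4,1), (250423432,1,0,4,3,2), (129578504,1,0,4,2,3), (32875584,1,0,4,1,4), (3281536,1,0,4,0,5), (5260069,0,5,0,5,0), (10341236,0,5,0,4,1), (8733940,0,5,0,3,2), (4063312,0,5,0,2,3), (998336,0,5,0,1,4), (100096,0,5,0,0,5), (30491893,0,4,1,5,0), (58675544,0,4,1,4,1), (46060924,0,4,1,3,2), (19609840,0,4,1,2,3), (4641344,0,4,1,1,4), (470272,0,4,1,0,5), (74659706,0,3,2,5,0), (145743400,0,3,2,4,1), (109993280,0,3,2,3,2), (41690816,0,3,2,2,3), (8434432,0,3,2,1,4), (776192,0,3,2,0,5), (96271202,0,2,3,5,0), (198823600,0,2,3,4,1), (155991584,0,2,3,3,2), (58181888,0,2,3,2,3), (10319104,0,2,3,1,4), (699392,0,2,3,0,5), (64389745,0,1,4,5,0), (144404228,0,1,4,4,1), (124949932,0,1,4,3,2),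 (52176880,0,1,4,2,3), (10485056,0,1,4,1,4), (805120,0,1,4,0,5), (17444025,0,0,5,5,0), (42477720,0,0,5,4,1), (40600644,0,0,5,3,2), (19115280,0,0,5,2,3), (4445376,0,0,5,1,4), (409344,0,0,5,0,5)] := by
    subst hM hX hσ hx hu hab
    simp only [ev]
    ring
  rw [h]
  have h1 := ev_nonneg hy hv hr ha hb
  exact mul_nonneg (by norm_num) (h1 _)

set_option maxRecDepth 100000 in
theorem p_E3_cs (y v r a b u x σ X M : ℝ) (hy : 0 ≤ y) (hv : 0 ≤ v) (hr : 0 ≤ r) (ha : 0 ≤ a) (hb : 0 ≤ b)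
  (hab : b = 1 - a) (hu : u = a*(y+3*v+3*r)/2)
  (hx : x = y+v) (hσ : σ = y+v+r) (hX : X = σ+y+u) (hM : M = X+σ) :
    0 ≤ (σ*((23*M)*(X*(X-y)))-(x-y)*(M-x)^2*((X-x)*100-(23*M))-2*σ*(X-x)*(((M+X)*100-(23*M))*(x-y)-x*(x-y)*100-(X*(X-y))*100))*(σ+y)+(σ*((23*M)*(X*(X-y))*x+100*M*σ*(x-y)*(X-x))-(x-y)*(M-x)^2*((X-x)*100-(23*M))*x-2*σ*(X-x)*(((M+X)*100-(23*M))*(x-y)*X-x*(x-y)*100*(2*X-x)-(X*(X-y))*100*x)) := by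
  have h : (σ*((23*M)*(X*(X-y)))-(x-y)*(M-x)^2*((X-x)*100-(23*M))-2*σ*(X-x)*(((M+X)*100-(23*M))*(x-y)-x*(x-y)*100-(X*(X-y))*100))*(σ+y)+(σ*((23*M)*(X*(X-y))*x+100*M*σ*(x-y)*(X-x))-(x-y)*(M-x)^2*((X-x)*100-(23*M))*x-2*σ*(X-x)*(((M+X)*100-(23*M))*(x-y)*X-x*(x-y)*100*(2*X-x)-(X*(X-y))*100*x)) = (1/8) * ev y v r a b [(34245,5,0,0,3,0), (74436,5,0,0,2,1), (53772,5,0,0,1,2), (12912,5,0,0,0,3), (134709,4,1,0,3,0), (239450,4,1,0,2,1), (134228,4,1,0,1,2), (22936,4,1,0,0,3), (189225,4,0,1,3,0), (367592,4,0,1,2,1), (233672,4,0,1,1,2), (48392,4,0,1,0,3), (202319,3,2,0,3,0), (293028,3,2,0,2,1), (135240,3,2,0,1,2), (21760,3,2,0,0,3), (550680,3,1,1,3,0), (848994,3,1,1,2,1), (407308,3,1,1,1,2), (59832,3,1,1,0,3), (399230,3,0,2,3,0), (687872,3,0,2,2,1), (384996,3,0,2,1,2), (70040,3,0,2,0,3), (141153,2,3,0,3,0),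 (176658,2,3,0,2,1), (85544,2,3,0,1,2), (18224,2,3,0,0,3), (547381,2,2,1,3,0), (657596,2,2,1,2,1), (256092,2,2,1,1,2), (37400,2,2,1,0,3), (786730,2,1,2,3,0), (1036734,2,1,2,2,1), (424364,2,1,2,1,2), (53544,2,1,2,0,3), (396790,2,0,3,3,0), (603032,2,0,3,2,1), (298916,2,0,3,1,2), (48520,2,0,3,0,3), (42960,1,4,0,3,0), (59852,1,4,0,2,1), (38104,1,4,0,1,2), (8576,1,4,0,0,3), (199622,1,3,1,3,0), (207382,1,3,1,2,1), (100268,1,3,1,1,2), (22416,1,3,1,0,3), (425509,1,2,2,3,0), (405188,1,2,2,2,1), (129124,1,2,2,1,2), (17064,1,2,2,0,3), (450968,1,1,3,3,0), (502054,1,1,3,2,1), (174716,1,1,3,1,2), (18600,1,1,3,0,3), (181565,1,0,4,3,0), (243836,1,0,4,2,1), (108304,1,0,4,1,2), (15928,1,0,4,0,3), (3662,0,5,0,3,0), (11208,0,5,0,2,1), (7344,0,5,0,1,2), (1472,0,5,0,0,3), (13696,0,4,1,3,0), (31188,0,4,1,2,1),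 (24528,0,4,1,1,2), (5632,0,4,1,0,3), (38009,0,3,2,3,0), (33000,0,3,2,2,1), (21300,0,3,2,1,2), (6032,0,3,2,0,3), (79959,0,2,3,3,0), (53532,0,2,3,2,1), (10296,0,2,3,1,2), (1056,0,2,3,0,3), (81809,0,1,4,3,0), (78432,0,1,4,2,1), (23064,0,1,4,1,2), (1952,0,1,4,0,3), (29025,0,0,5,3,0), (35520,0,0,5,2,1), (14484,0,0,5,1,2), (1968,0,0,5,0,3)] := by
    subst hM hX hσ hx hu hab
    simp only [ev]
    ring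
  rw [h]
  have h1 := ev_nonneg hy hv hr ha hb
  exact mul_nonneg (by norm_num) (h1 _)

set_option maxRecDepth 100000 in
theorem p_E3_cl (y v r a b u x σ X M : ℝ) (hy : 0 ≤ y) (hv : 0 ≤ v) (hr : 0 ≤ r) (ha : 0 ≤ a) (hb : 0 ≤ b)
  (hab : b = 1 - a) (hu : u = a*(y+3*v+3*r)/2)
  (hx : x = y+v) (hσ : σ = y+v+r) (hX : X = σ+y+u) (hM : M = X+σ) :
    0 ≤ (σ*((23*M)*(X*(X-y)))-(x-y)*(M-x)^2*((X-x)*100-(23*M))-2*σ*(X-x)*(((M+X)*100-(23*M))*(x-y)-x*(x-y)*100-(X*(X-y))*100))*(9*M^2+16*((σ+y)*X-x*(x-y)))+(σ*((23*M)*(X*(X-y))*x+100*M*σ*(x-y)*(X-x))-(x-y)*(M-x)^2*((X-x)*100-(23*M))*x-2*σ*(X-x)*(((M+X)*100-(23*M))*(x-y)*X-x*(x-y)*100*(2*X-x)-(X*(X-y))*100*x))*(24*M-16*σ) := by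
  have h : (σ*((23*M)*(X*(X-y)))-(x-y)*(M-x)^2*((X-x)*100-(23*M))-2*σ*(X-x)*(((M+X)*100-(23*M))*(x-y)-x*(x-y)*100-(X*(X-y))*100))*(9*M^2+16*((σ+y)*X-x*(x-y)))+(σ*((23*M)*(X*(X-y))*x+100*M*σ*(x-y)*(X-x))-(x-y)*(M-x)^2*((X-x)*100-(23*M))*x-2*σ*(X-x)*(((M+X)*100-(23*M))*(x-y)*X-x*(x-y)*100*(2*X-x)-(X*(X-y))*100*x))*(24*M-16*σ) = (1/32) * ev y v r a b [(11791695,6,0,0,5,0), (46497416,6,0,0,4,1), (73049488,6,0,0,3,2), (57159952,6,0,0,2,3), (22278608,6,0,0,1,4), (3460416,6,0,0,0,5), (60078277,5,1,0,5,0), (212561442,5,1,0,4,1), (294599592,5,1,0,3,2), (198946304,5,1,0,2,3), (64958928,5,1,0,1,4), (8097632,5,1,0,0,5), (79878020,5,0,1,5,0), (294269288,5,0,1,4,1), (428861596,5,0,1,3,2), (308733688,5,0,1,2,3), (109623120,5,0,1,1,4), (15327648,5,0,1,0,5), (124844952,4,2,0,5,0), (394388500,4,2,0,4,1),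 (481942032,4,2,0,3,2), (284029856,4,2,0,2,3), (80878752,4,2,0,1,4), (9047040,4,2,0,0,5), (327589983,4,1,1,5,0), (1072068368,4,1,1,4,1), (1363498180,4,1,1,3,2), (838188016,4,1,1,2,3), (247389472,4,1,1,1,4), (27810176,4,1,1,0,5), (220767155,4,0,2,5,0), (756596584,4,0,2,4,1), (1019285876,4,0,2,3,2), (673911312,4,0,2,2,3), (218384960,4,0,2,1,4), (27719360,4,0,2,0,5), (134430938,3,3,0,5,0), (379248924,3,3,0,4,1), (415376200,3,3,0,3,2), (225255952,3,3,0,2,3), (63079552,3,3,0,1,4), (7721664,3,3,0,0,5), (519403796,3,2,1,5,0), (1494703896,3,2,1,4,1), (1648679880,3,2,1,3,2), (871046032,3,2,1,2,3), (222197296,3,2,1,1,4), (22488224,3,2,1,0,5), (697770654,3,1,2,5,0), (2099447084,3,1,2,4,1), (2437807308,3,1,2,3,2), (1360317256,3,1,2,2,3), (363288976,3,1,2,1,4), (36997408,3,1,2,0,5), (318394320,3,0,3,5,0),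 (1010294704,3,0,3,4,1), (1253751704,3,0,3,3,2), (760440432,3,0,3,2,3), (225481264,3,0,3,1,4), (26169632,3,0,3,0,5), (78130447,2,4,0,5,0), (199568952,2,4,0,4,1), (206424728,2,4,0,3,2), (114360016,2,4,0,2,3), (35286240,2,4,0,1,4), (4744832,2,4,0,0,5), (391451690,2,3,1,5,0), (983828472,2,3,1,4,1), (954941120,2,3,1,3,2), (463437728,2,3,1,2,3), (119722704,2,3,1,1,4), (13991744,2,3,1,0,5), (784761128,2,2,2,5,0), (2033946680,2,2,2,4,1), (2002165468,2,2,2,3,2), (938738816,2,2,2,2,3), (212554208,2,2,2,1,4), (19228288,2,2,2,0,5), (724589426,2,1,3,5,0), (1990292368,2,1,3,4,1), (2098732620,2,1,3,3,2), (1060709792,2,1,3,2,3), (256649632,2,1,3,1,4), (23737728,2,1,3,0,5), (252484805,2,0,4,5,0), (737867448,2,0,4,4,1), (840701368,2,0,4,3,2), (467681360,2,0,4,2,3), (127316400,2,0,4,1,4), (13599040,2,0,4,0,5),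 (22706673,1,5,0,5,0), (55122418,1,5,0,4,1), (59787952,1,5,0,3,2), (36862032,1,5,0,2,3), (12081280,1,5,0,1,4), (1571584,1,5,0,0,5), (135661824,1,4,1,5,0), (300472288,1,4,1,4,1), (277777708,1,4,1,3,2), (146671512,1,4,1,2,3), (45136000,1,4,1,1,4), (6051712,1,4,1,0,5), (359278914,1,3,2,5,0), (782538764,1,3,2,4,1), (654346460,1,3,2,3,2), (278458872,1,3,2,2,3), (66270080,1,3,2,1,4), (7576448,1,3,2,0,5), (507729076,1,2,3,5,0), (1166300584,1,2,3,4,1), (1007960064,1,2,3,3,2), (411814720,1,2,3,2,3), (80571136,1,2,3,1,4), (6262272,1,2,3,0,5), (366181037,1,1,4,5,0), (910679474,1,1,4,4,1), (867794028,1,1,4,3,2), (396807080,1,1,4,2,3), (87041408,1,1,4,1,4), (7307904,1,1,4,0,5), (104215340,1,0,5,5,0), (278875176,1,0,5,4,1), (291024076,1,0,5,3,2), (148693784,1,0,5,2,3), (37320960,1,0,5,1,4), (3690880,1,0,5,0,5),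 (2448794,0,6,0,5,0), (6477916,0,6,0,4,1), (8347496,0,6,0,3,2), (5514464,0,6,0,2,3), (1715584,0,6,0,1,4), (200192,0,6,0,0,5), (15901967,0,5,1,5,0), (33548632,0,5,1,4,1), (36879884,0,5,1,3,2), (24297104,0,5,1,2,3), (8201536,0,5,1,1,4), (1053440,0,5,1,0,5), (51521285,0,4,2,5,0), (91442584,0,4,2,4,1), (73269848,0,4,2,3,2), (38787104,0,4,2,2,3), (12889216,0,4,2,1,4), (1819136,0,4,2,0,5), (101533970,0,3,3,5,0), (180920776,0,3,3,4,1), (121324532,0,3,3,3,2), (41726576,0,3,3,2,3), (8941504,0,3,3,1,4), (1082624,0,3,3,0,5), (117821192,0,2,4,5,0), (234014452,0,2,4,4,1), (173002316,0,2,4,3,2), (58947440,0,2,4,2,3), (9123136,0,2,4,1,4), (511232,0,2,4,0,5), (71850559,0,1,5,5,0), (160199264,0,1,5,4,1), (137527888,0,1,5,3,2), (56852608,0,1,5,2,3), (11286272,0,1,5,1,4), (855040,0,1,5,0,5), (17444025,0,0,6,5,0),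 (42477720,0,0,6,4,1), (40600644,0,0,6,3,2), (19115280,0,0,6,2,3), (4445376,0,0,6,1,4), (409344,0,0,6,0,5)] := by
    subst hM hX hσ hx hu hab
    simp only [ev]
    ring
  rw [h]
  have h1 := ev_nonneg hy hv hr ha hb
  exact mul_nonneg (by norm_num) (h1 _)


theorem fin1 {x y σ X lam T ω Dw Nw : ℝ} (hp : 0 < lam + x) (hD : 0 < Dw)
    (hT : T * (lam + x) = lam + X) (hω : ω * Dw = Nw)
    (hk : 0 ≤ (σ*(Nw*(X*(X-y)))-(x-y)*(1-x)^2*((X-x)*Dw-Nw)) * lam + ((σ*(Nw*(X*(X-y)))-(x-y)*(1-x)^2*((X-x)*Dw-Nw))*x+σ*(Dw*1*σ*(x-y)*(X-x)))) :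
    (x-y)*(1-x)^2*(X-x-ω) ≤ σ*(ω*(X*(X-y)) + σ*(x-y)*(T-1)) := by
  have h5 : 0 ≤ (σ*(ω*(X*(X-y)) + σ*(x-y)*(T-1)) - (x-y)*(1-x)^2*(X-x-ω)) * ((lam + x) * Dw) := by
    refine le_of_le_of_eq hk ?_
    linear_combination (-(σ^2*(x-y)*Dw)) * hT
      - (σ*(X*(X-y))*(lam+x) + (x-y)*(1-x)^2*(lam+x)) * hω
  have h6 := nonneg_of_mul_nonneg_left h5 (mul_pos hp hD)
  linarith

theorem fin2 {x y σ X lam T ω Dw Nw : ℝ} (hp : 0 < lam + x) (hD : 0 < Dw)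
    (hx : 0 ≤ x) (hd : 0 ≤ x - y) (ht : 0 ≤ X - x)
    (hT : T * (lam + x) = lam + X) (hω : ω * Dw = Nw)
    (hk : 0 ≤ (Nw*(X*(X-y))-2*(X-x)*(((1+X)*Dw-Nw)*(x-y)-x*(x-y)*Dw-(X*(X-y))*Dw)) * lam + (Nw*(X*(X-y))*x+Dw*1*σ*(x-y)*(X-x)-2*(X-x)*(((1+X)*Dw-Nw)*(x-y)*X-x*(x-y)*Dw*(2*X-x)-(X*(X-y))*Dw*x))) :
    2*(X-x)*((1+X-ω-x*T)*(x-y)*T - X*(X-y)) ≤ ω*(X*(X-y)) + σ*(x-y)*(T-1) := by
  have h5 : 0 ≤ (ω*(X*(X-y)) + σ*(x-y)*(T-1) - 2*(X-x)*((1+X-ω)*(x-y)*T - x*(x-y)*(2*T-1)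
      - X*(X-y))) * ((lam + x) * Dw) := by
    refine le_of_le_of_eq hk ?_
    linear_combination (-(σ*(x-y)*Dw - 2*(X-x)*((1+X-ω)*(x-y)*Dw - 2*x*(x-y)*Dw))) * hT
      - ((X*(X-y))*(lam+x) + 2*(X-x)*(x-y)*(lam+X)) * hω
  have h6 := nonneg_of_mul_nonneg_left h5 (mul_pos hp hD)
  have h7 : 0 ≤ (X-x)*(x*(x-y)*(T-1)^2) := by positivity
  nlinarith

theorem fin3 {x y σ X lam T ω Dw Nw : ℝ} (hp : 0 < lam + x) (hD : 0 < Dw) (hσ : 0 ≤ σ)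
    (hx : 0 ≤ x) (hd : 0 ≤ x - y) (ht : 0 ≤ X - x)
    (hT : T * (lam + x) = lam + X) (hω : ω * Dw = Nw)
    (hk : 0 ≤ (σ*(Nw*(X*(X-y)))-(x-y)*(1-x)^2*((X-x)*Dw-Nw)-2*σ*(X-x)*(((1+X)*Dw-Nw)*(x-y)-x*(x-y)*Dw-(X*(X-y))*Dw)) * lam + (σ*(Nw*(X*(X-y))*x+Dw*1*σ*(x-y)*(X-x))-(x-y)*(1-x)^2*((X-x)*Dw-Nw)*x-2*σ*(X-x)*(((1+X)*Dw-Nw)*(x-y)*X-x*(x-y)*Dw*(2*X-x)-(X*(X-y))*Dw*x))) :
    (x-y)*(1-x)^2*(X-x-ω) + 2*σ*(X-x)*((1+X-ω-x*T)*(x-y)*T - X*(X-y))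
      ≤ σ*(ω*(X*(X-y)) + σ*(x-y)*(T-1)) := by
  have h5 : 0 ≤ (σ*(ω*(X*(X-y)) + σ*(x-y)*(T-1)) - (x-y)*(1-x)^2*(X-x-ω)
      - 2*σ*(X-x)*((1+X-ω)*(x-y)*T - x*(x-y)*(2*T-1) - X*(X-y))) * ((lam + x) * Dw) := by
    refine le_of_le_of_eq hk ?_
    linear_combination (-(σ^2*(x-y)*Dw - 2*σ*(X-x)*((1+X-ω)*(x-y)*Dw - 2*x*(x-y)*Dw))) * hT
      - (σ*(X*(X-y))*(lam+x) + (x-y)*(1-x)^2*(lam+x) + 2*σ*(X-x)*(x-y)*(lam+X)) * hω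
  have h6 := nonneg_of_mul_nonneg_left h5 (mul_pos hp hD)
  have h7 : 0 ≤ σ*((X-x)*(x*(x-y)*(T-1)^2)) := by positivity
  nlinarith

theorem cut_ab {x y σ X : ℝ} (hy : 0 ≤ y) (hyx : y ≤ x) (hxs : x ≤ σ) (hsX : σ + y ≤ X)
    (h1 : X + σ = 1)
    (hcut : 2 / 7 ≤ σ) : ∃ a b : ℝ, 0 ≤ a ∧ 0 ≤ b ∧ b = 1 - a ∧
      X - σ - y = a * (y + 3 * (x - y) + 3 * (σ - x)) / 2 := by
  have hw : 0 < y + 3 * (x - y) + 3 * (σ - x) := by linarith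
  refine ⟨2 * (X - σ - y) / (y + 3 * (x - y) + 3 * (σ - x)),
    1 - 2 * (X - σ - y) / (y + 3 * (x - y) + 3 * (σ - x)), ?_, ?_, rfl, ?_⟩
  · exact div_nonneg (by linarith) hw.le
  · rw [sub_nonneg, div_le_one hw]
    linarith
  · field_simp

theorem E1_0 {x y σ X lam T ω : ℝ} (hy : 0 ≤ y) (hyx : y ≤ x) (hxs : x ≤ σ) (hsX : σ + y ≤ X)
    (h1 : X + σ = 1)
    (hl1 : σ + y ≤ lam)
    (hl2 : lam ^ 2 + x * (x - y) ≤ σ * lam + (σ + y) * X)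
    (hT : T * (lam + x) = lam + X)
    (hω : ω*(σ*(1+X)+X*y) = σ*(X-y)^2) :
    (x-y)*(1-x)^2*(X-x-ω) ≤ σ*(ω*(X*(X-y)) + σ*(x-y)*(T-1)) := by
  obtain ⟨hp, hσ⟩ := lx_pos hy hyx hxs hsX h1 hl1 hl2 hT
  have hD : 0 < σ*(1+X)+X*y := by
    have hX : 0 ≤ X := by linarith
    positivity
  refine fin1 hp hD hT hω ?_
  exact lin2 (by linarith) hl1 (lam_le h1 hl2)
    (p_E1_0s y (x-y) (σ-x) (X-σ-y) x σ X 1 hy (by linarith) (by linarith) (by linarith)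
    (by ring) (by ring) (by ring) (by linarith))
    (p_E1_0l y (x-y) (σ-x) (X-σ-y) x σ X 1 hy (by linarith) (by linarith) (by linarith)
    (by ring) (by ring) (by ring) (by linarith))

theorem E1_c {x y σ X lam T : ℝ} (hy : 0 ≤ y) (hyx : y ≤ x) (hxs : x ≤ σ) (hsX : σ + y ≤ X)
    (h1 : X + σ = 1)
    (hcut : 2 / 7 ≤ σ) (hl1 : σ + y ≤ lam)
    (hl2 : lam ^ 2 + x * (x - y) ≤ σ * lam + (σ + y) * X)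
    (hT : T * (lam + x) = lam + X) :
    (x-y)*(1-x)^2*(X-x-(23/100)) ≤ σ*((23/100)*(X*(X-y)) + σ*(x-y)*(T-1)) := by
  obtain ⟨hp, hσ⟩ := lx_pos hy hyx hxs hsX h1 hl1 hl2 hT
  obtain ⟨a, b, ha, hb, hab, hu⟩ := cut_ab hy hyx hxs hsX h1 hcut
  have hD : (0 : ℝ) < 100 := by norm_num
  have hω : (23 / 100 : ℝ) * 100 = 23 * 1 := by norm_num
  refine fin1 hp hD hT hω ?_
  exact lin2 (by linarith) hl1 (lam_le h1 hl2)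
    (p_E1_cs y (x-y) (σ-x) a b (X-σ-y) x σ X 1 hy (by linarith) (by linarith) ha hb hab hu
    (by ring) (by ring) (by ring) (by linarith))
    (p_E1_cl y (x-y) (σ-x) a b (X-σ-y) x σ X 1 hy (by linarith) (by linarith) ha hb hab hu
    (by ring) (by ring) (by ring) (by linarith))

theorem E2_0 {x y σ X lam T ω : ℝ} (hy : 0 ≤ y) (hyx : y ≤ x) (hxs : x ≤ σ) (hsX : σ + y ≤ X)
    (h1 : X + σ = 1)
    (hl1 : σ + y ≤ lam)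
    (hl2 : lam ^ 2 + x * (x - y) ≤ σ * lam + (σ + y) * X)
    (hT : T * (lam + x) = lam + X)
    (hω : ω*(σ*(1+X)+X*y) = σ*(X-y)^2) :
    2*(X-x)*((1+X-ω-x*T)*(x-y)*T - X*(X-y)) ≤ ω*(X*(X-y)) + σ*(x-y)*(T-1) := by
  obtain ⟨hp, hσ⟩ := lx_pos hy hyx hxs hsX h1 hl1 hl2 hT
  have hD : 0 < σ*(1+X)+X*y := by
    have hX : 0 ≤ X := by linarith
    positivity
  refine fin2 hp hD (by linarith) (by linarith) (by linarith) hT hω ?_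
  exact lin2 (by linarith) hl1 (lam_le h1 hl2)
    (p_E2_0s y (x-y) (σ-x) (X-σ-y) x σ X 1 hy (by linarith) (by linarith) (by linarith)
    (by ring) (by ring) (by ring) (by linarith))
    (p_E2_0l y (x-y) (σ-x) (X-σ-y) x σ X 1 hy (by linarith) (by linarith) (by linarith)
    (by ring) (by ring) (by ring) (by linarith))

theorem E2_c {x y σ X lam T : ℝ} (hy : 0 ≤ y) (hyx : y ≤ x) (hxs : x ≤ σ) (hsX : σ + y ≤ X)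
    (h1 : X + σ = 1)
    (hcut : 2 / 7 ≤ σ) (hl1 : σ + y ≤ lam)
    (hl2 : lam ^ 2 + x * (x - y) ≤ σ * lam + (σ + y) * X)
    (hT : T * (lam + x) = lam + X) :
    2*(X-x)*((1+X-(23/100)-x*T)*(x-y)*T - X*(X-y)) ≤ (23/100)*(X*(X-y)) + σ*(x-y)*(T-1) := by
  obtain ⟨hp, hσ⟩ := lx_pos hy hyx hxs hsX h1 hl1 hl2 hT
  obtain ⟨a, b, ha, hb, hab, hu⟩ := cut_ab hy hyx hxs hsX h1 hcut
  have hD : (0 : ℝ) < 100 := by norm_num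
  have hω : (23 / 100 : ℝ) * 100 = 23 * 1 := by norm_num
  refine fin2 hp hD (by linarith) (by linarith) (by linarith) hT hω ?_
  exact lin2 (by linarith) hl1 (lam_le h1 hl2)
    (p_E2_cs y (x-y) (σ-x) a b (X-σ-y) x σ X 1 hy (by linarith) (by linarith) ha hb hab hu
    (by ring) (by ring) (by ring) (by linarith))
    (p_E2_cl y (x-y) (σ-x) a b (X-σ-y) x σ X 1 hy (by linarith) (by linarith) ha hb hab hu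
    (by ring) (by ring) (by ring) (by linarith))

theorem E3_0 {x y σ X lam T ω : ℝ} (hy : 0 ≤ y) (hyx : y ≤ x) (hxs : x ≤ σ) (hsX : σ + y ≤ X)
    (h1 : X + σ = 1)
    (hl1 : σ + y ≤ lam)
    (hl2 : lam ^ 2 + x * (x - y) ≤ σ * lam + (σ + y) * X)
    (hT : T * (lam + x) = lam + X)
    (hω : ω*(σ*(1+X)+X*y) = σ*(X-y)^2) :
    (x-y)*(1-x)^2*(X-x-ω) + 2*σ*(X-x)*((1+X-ω-x*T)*(x-y)*T - X*(X-y))
      ≤ σ*(ω*(X*(X-y)) + σ*(x-y)*(T-1)) := by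
  obtain ⟨hp, hσ⟩ := lx_pos hy hyx hxs hsX h1 hl1 hl2 hT
  have hD : 0 < σ*(1+X)+X*y := by
    have hX : 0 ≤ X := by linarith
    positivity
  refine fin3 hp hD (by linarith) (by linarith) (by linarith) (by linarith) hT hω ?_
  exact lin2 (by linarith) hl1 (lam_le h1 hl2)
    (p_E3_0s y (x-y) (σ-x) (X-σ-y) x σ X 1 hy (by linarith) (by linarith) (by linarith)
    (by ring) (by ring) (by ring) (by linarith))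
    (p_E3_0l y (x-y) (σ-x) (X-σ-y) x σ X 1 hy (by linarith) (by linarith) (by linarith)
    (by ring) (by ring) (by ring) (by linarith))

theorem E3_c {x y σ X lam T : ℝ} (hy : 0 ≤ y) (hyx : y ≤ x) (hxs : x ≤ σ) (hsX : σ + y ≤ X)
    (h1 : X + σ = 1)
    (hcut : 2 / 7 ≤ σ) (hl1 : σ + y ≤ lam)
    (hl2 : lam ^ 2 + x * (x - y) ≤ σ * lam + (σ + y) * X)
    (hT : T * (lam + x) = lam + X) :
    (x-y)*(1-x)^2*(X-x-(23/100)) + 2*σ*(X-x)*((1+X-(23/100)-x*T)*(x-y)*T - X*(X-y))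
      ≤ σ*((23/100)*(X*(X-y)) + σ*(x-y)*(T-1)) := by
  obtain ⟨hp, hσ⟩ := lx_pos hy hyx hxs hsX h1 hl1 hl2 hT
  obtain ⟨a, b, ha, hb, hab, hu⟩ := cut_ab hy hyx hxs hsX h1 hcut
  have hD : (0 : ℝ) < 100 := by norm_num
  have hω : (23 / 100 : ℝ) * 100 = 23 * 1 := by norm_num
  refine fin3 hp hD (by linarith) (by linarith) (by linarith) (by linarith) hT hω ?_
  exact lin2 (by linarith) hl1 (lam_le h1 hl2)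
    (p_E3_cs y (x-y) (σ-x) a b (X-σ-y) x σ X 1 hy (by linarith) (by linarith) ha hb hab hu
    (by ring) (by ring) (by ring) (by linarith))
    (p_E3_cl y (x-y) (σ-x) a b (X-σ-y) x σ X 1 hy (by linarith) (by linarith) ha hb hab hu
    (by ring) (by ring) (by ring) (by linarith))

set_option maxRecDepth 100000 in
theorem om_disc (X p a b c : ℝ) (ha : 0 ≤ a) (hb : 0 ≤ b) (hc : 0 ≤ c) (h : a = 31/700 - b - c)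
    (hX : X = 5/7 - c) (hp : p = X - b) :
    0 ≤ 4*(p-23/100-(1-p))*((p-23/100)*(1-p)^2)-((p-23/100)*(2*(1-p)-X)-(1-p)^2)^2 := by
  have h2 : 4*(p-23/100-(1-p))*((p-23/100)*(1-p)^2)-((p-23/100)*(2*(1-p)-X)-(1-p)^2)^2 =
      (1/923521) * ev a b c 0 0 [(2078150000,4,0,0,0,0), (8329402000,3,1,0,0,0), (9882632200,3,0,1,0,0), (11188321000,2,2,0,0,0), (26648007876,2,1,1,0,0), (15349247795,2,0,2,0,0), (5766576200,1,3,0,0,0), (21265886642,1,2,1,0,0), (25031364820,1,1,2,0,0), (9532054378,1,0,3,0,0), (828583679,0,4,0,0,0), (4556815956,0,3,1,0,0), (8607781490,0,2,2,0,0), (6859449828,0,1,3,0,0), (1979900615,0,0,4,0,0)] := by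
    subst hp hX h
    simp only [ev]
    ring
  rw [h2]
  have h3 := ev_nonneg ha hb hc (le_refl (0:ℝ)) (le_refl (0:ℝ))
  exact mul_nonneg (by norm_num) (h3 _)

theorem om_c {y z v σ X : ℝ} (hcut : 2 / 7 ≤ σ) (hy : 0 ≤ y) (hsX : σ + y ≤ X) (h1 : X + σ = 1)
    (hz1 : y ≤ z) (hz2 : z ≤ σ) (hv : v = X - z)
    (hreg : (σ + y)^2 ≤ v * (X * (X - y) - (σ + y))) :
    (σ + y) * v * ((σ + y) + v) ≤ (X - y - 23/100) * (((σ + y) + v)^2 - X * v) := by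
  have hv0 : 0 ≤ v := by linarith
  have hvp : v ≤ X - y := by linarith
  have hs : 0 < (σ + y)^2 := by
    have : 0 < σ + y := by linarith
    positivity
  have hk : 0 < X * (X - y) - (σ + y) := by
    by_contra hc
    push Not at hc
    have := mul_nonneg hv0 (sub_nonneg.2 hc)
    nlinarith
  have h2 : (σ + y)^2 ≤ (X - y) * (X * (X - y) - (σ + y)) :=
    hreg.trans (mul_le_mul_of_nonneg_right hvp hk.le)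
  have hσ : σ = 1 - X := by linarith
  have h3 : 1 ≤ X * (X - y)^2 + (X - y) := by
    rw [hσ] at h2
    nlinarith
  have hX57 : X ≤ 5 / 7 := by linarith
  have hp0 : 0 ≤ X - y := by linarith
  have h4 : 67 / 100 ≤ X - y := by
    by_contra hc
    push Not at hc
    have h5 : X * (X - y)^2 ≤ 5 / 7 * (X - y)^2 := mul_le_mul_of_nonneg_right hX57 (by positivity)
    nlinarith
  have h6 := om_disc X (X - y) (X - y - 67/100) y (5/7 - X) (by linarith) hy (by linarith)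
    (by ring) (by ring) rfl
  have hs2 : σ + y = 1 - (X - y) := by linarith
  rw [hs2]
  obtain ⟨p, hp⟩ : ∃ p, p = X - y := ⟨_, rfl⟩
  rw [← hp] at h6 h4 ⊢
  have hA : 0 < p - 23/100 - (1 - p) := by linarith
  have h7 : 0 ≤ (4 * (p - 23/100 - (1 - p))) * ((p - 23/100) * (((1 - p) + v)^2 - X * v)
      - (1 - p) * v * ((1 - p) + v)) := by
    have h8 : (4 * (p - 23/100 - (1 - p))) * ((p - 23/100) * (((1 - p) + v)^2 - X * v)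
      - (1 - p) * v * ((1 - p) + v)) = (2 * (p - 23/100 - (1 - p)) * v
        + ((p-23/100)*(2*(1-p)-X)-(1-p)^2))^2 +
        (4*(p-23/100-(1-p))*((p-23/100)*(1-p)^2)-((p-23/100)*(2*(1-p)-X)-(1-p)^2)^2) := by ring
    rw [h8]
    positivity
  have h9 := nonneg_of_mul_nonneg_right h7 (by linarith)
  linarith

theorem om_0 {y z v σ X ω : ℝ} (hy : 0 ≤ y) (hsX : σ + y ≤ X) (h1 : X + σ = 1)
    (hz1 : y ≤ z) (hz2 : z ≤ σ) (hv : v = X - z)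
    (hreg : v * (X * (X - y) - (σ + y)) ≤ (σ + y)^2)
    (hω : ω*(σ*(1+X)+X*y) = σ*(X-y)^2) :
    (σ + y) * v * ((σ + y) + v) ≤ (X - y - ω) * (((σ + y) + v)^2 - X * v) := by
  have hσ0 : 0 ≤ σ := by linarith
  rcases eq_or_lt_of_le hσ0 with h | h
  · have h2 : y = 0 := by linarith
    have h3 : z = 0 := by linarith
    have h4 : X = 1 := by linarith
    rw [hv, ← h, h2, h3, h4]
    norm_num
  · have hX : 0 ≤ X := by linarith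
    have hD : 0 < σ*(1+X)+X*y := by positivity
    have h5 : 0 ≤ ((X - y - ω) * (((σ + y) + v)^2 - X * v)
        - (σ + y) * v * ((σ + y) + v)) * (σ*(1+X)+X*y) := by
      have h6 : ((X - y - ω) * (((σ + y) + v)^2 - X * v)
        - (σ + y) * v * ((σ + y) + v)) * (σ*(1+X)+X*y) =
        (σ + y) * ((X - y - v) * ((σ + y)^2 - v * (X * (X - y) - (σ + y)))) := by
        have hσ : σ = 1 - X := by linarith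
        subst hσ
        linear_combination (-((((1 - X) + y) + v)^2 - X * v)) * hω
      rw [h6]
      have h7 : 0 ≤ X - y - v := by linarith
      have h8 : 0 ≤ (σ + y)^2 - v * (X * (X - y) - (σ + y)) := by linarith
      have h9 : 0 ≤ σ + y := by linarith
      positivity
    have h6 := nonneg_of_mul_nonneg_left h5 hD
    linarith

end Pool.Agent.Helper6.EE
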