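import Mathlib

/-!
Polynomial inequalities (IV), (IV0) for the pair condition of MP_66e4ee_co (note of helper31).
-/

set_option autoImplicit false
set_option linter.unusedVariables false

namespace Pool.Agent.Helper6.MB

/-- polynomials with natural coefficients -/
def ev (y u r g c : ℝ) : List (ℕ × ℕ × ℕ × ℕ × ℕ × ℕ) → ℝ
  | [] => 0
  | (k, a, b, d, e, f) :: l => k * y ^ a * u ^ b * r ^ d * g ^ e * c ^ f + ev y u r g c l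

theorem ev_nonneg {y u r g c : ℝ} (hy : 0 ≤ y) (hu : 0 ≤ u) (hr : 0 ≤ r) (hg : 0 ≤ g)
    (hc : 0 ≤ c) : ∀ l, 0 ≤ ev y u r g c l
  | [] => le_refl _
  | (k, a, b, d, e, f) :: l => by
    have := ev_nonneg hy hu hr hg hc l
    simp only [ev]
    positivity

set_option maxRecDepth 100000 in
theorem mb_F2 (y u r g c z s X S e0 P0 p1 R0 : ℝ) (hy : 0 ≤ y) (hu : 0 ≤ u) (hr : 0 ≤ r) (hg : 0 ≤ g) (hc : 0 ≤ c)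
  (hz : z = y+u) (hs : s = z+y+r+g) (hX : X = s+y+c) (hS : S = X+s)
  (he : e0 = (y+s)*S-y*s-y*(u+r)-u^2) (hP : P0 = z*u*(S-z)+y*r*(S-s+z)) (hp : p1 = S-s+z)
  (hR : R0 = (u+r)*S-y*(u+r)-u^2) :
    0 ≤ (-(((z+y)*(X+z-2*y)*((e0+y*s)*(-p1)-(p1*(e0-(X-y)*s)-P0)) - 2*y*u*((e0+X*s)*(S+p1+p1)-(-((X-y)*s*(s+p1))-(X*s*(s+y)+S*e0-P0)-R0*(S+p1)+P0-e0*p1))))) := by
  have h : (-(((z+y)*(X+z-2*y)*((e0+y*s)*(-p1)-(p1*(e0-(X-y)*s)-P0)) - 2*y*u*((e0+X*s)*(S+p1+p1)-(-((X-y)*s*(s+p1))-(X*s*(s+y)+S*e0-P0)-R0*(S+p1)+P0-e0*p1))))) = ev y u r g c [(384,5,0,0,0,0), (1804,4,1,0,0,0), (512,4,0,1,0,0), (560,4,0,0,1,0), (352,4,0,0,0,1), (1960,3,2,0,0,0), (1962,3,1,1,0,0), (2046,3,1,0,1,0), (1042,3,1,0,0,1), (264,3,0,2,0,0), (564,3,0,1,1,0), (328,3,0,1,0,1), (300,3,0,0,2,0), (364,3,0,0,1,1),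 (96,3,0,0,0,2), (778,2,3,0,0,0), (1598,2,2,1,0,0), (1618,2,2,0,1,0), (752,2,2,0,0,1), (794,2,1,2,0,0), (1588,2,1,1,1,0), (786,2,1,1,0,1), (794,2,1,0,2,0), (808,2,1,0,1,1), (166,2,1,0,0,2), (64,2,0,3,0,0), (198,2,0,2,1,0), (112,2,0,2,0,1), (204,2,0,1,2,0), (236,2,0,1,1,1), (56,2,0,1,0,2), (70,2,0,0,3,0), (124,2,0,0,2,1), (62,2,0,0,1,2), (8,2,0,0,0,3), (108,1,4,0,0,0), (405,1,3,1,0,0), (401,1,3,0,1,0), (161,1,3,0,0,1), (395,1,2,2,0,0), (774,1,2,1,1,0), (369,1,2,1,0,1), (379,1,2,0,2,0), (365,1,2,0,1,1), (66,1,2,0,0,2), (122,1,1,3,0,0), (357,1,1,2,1,0), (184,1,1,2,0,1), (348,1,1,1,2,0), (360,1,1,1,1,1), (74,1,1,1,0,2), (113,1,1,0,3,0), (176,1,1,0,2,1), (73,1,1,0,1,2), (6,1,1,0,0,3), (6,1,0,4,0,0), (24,1,0,3,1,0), (14,1,0,3,0,1), (36,1,0,2,2,0), (42,1,0,2,1,1), (10,1,0,2,0,2),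 (24,1,0,1,3,0), (42,1,0,1,2,1), (20,1,0,1,1,2), (2,1,0,1,0,3), (6,1,0,0,4,0), (14,1,0,0,3,1), (10,1,0,0,2,2), (2,1,0,0,1,3), (2,0,5,0,0,0), (23,0,4,1,0,0), (23,0,4,0,1,0), (5,0,4,0,0,1), (35,0,3,2,0,0), (70,0,3,1,1,0), (31,0,3,1,0,1), (35,0,3,0,2,0), (31,0,3,0,1,1), (4,0,3,0,0,2), (18,0,2,3,0,0), (54,0,2,2,1,0), (29,0,2,2,0,1), (54,0,2,1,2,0), (58,0,2,1,1,1), (12,0,2,1,0,2), (18,0,2,0,3,0), (29,0,2,0,2,1), (12,0,2,0,1,2), (1,0,2,0,0,3), (3,0,1,4,0,0), (12,0,1,3,1,0), (7,0,1,3,0,1), (18,0,1,2,2,0), (21,0,1,2,1,1), (5,0,1,2,0,2), (12,0,1,1,3,0), (21,0,1,1,2,1), (10,0,1,1,1,2), (1,0,1,1,0,3), (3,0,1,0,4,0), (7,0,1,0,3,1), (5,0,1,0,2,2), (1,0,1,0,1,3)] := by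
    subst hR hp hP he hS hX hs hz
    simp only [ev]
    ring
  rw [h]
  exact ev_nonneg hy hu hr hg hc _

set_option maxRecDepth 100000 in
theorem mb_H (y u r g c z s X S e0 P0 p1 R0 : ℝ) (hy : 0 ≤ y) (hu : 0 ≤ u) (hr : 0 ≤ r) (hg : 0 ≤ g) (hc : 0 ≤ c)
  (hz : z = y+u) (hs : s = z+y+r+g) (hX : X = s+y+c) (hS : S = X+s)
  (he : e0 = (y+s)*S-y*s-y*(u+r)-u^2) (hP : P0 = z*u*(S-z)+y*r*(S-s+z)) (hp : p1 = S-s+z)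
  (hR : R0 = (u+r)*S-y*(u+r)-u^2) :
    0 ≤ (((z+y)*(X+z-2*y)*((e0+y*s)*((X-y)*X*s^2*(s+y)+P0*(e0-(X-y)*s))) - 2*y*u*((e0+X*s)*((X-y)*s*(X*s*(s+y)+s*e0-P0)+R0*(X*s*(s+y)+S*e0-P0)-e0*P0))) + r^2*(((z+y)*(X+z-2*y)*((e0+y*s)*(p1*(e0-(X-y)*s)-P0)-((X-y)*X*s^2*(s+y)+P0*(e0-(X-y)*s))) - 2*y*u*((e0+X*s)*(-((X-y)*s*(s+p1))-(X*s*(s+y)+S*e0-P0)-R0*(S+p1)+P0-e0*p1)-((X-y)*s*(X*s*(s+y)+s*e0-P0)+R0*(X*s*(s+y)+S*e0-P0)-e0*P0))) + r^2*((z+y)*(X+z-2*y)*((e0+y*s)*(-p1)-(p1*(e0-(X-y)*s)-P0)) - 2*y*u*((e0+X*s)*(S+p1+p1)-(-((X-y)*s*(s+p1))-(X*s*(s+y)+S*e0-P0)-R0*(S+p1)+P0-e0*p1))))) := by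
  have h : (((z+y)*(X+z-2*y)*((e0+y*s)*((X-y)*X*s^2*(s+y)+P0*(e0-(X-y)*s))) - 2*y*u*((e0+X*s)*((X-y)*s*(X*s*(s+y)+s*e0-P0)+R0*(X*s*(s+y)+S*e0-P0)-e0*P0))) + r^2*(((z+y)*(X+z-2*y)*((e0+y*s)*(p1*(e0-(X-y)*s)-P0)-((X-y)*X*s^2*(s+y)+P0*(e0-(X-y)*s))) - 2*y*u*((e0+X*s)*(-((X-y)*s*(s+p1))-(X*s*(s+y)+S*e0-P0)-R0*(S+p1)+P0-e0*p1)-((X-y)*s*(X*s*(s+y)+s*e0-P0)+R0*(X*s*(s+y)+S*e0-P0)-e0*P0))) + r^2*((z+y)*(X+z-2*y)*((e0+y*s)*(-p1)-(p1*(e0-(X-y)*s)-P0)) - 2*y*u*((e0+X*s)*(S+p1+p1)-(-((X-y)*s*(s+p1))-(X*s*(s+y)+S*e0-P0)-R0*(S+p1)+P0-e0*p1))))) = ev y u r g c [(4320,9,0,0,0,0), (14192,8,1,0,0,0), (16560,8,0,1,0,0), (14688,8,0,0,1,0), (6624,8,0,0,0,1), (14116,7,2,0,0,0), (37480,7,1,1,0,0), (41336,7,1,0,1,0), (20060,7,1,0,0,1), (27108,7,0,2,0,0), (47364,7,0,1,1,0), (21444,7,0,1,0,1),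 (21744,7,0,0,2,0), (19536,7,0,0,1,1), (3672,7,0,0,0,2), (8614,6,3,0,0,0), (19794,6,2,1,0,0), (34398,6,2,0,1,0), (20164,6,2,0,0,1), (49482,6,1,2,0,0), (88616,6,1,1,1,0), (45304,6,1,1,0,1), (51784,6,1,0,2,0), (50110,6,1,0,1,1), (10154,6,1,0,0,2), (24142,6,0,3,0,0), (64776,6,0,2,1,0), (29196,6,0,2,0,1), (58186,6,0,1,2,0), (52208,6,0,1,1,1), (9870,6,0,1,0,2), (18304,6,0,0,3,0), (24568,6,0,0,2,1), (9216,6,0,0,1,2), (864,6,0,0,0,3), (7528,5,4,0,0,0), (1653,5,3,1,0,0), (17869,5,3,0,1,0), (12537,5,3,0,0,1), (20484,5,2,2,0,0), (34592,5,2,1,1,0), (28903,5,2,1,0,1), (36108,5,2,0,2,0), (42395,5,2,0,1,1), (9595,5,2,0,0,2), (39395,5,1,3,0,0), (93224,5,1,2,1,0), (48352,5,1,2,0,1), (89059,5,1,1,2,0), (91386,5,1,1,1,1), (19017,5,1,1,0,2), (36330,5,1,0,3,0), (52628,5,1,0,2,1), (21234,5,1,0,1,2),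 (2160,5,1,0,0,3), (12550,5,0,4,0,0), (47482,5,0,3,1,0), (21008,5,0,3,0,1), (64780,5,0,2,2,0), (57768,5,0,2,1,1), (10898,5,0,2,0,2), (39766,5,0,1,3,0), (53144,5,0,1,2,1), (19922,5,0,1,1,2), (1896,5,0,1,0,3), (9582,5,0,0,4,0), (17076,5,0,0,3,1), (9582,5,0,0,2,2), (1800,5,0,0,1,3), (72,5,0,0,0,4), (5770,4,5,0,0,0), (5863,4,4,1,0,0), (14791,4,4,0,1,0), (7999,4,4,0,0,1), (682,4,3,2,0,0), (2210,4,3,1,1,0), (11309,4,3,1,0,1), (16950,4,3,0,2,0), (22895,4,3,0,1,1), (5377,4,3,0,0,2), (19410,4,2,3,0,0), (25907,4,2,2,1,0), (23996,4,2,2,0,1), (27922,4,2,1,2,0), (48430,4,2,1,1,1), (12364,4,2,1,0,2), (21473,4,2,0,3,0), (37430,4,2,0,2,1), (16733,4,2,0,1,2), (1814,4,2,0,0,3), (18693,4,1,4,0,0), (59371,4,1,3,1,0), (29844,4,1,3,0,1), (72548,4,1,2,2,0), (76282,4,1,2,1,1), (15899,4,1,2,0,2),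 (49225,4,1,1,3,0), (75988,4,1,1,2,1), (31599,4,1,1,1,2), (3242,4,1,1,0,3), (15545,4,1,0,4,0), (29974,4,1,0,3,1), (18073,4,1,0,2,2), (3654,4,1,0,1,3), (162,4,1,0,0,4), (3832,4,0,5,0,0), (19730,4,0,4,1,0), (8408,4,0,4,0,1), (37510,4,0,3,2,0), (32912,4,0,3,1,1), (6094,4,0,3,0,2), (34684,4,0,2,3,0), (46012,4,0,2,2,1), (17154,4,0,2,1,2), (1644,4,0,2,0,3), (16314,4,0,1,4,0), (28908,4,0,1,3,1), (16152,4,0,1,2,2), (3044,4,0,1,1,3), (126,4,0,1,0,4), (3194,4,0,0,5,0), (7084,4,0,0,4,1), (5282,4,0,0,3,2), (1488,4,0,0,2,3), (120,4,0,0,1,4), (2400,3,6,0,0,0), (7142,3,5,1,0,0), (9738,3,5,0,1,0), (4086,3,5,0,0,1), (4943,3,4,2,0,0), (12964,3,4,1,1,0), (8319,3,4,1,0,1), (12833,3,4,0,2,0), (12955,3,4,0,1,1), (2570,3,4,0,0,2), (6482,3,3,3,0,0), (2915,3,3,2,1,0), (8144,3,3,2,0,1),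 (6825,3,3,1,2,0), (19580,3,3,1,1,1), (5343,3,3,1,0,2), (9800,3,3,0,3,0), (18005,3,3,0,2,1), (8022,3,3,0,1,2), (845,3,3,0,0,3), (10463,3,2,4,0,0), (22506,3,2,3,1,0), (14871,3,2,3,0,1), (16888,3,2,2,2,0), (31759,3,2,2,1,1), (8022,3,2,2,0,2), (14838,3,2,1,3,0), (35278,3,2,1,2,1), (17474,3,2,1,1,2), (1943,3,2,1,0,3), (7977,3,2,0,4,0), (17958,3,2,0,3,1), (11773,3,2,0,2,2), (2495,3,2,0,1,3), (115,3,2,0,0,4), (5034,3,1,5,0,0), (22175,3,1,4,1,0), (10468,3,1,4,0,1), (35275,3,1,3,2,0), (36066,3,1,3,1,1), (7281,3,1,3,0,2), (30066,3,1,2,3,0), (47784,3,1,2,2,1), (19947,3,1,2,1,2), (2032,3,1,2,0,3), (16145,3,1,1,4,0), (33166,3,1,1,3,1), (20636,3,1,1,2,2), (4214,3,1,1,1,3), (185,3,1,1,0,4), (4129,3,1,0,5,0), (9922,3,1,0,4,1), (7941,3,1,0,3,2), (2394,3,1,0,2,3), (210,3,1,0,1,4),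 (644,3,0,6,0,0), (4562,3,0,5,1,0), (1828,3,0,5,0,1), (11664,3,0,4,2,0), (9916,3,0,4,1,1), (1758,3,0,4,0,2), (14872,3,0,3,3,0), (19446,3,0,3,2,1), (7124,3,0,3,1,2), (672,3,0,3,0,3), (10478,3,0,2,4,0), (18418,3,0,2,3,1), (10208,3,0,2,2,2), (1920,3,0,2,1,3), (82,3,0,2,0,4), (4014,3,0,1,5,0), (8850,3,0,1,4,1), (6560,3,0,1,3,2), (1842,3,0,1,2,3), (150,3,0,1,1,4), (662,3,0,0,6,0), (1754,3,0,0,5,1), (1628,3,0,0,4,2), (610,3,0,0,3,3), (74,3,0,0,2,4), (510,2,7,0,0,0), (2754,2,6,1,0,0), (3126,2,6,0,1,0), (1144,2,6,0,0,1), (4649,2,5,2,0,0), (10608,2,5,1,1,0), (4399,2,5,1,0,1), (6513,2,5,0,2,0), (5261,2,5,0,1,1), (884,2,5,0,0,2), (4425,2,4,3,0,0), (10491,2,4,2,1,0), (5427,2,4,2,0,1), (12506,2,4,1,2,0), (12801,2,4,1,1,1), (2505,2,4,1,0,2), (6156,2,4,0,3,0), (8557,2,4,0,2,1),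 (3188,2,4,0,1,2), (291,2,4,0,0,3), (4365,2,3,4,0,0), (9647,2,3,3,1,0), (5767,2,3,3,0,1), (8355,2,3,2,2,0), (13247,2,3,2,1,1), (3076,2,3,2,0,2), (7501,2,3,1,3,0), (15620,2,3,1,2,1), (7149,2,3,1,1,2), (741,2,3,1,0,3), (3630,2,3,0,4,0), (7752,2,3,0,3,1), (4800,2,3,0,2,2), (955,2,3,0,1,3), (41,2,3,0,0,4), (2731,2,2,5,0,0), (10303,2,2,4,1,0), (5245,2,2,4,0,1), (12596,2,2,3,2,0), (15587,2,2,3,1,1), (3360,2,2,3,0,2), (8684,2,2,2,3,0), (18934,2,2,2,2,1), (8888,2,2,2,1,2), (940,2,2,2,0,3), (5575,2,2,1,4,0), (14373,2,2,1,3,1), (9884,2,2,1,2,2), (2110,2,2,1,1,3), (94,2,2,1,0,4), (1895,2,2,0,5,0), (5009,2,2,0,4,1), (4206,2,2,0,3,2), (1295,2,2,0,2,3), (115,2,2,0,1,4), (658,2,1,6,0,0), (4419,2,1,5,1,0), (1910,2,1,5,0,1), (9664,2,1,4,2,0), (9236,2,1,4,1,1), (1753,2,1,4,0,2),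 (10532,2,1,3,3,0), (16169,2,1,3,2,1), (6512,2,1,3,1,2), (640,2,1,3,0,3), (7117,2,1,2,4,0), (14897,2,1,2,3,1), (9256,2,1,2,2,2), (1868,2,1,2,1,3), (81,2,1,2,0,4), (3147,2,1,1,5,0), (7961,2,1,1,4,1), (6538,2,1,1,3,2), (1987,2,1,1,2,3), (173,2,1,1,1,4), (659,2,1,0,6,0), (1885,2,1,0,5,1), (1870,2,1,0,4,2), (745,2,1,0,3,3), (97,2,1,0,2,4), (46,2,0,7,0,0), (522,2,0,6,1,0), (184,2,0,6,0,1), (1812,2,0,5,2,0), (1460,2,0,5,1,1), (240,2,0,5,0,2), (3072,2,0,4,3,0), (3912,2,0,4,2,1), (1380,2,0,4,1,2), (124,2,0,4,0,3), (2958,2,0,3,4,0), (5132,2,0,3,3,1), (2796,2,0,3,2,2), (516,2,0,3,1,3), (22,2,0,3,0,4), (1692,2,0,2,5,0), (3700,2,0,2,4,1), (2716,2,0,2,3,2), (756,2,0,2,2,3), (62,2,0,2,1,4), (548,2,0,1,6,0), (1444,2,0,1,5,1), (1332,2,0,1,4,2), (496,2,0,1,3,3), (60,2,0,1,2,4),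 (78,2,0,0,7,0), (240,2,0,0,6,1), (266,2,0,0,5,2), (124,2,0,0,4,3), (20,2,0,0,3,4), (52,1,8,0,0,0), (429,1,7,1,0,0), (449,1,7,0,1,0), (149,1,7,0,0,1), (1219,1,6,2,0,0), (2634,1,6,1,1,0), (948,1,6,1,0,1), (1403,1,6,0,2,0), (1006,1,6,0,1,1), (151,1,6,0,0,2), (1695,1,5,3,0,0), (5184,1,5,2,1,0), (1992,1,5,2,0,1), (5569,1,5,1,2,0), (4371,1,5,1,1,1), (712,1,5,1,0,2), (2044,1,5,0,3,0), (2385,1,5,0,2,1), (772,1,5,0,1,2), (63,1,5,0,0,3), (1556,1,4,4,0,0), (5433,1,4,3,1,0), (2220,1,4,3,0,1), (7627,1,4,2,2,0), (6588,1,4,2,1,1), (1145,1,4,2,0,2), (5453,1,4,1,3,0), (7157,1,4,1,2,1), (2537,1,4,1,1,2), (220,1,4,1,0,3), (1595,1,4,0,4,0), (2719,1,4,0,3,1), (1425,1,4,0,2,2), (246,1,4,0,1,3), (9,1,4,0,0,4), (953,1,3,5,0,0), (4154,1,3,4,1,0), (1807,1,3,4,0,1), (6573,1,3,3,2,0), (6179,1,3,3,1,1),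 (1132,1,3,3,0,2), (5695,1,3,2,3,0), (8497,1,3,2,2,1), (3280,1,3,2,1,2), (305,1,3,2,0,3), (3101,1,3,1,4,0), (6105,1,3,1,3,1), (3563,1,3,1,2,2), (672,1,3,1,1,3), (27,1,3,1,0,4), (782,1,3,0,5,0), (1819,1,3,0,4,1), (1373,1,3,0,3,2), (383,1,3,0,2,3), (31,1,3,0,1,4), (287,1,2,6,0,0), (1945,1,2,5,1,0), (824,1,2,5,0,1), (4148,1,2,4,2,0), (3898,1,2,4,1,1), (722,1,2,4,0,2), (4358,1,2,3,3,0), (6657,1,2,3,2,1), (2623,1,2,3,1,2), (248,1,2,3,0,3), (2872,1,2,2,4,0), (6079,1,2,2,3,1), (3739,1,2,2,2,2), (738,1,2,2,1,3), (31,1,2,2,0,4), (1275,1,2,1,5,0), (3274,1,2,1,4,1), (2673,1,2,1,3,2), (798,1,2,1,2,3), (68,1,2,1,1,4), (271,1,2,0,6,0), (782,1,2,0,5,1), (769,1,2,0,4,2), (300,1,2,0,3,3), (38,1,2,0,2,4), (25,1,1,7,0,0), (383,1,1,6,1,0), (136,1,1,6,0,1), (1254,1,1,5,2,0), (1082,1,1,5,1,1),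 (186,1,1,5,0,2), (1892,1,1,4,3,0), (2660,1,1,4,2,1), (996,1,1,4,1,2), (92,1,1,4,0,3), (1655,1,1,3,4,0), (3242,1,1,3,3,1), (1908,1,1,3,2,2), (366,1,1,3,1,3), (15,1,1,3,0,4), (942,1,1,2,5,0), (2330,1,1,2,4,1), (1866,1,1,2,3,2), (552,1,1,2,2,3), (47,1,1,2,1,4), (340,1,1,1,6,0), (988,1,1,1,5,1), (984,1,1,1,4,2), (390,1,1,1,3,3), (50,1,1,1,2,4), (57,1,1,0,7,0), (186,1,1,0,6,1), (217,1,1,0,5,2), (106,1,1,0,4,3), (18,1,1,0,3,4), (20,1,0,7,1,0), (4,1,0,7,0,1), (106,1,0,6,2,0), (76,1,0,6,1,1), (10,1,0,6,0,2), (240,1,0,5,3,0), (292,1,0,5,2,1), (96,1,0,5,1,2), (8,1,0,5,0,3), (304,1,0,4,4,0), (516,1,0,4,3,1), (272,1,0,4,2,2), (48,1,0,4,1,3), (2,1,0,4,0,4), (236,1,0,3,5,0), (510,1,0,3,4,1), (368,1,0,3,3,2), (100,1,0,3,2,3), (8,1,0,3,1,4), (114,1,0,2,6,0), (298,1,0,2,5,1), (272,1,0,2,4,2),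 (100,1,0,2,3,3), (12,1,0,2,2,4), (32,1,0,1,7,0), (98,1,0,1,6,1), (108,1,0,1,5,2), (50,1,0,1,4,3), (8,1,0,1,3,4), (4,1,0,0,8,0), (14,1,0,0,7,1), (18,1,0,0,6,2), (10,1,0,0,5,3), (2,1,0,0,4,4), (2,0,9,0,0,0), (23,0,8,1,0,0), (23,0,8,0,1,0), (7,0,8,0,0,1), (97,0,7,2,0,0), (202,0,7,1,1,0), (66,0,7,1,0,1), (101,0,7,0,2,0), (66,0,7,0,1,1), (9,0,7,0,0,2), (197,0,6,3,0,0), (631,0,6,2,1,0), (219,0,6,2,0,1), (651,0,6,1,2,0), (458,0,6,1,1,1), (67,0,6,1,0,2), (217,0,6,0,3,0), (229,0,6,0,2,1), (67,0,6,0,1,2), (5,0,6,0,0,3), (231,0,5,4,0,0), (970,0,5,3,1,0), (344,0,5,3,0,1), (1493,0,5,2,2,0), (1102,0,5,2,1,1), (170,0,5,2,0,2), (1008,0,5,1,3,0), (1137,0,5,1,2,1), (356,0,5,1,1,2), (28,0,5,1,0,3), (252,0,5,0,4,0), (379,0,5,0,3,1), (178,0,5,0,2,2), (28,0,5,0,1,3), (1,0,5,0,0,4),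 (163,0,4,5,0,0), (881,0,4,4,1,0), (323,0,4,4,0,1), (1769,0,4,3,2,0), (1344,0,4,3,1,1), (210,0,4,3,0,2), (1743,0,4,2,3,0), (2048,0,4,2,2,1), (664,0,4,2,1,2), (54,0,4,2,0,3), (865,0,4,1,4,0), (1376,0,4,1,3,1), (681,0,4,1,2,2), (112,0,4,1,1,3), (4,0,4,1,0,4), (173,0,4,0,5,0), (344,0,4,0,4,1), (227,0,4,0,3,2), (56,0,4,0,2,3), (4,0,4,0,1,4), (61,0,3,6,0,0), (460,0,3,5,1,0), (170,0,3,5,0,1), (1198,0,3,4,2,0), (936,0,3,4,1,1), (151,0,3,4,0,2), (1552,0,3,3,3,0), (1877,0,3,3,2,1), (624,0,3,3,1,2), (52,0,3,3,0,3), (1118,0,3,2,4,0), (1839,0,3,2,3,1), (940,0,3,2,2,2), (160,0,3,2,1,3), (6,0,3,2,0,4), (438,0,3,1,5,0), (910,0,3,1,4,1), (628,0,3,1,3,2), (162,0,3,1,2,3), (12,0,3,1,1,4), (73,0,3,0,6,0), (182,0,3,0,5,1), (157,0,3,0,4,2), (54,0,3,0,3,3), (6,0,3,0,2,4), (9,0,2,7,0,0),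 (117,0,2,6,1,0), (39,0,2,6,0,1), (414,0,2,5,2,0), (322,0,2,5,1,1), (51,0,2,5,0,2), (702,0,2,4,3,0), (865,0,2,4,2,1), (293,0,2,4,1,2), (25,0,2,4,0,3), (675,0,2,3,4,0), (1136,0,2,3,3,1), (595,0,2,3,2,2), (104,0,2,3,1,3), (4,0,2,3,0,4), (387,0,2,2,5,0), (824,0,2,2,4,1), (585,0,2,2,3,2), (156,0,2,2,2,3), (12,0,2,2,1,4), (126,0,2,1,6,0), (324,0,2,1,5,1), (290,0,2,1,4,2), (104,0,2,1,3,3), (12,0,2,1,2,4), (18,0,2,0,7,0), (54,0,2,0,6,1), (58,0,2,0,5,2), (26,0,2,0,4,3), (4,0,2,0,3,4), (10,0,1,7,1,0), (2,0,1,7,0,1), (53,0,1,6,2,0), (38,0,1,6,1,1), (5,0,1,6,0,2), (120,0,1,5,3,0), (146,0,1,5,2,1), (48,0,1,5,1,2), (4,0,1,5,0,3), (152,0,1,4,4,0), (258,0,1,4,3,1), (136,0,1,4,2,2), (24,0,1,4,1,3), (1,0,1,4,0,4), (118,0,1,3,5,0), (255,0,1,3,4,1), (184,0,1,3,3,2), (50,0,1,3,2,3),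 (4,0,1,3,1,4), (57,0,1,2,6,0), (149,0,1,2,5,1), (136,0,1,2,4,2), (50,0,1,2,3,3), (6,0,1,2,2,4), (16,0,1,1,7,0), (49,0,1,1,6,1), (54,0,1,1,5,2), (25,0,1,1,4,3), (4,0,1,1,3,4), (2,0,1,0,8,0), (7,0,1,0,7,1), (9,0,1,0,6,2), (5,0,1,0,5,3), (1,0,1,0,4,4)] := by
    subst hR hp hP he hS hX hs hz
    simp only [ev]
    ring
  rw [h]
  exact ev_nonneg hy hu hr hg hc _

set_option maxRecDepth 100000 in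
theorem mb_W (y u r g c z s X S e0 P0 p1 R0 : ℝ) (hy : 0 ≤ y) (hu : 0 ≤ u) (hr : 0 ≤ r) (hg : 0 ≤ g) (hc : 0 ≤ c)
  (hz : z = y+u) (hs : s = z+y+r+g) (hX : X = s+y+c) (hS : S = X+s)
  (he : e0 = (y+s)*S-y*s-y*(u+r)-u^2) (hP : P0 = z*u*(S-z)+y*r*(S-s+z)) (hp : p1 = S-s+z)
  (hR : R0 = (u+r)*S-y*(u+r)-u^2) :
    0 ≤ (g*((z+y)*(X+z-2*y)*((e0+y*s)*((X-y)*X*s^2*(s+y)+P0*(e0-(X-y)*s))) - 2*y*u*((e0+X*s)*((X-y)*s*(X*s*(s+y)+s*e0-P0)+R0*(X*s*(s+y)+S*e0-P0)-e0*P0))) + y*(((z+y)*(X+z-2*y)*((e0+y*s)*((X-y)*X*s^2*(s+y)+P0*(e0-(X-y)*s))) - 2*y*u*((e0+X*s)*((X-y)*s*(X*s*(s+y)+s*e0-P0)+R0*(X*s*(s+y)+S*e0-P0)-e0*P0))) + r^2*(((z+y)*(X+z-2*y)*((e0+y*s)*(p1*(e0-(X-y)*s)-P0)-((X-y)*X*s^2*(s+y)+P0*(e0-(X-y)*s))) - 2*y*u*((e0+X*s)*(-((X-y)*s*(s+p1))-(X*s*(s+y)+S*e0-P0)-R0*(S+p1)+P0-e0*p1)-((X-y)*s*(X*s*(s+y)+s*e0-P0)+R0*(X*s*(s+y)+S*e0-P0)-e0*P0)))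 + r^2*((z+y)*(X+z-2*y)*((e0+y*s)*(-p1)-(p1*(e0-(X-y)*s)-P0)) - 2*y*u*((e0+X*s)*(S+p1+p1)-(-((X-y)*s*(s+p1))-(X*s*(s+y)+S*e0-P0)-R0*(S+p1)+P0-e0*p1)))))) := by
  have h : (g*((z+y)*(X+z-2*y)*((e0+y*s)*((X-y)*X*s^2*(s+y)+P0*(e0-(X-y)*s))) - 2*y*u*((e0+X*s)*((X-y)*s*(X*s*(s+y)+s*e0-P0)+R0*(X*s*(s+y)+S*e0-P0)-e0*P0))) + y*(((z+y)*(X+z-2*y)*((e0+y*s)*((X-y)*X*s^2*(s+y)+P0*(e0-(X-y)*s))) - 2*y*u*((e0+X*s)*((X-y)*s*(X*s*(s+y)+s*e0-P0)+R0*(X*s*(s+y)+S*e0-P0)-e0*P0))) + r^2*(((z+y)*(X+z-2*y)*((e0+y*s)*(p1*(e0-(X-y)*s)-P0)-((X-y)*X*s^2*(s+y)+P0*(e0-(X-y)*s))) - 2*y*u*((e0+X*s)*(-((X-y)*s*(s+p1))-(X*s*(s+y)+S*e0-P0)-R0*(S+p1)+P0-e0*p1)-((X-y)*s*(X*s*(s+y)+s*e0-P0)+R0*(X*s*(s+y)+S*e0-P0)-e0*P0))) + r^2*((z+y)*(X+z-2*y)*((e0+y*s)*(-p1)-(p1*(e0-(X-y)*s)-P0)) - 2*y*u*((e0+X*s)*(S+p1+p1)-(-((X-y)*s*(s+p1))-(X*s*(s+y)+S*e0-P0)-R0*(S+p1)+P0-e0*p1))))))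 = ev y u r g c [(4320,10,0,0,0,0), (14192,9,1,0,0,0), (16560,9,0,1,0,0), (19008,9,0,0,1,0), (6624,9,0,0,0,1), (14116,8,2,0,0,0), (37480,8,1,1,0,0), (55528,8,1,0,1,0), (20060,8,1,0,0,1), (27108,8,0,2,0,0), (63924,8,0,1,1,0), (21444,8,0,1,0,1), (36432,8,0,0,2,0), (26160,8,0,0,1,1), (3672,8,0,0,0,2), (8614,7,3,0,0,0), (19794,7,2,1,0,0), (48514,7,2,0,1,0), (20164,7,2,0,0,1), (49482,7,1,2,0,0), (126096,7,1,1,1,0), (45304,7,1,1,0,1), (93120,7,1,0,2,0), (70170,7,1,0,1,1), (10154,7,1,0,0,2), (24142,7,0,3,0,0), (90012,7,0,2,1,0), (29196,7,0,2,0,1), (105550,7,0,1,2,0), (73652,7,0,1,1,1), (9870,7,0,1,0,2), (40048,7,0,0,3,0), (44104,7,0,0,2,1), (12888,7,0,0,1,2), (864,7,0,0,0,3), (7528,6,4,0,0,0), (1653,6,3,1,0,0), (26483,6,3,0,1,0), (12537,6,3,0,0,1), (20484,6,2,2,0,0), (54386,6,2,1,1,0),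 (28903,6,2,1,0,1), (70506,6,2,0,2,0), (62559,6,2,0,1,1), (9595,6,2,0,0,2), (39395,6,1,3,0,0), (130792,6,1,2,1,0), (48352,6,1,2,0,1), (177675,6,1,1,2,0), (136690,6,1,1,1,1), (19017,6,1,1,0,2), (88114,6,1,0,3,0), (102738,6,1,0,2,1), (31388,6,1,0,1,2), (2160,6,1,0,0,3), (12550,6,0,4,0,0), (68516,6,0,3,1,0), (21008,6,0,3,0,1), (125680,6,0,2,2,0), (85056,6,0,2,1,1), (10898,6,0,2,0,2), (97952,6,0,1,3,0), (105352,6,0,1,2,1), (29792,6,0,1,1,2), (1896,6,0,1,0,3), (27886,6,0,0,4,0), (41644,6,0,0,3,1), (18798,6,0,0,2,2), (2664,6,0,0,1,3), (72,6,0,0,0,4), (5770,5,5,0,0,0), (5863,5,4,1,0,0), (22319,5,4,0,1,0), (7999,5,4,0,0,1), (682,5,3,2,0,0), (3863,5,3,1,1,0), (11309,5,3,1,0,1), (34819,5,3,0,2,0), (35432,5,3,0,1,1), (5377,5,3,0,0,2), (19410,5,2,3,0,0), (26347,5,2,2,1,0),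 (23996,5,2,2,0,1), (62514,5,2,1,2,0), (77333,5,2,1,1,1), (12364,5,2,1,0,2), (57581,5,2,0,3,0), (79825,5,2,0,2,1), (26328,5,2,0,1,2), (1814,5,2,0,0,3), (18693,5,1,4,0,0), (77598,5,1,3,1,0), (29844,5,1,3,0,1), (143536,5,1,2,2,0), (115676,5,1,2,1,1), (15899,5,1,2,0,2), (138284,5,1,1,3,0), (167374,5,1,1,2,1), (50616,5,1,1,1,2), (3242,5,1,1,0,3), (51875,5,1,0,4,0), (82602,5,1,0,3,1), (39307,5,1,0,2,2), (5814,5,1,0,1,3), (162,5,1,0,0,4), (3832,5,0,5,0,0), (30462,5,0,4,1,0), (8408,5,0,4,0,1), (79564,5,0,3,2,0), (51552,5,0,3,1,1), (6094,5,0,3,0,2), (96190,5,0,2,3,0), (100708,5,0,2,2,1), (27398,5,0,2,1,2), (1644,5,0,2,0,3), (56080,5,0,1,4,0), (82052,5,0,1,3,1), (36074,5,0,1,2,2), (4940,5,0,1,1,3), (126,5,0,1,0,4), (12776,5,0,0,5,0), (24160,5,0,0,4,1), (14864,5,0,0,3,2),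 (3288,5,0,0,2,3), (192,5,0,0,1,4), (2400,4,6,0,0,0), (7142,4,5,1,0,0), (15508,4,5,0,1,0), (4086,4,5,0,0,1), (4943,4,4,2,0,0), (18827,4,4,1,1,0), (8319,4,4,1,0,1), (27624,4,4,0,2,0), (20954,4,4,0,1,1), (2570,4,4,0,0,2), (1260,4,3,3,0,0), (1,4,3,2,1,0), (8144,4,3,2,0,1), (3813,4,3,1,2,0), (30889,4,3,1,1,1), (5343,4,3,1,0,2), (26750,4,3,0,3,0), (40900,4,3,0,2,1), (13399,4,3,0,1,2), (845,4,3,0,0,3), (10463,4,2,4,0,0), (10416,4,2,3,1,0), (14871,4,2,3,0,1), (11291,4,2,2,2,0), (43955,4,2,2,1,1), (8022,4,2,2,0,2), (42760,4,2,1,3,0), (83708,4,2,1,2,1), (29838,4,2,1,1,2), (1943,4,2,1,0,3), (29450,4,2,0,4,0), (55388,4,2,0,3,1), (28506,4,2,0,2,2), (4309,4,2,0,1,3), (115,4,2,0,0,4), (5034,4,1,5,0,0), (26183,4,1,4,1,0), (10468,4,1,4,0,1), (61470,4,1,3,2,0), (53216,4,1,3,1,1),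 (7281,4,1,3,0,2), (85933,4,1,2,3,0), (110966,4,1,2,2,1), (33671,4,1,2,1,2), (2032,4,1,2,0,3), (65370,4,1,1,4,0), (109154,4,1,1,3,1), (52235,4,1,1,2,2), (7456,4,1,1,1,3), (185,4,1,1,0,4), (19674,4,1,0,5,0), (39896,4,1,0,4,1), (26014,4,1,0,3,2), (6048,4,1,0,2,3), (372,4,1,0,1,4), (644,4,0,6,0,0), (8032,4,0,5,1,0), (1828,4,0,5,0,1), (28804,4,0,4,2,0), (17452,4,0,4,1,1), (1758,4,0,4,0,2), (48668,4,0,3,3,0), (49254,4,0,3,2,1), (12652,4,0,3,1,2), (672,4,0,3,0,3), (43724,4,0,2,4,0), (62514,4,0,2,3,1), (26604,4,0,2,2,2), (3468,4,0,2,1,3), (82,4,0,2,0,4), (20328,4,0,1,5,0), (37758,4,0,1,4,1), (22712,4,0,1,3,2), (4886,4,0,1,2,3), (276,4,0,1,1,4), (3856,4,0,0,6,0), (8838,4,0,0,5,1), (6910,4,0,0,4,2), (2098,4,0,0,3,3), (194,4,0,0,2,4), (510,3,7,0,0,0), (2754,3,6,1,0,0), (5526,3,6,0,1,0),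 (1144,3,6,0,0,1), (4649,3,5,2,0,0), (17750,3,5,1,1,0), (4399,3,5,1,0,1), (16251,3,5,0,2,0), (9347,3,5,0,1,1), (884,3,5,0,0,2), (4425,3,4,3,0,0), (11014,3,4,2,1,0), (5427,3,4,2,0,1), (25470,3,4,1,2,0), (21120,3,4,1,1,1), (2505,3,4,1,0,2), (18989,3,4,0,3,0), (21512,3,4,0,2,1), (5758,3,4,0,1,2), (291,3,4,0,0,3), (1709,3,3,4,0,0), (1,3,3,3,1,0), (5767,3,3,3,0,1), (15371,3,3,2,1,1), (3076,3,3,2,0,2), (14326,3,3,1,3,0), (35200,3,3,1,2,1), (12492,3,3,1,1,2), (741,3,3,1,0,3), (6446,3,3,0,4,0), (25757,3,3,0,3,1), (12822,3,3,0,2,2), (1800,3,3,0,1,3), (41,3,3,0,0,4), (2731,3,2,5,0,0), (667,3,2,4,1,0), (5245,3,2,4,0,1), (16104,3,2,3,1,1), (3360,3,2,3,0,2), (4817,3,2,2,3,0), (36783,3,2,2,2,1), (14805,3,2,2,1,2), (940,3,2,2,0,3), (20413,3,2,1,4,0), (49651,3,2,1,3,1), (27358,3,2,1,2,2),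 (4053,3,2,1,1,3), (94,3,2,1,0,4), (9872,3,2,0,5,0), (22967,3,2,0,4,1), (15979,3,2,0,3,2), (3790,3,2,0,2,3), (230,3,2,0,1,4), (658,3,1,6,0,0), (4504,3,1,5,1,0), (1910,3,1,5,0,1), (13688,3,1,4,2,0), (13194,3,1,4,1,1), (1753,3,1,4,0,2), (26212,3,1,3,3,0), (37419,3,1,3,2,1), (11470,3,1,3,1,2), (640,3,1,3,0,3), (30874,3,1,2,4,0), (55433,3,1,2,3,1), (26912,3,1,2,2,2), (3708,3,1,2,1,3), (81,3,1,2,0,4), (19292,3,1,1,5,0), (41127,3,1,1,4,1), (27174,3,1,1,3,2), (6201,3,1,1,2,3), (358,3,1,1,1,4), (4788,3,1,0,6,0), (11807,3,1,0,5,1), (9811,3,1,0,4,2), (3139,3,1,0,3,3), (307,3,1,0,2,4), (46,3,0,7,0,0), (1220,3,0,6,1,0), (184,3,0,6,0,1), (5970,3,0,5,2,0), (3280,3,0,5,1,1), (240,3,0,5,0,2), (13386,3,0,4,3,0), (12960,3,0,4,2,1), (3046,3,0,4,1,2), (124,3,0,4,0,3), (16594,3,0,3,4,0),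 (23110,3,0,3,3,1), (9432,3,0,3,2,2), (1136,3,0,3,1,3), (22,3,0,3,0,4), (11826,3,0,2,5,0), (21546,3,0,2,4,1), (12618,3,0,2,3,2), (2608,3,0,2,2,3), (138,3,0,2,1,4), (4562,3,0,1,6,0), (10294,3,0,1,5,1), (7892,3,0,1,4,2), (2338,3,0,1,3,3), (210,3,0,1,2,4), (740,3,0,0,7,0), (1994,3,0,0,6,1), (1894,3,0,0,5,2), (734,3,0,0,4,3), (94,3,0,0,3,4), (52,2,8,0,0,0), (429,2,7,1,0,0), (959,2,7,0,1,0), (149,2,7,0,0,1), (1219,2,6,2,0,0), (5388,2,6,1,1,0), (948,2,6,1,0,1), (4529,2,6,0,2,0), (2150,2,6,0,1,1), (151,2,6,0,0,2), (1695,2,5,3,0,0), (9317,2,5,2,1,0), (1992,2,5,2,0,1), (16177,2,5,1,2,0), (8770,2,5,1,1,1), (712,2,5,1,0,2), (8557,2,5,0,3,0), (7646,2,5,0,2,1), (1656,2,5,0,1,2), (63,2,5,0,0,3), (1556,2,4,4,0,0), (5808,2,4,3,1,0), (2220,2,4,3,0,1), (14352,2,4,2,2,0), (10907,2,4,2,1,1),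 (1145,2,4,2,0,2), (17959,2,4,1,3,0), (19958,2,4,1,2,1), (5042,2,4,1,1,2), (220,2,4,1,0,3), (7751,2,4,0,4,0), (11276,2,4,0,3,1), (4613,2,4,0,2,2), (537,2,4,0,1,3), (9,2,4,0,0,4), (953,2,3,5,0,0), (1074,2,3,4,1,0), (1807,2,3,4,0,1), (654,2,3,3,2,0), (6550,2,3,3,1,1), (1132,2,3,3,0,2), (6727,2,3,2,3,0), (16736,2,3,2,2,1), (5675,2,3,2,1,2), (305,2,3,2,0,3), (10602,2,3,1,4,0), (21725,2,3,1,3,1), (10712,2,3,1,2,2), (1413,2,3,1,1,3), (27,2,3,1,0,4), (4412,2,3,0,5,0), (9571,2,3,0,4,1), (6173,2,3,0,3,2), (1338,2,3,0,2,3), (72,2,3,0,1,4), (66,2,2,6,0,0), (158,2,2,5,1,0), (824,2,2,5,0,1), (3,2,2,4,2,0), (3517,2,2,4,1,1), (722,2,2,4,0,2), (562,2,2,3,3,0), (10250,2,2,3,2,1), (4195,2,2,3,1,2), (248,2,2,3,0,3), (4451,2,2,2,4,0), (19417,2,2,2,3,1), (10989,2,2,2,2,2), (1562,2,2,2,1,3),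 (31,2,2,2,0,4), (6850,2,2,1,5,0), (17647,2,2,1,4,1), (12557,2,2,1,3,2), (2908,2,2,1,2,3), (162,2,2,1,1,4), (2166,2,2,0,6,0), (5791,2,2,0,5,1), (4975,2,2,0,4,2), (1595,2,2,0,3,3), (153,2,2,0,2,4), (25,2,1,7,0,0), (288,2,1,6,1,0), (136,2,1,6,0,1), (1385,2,1,5,2,0), (1592,2,1,5,1,1), (186,2,1,5,0,2), (4025,2,1,4,3,0), (6496,2,1,4,2,1), (1973,2,1,4,1,2), (92,2,1,4,0,3), (6977,2,1,3,4,0), (13575,2,1,3,3,1), (6660,2,1,3,2,2), (872,2,1,3,1,3), (15,2,1,3,0,4), (6845,2,1,2,5,0), (15413,2,1,2,4,1), (10309,2,1,2,3,2), (2300,2,1,2,2,3), (123,2,1,2,1,4), (3487,2,1,1,6,0), (8949,2,1,1,5,1), (7522,2,1,1,4,2), (2377,2,1,1,3,3), (223,2,1,1,2,4), (716,2,1,0,7,0), (2071,2,1,0,6,1), (2087,2,1,0,5,2), (851,2,1,0,4,3), (115,2,1,0,3,4), (100,2,0,7,1,0), (4,2,0,7,0,1), (664,2,0,6,2,0),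 (320,2,0,6,1,1), (10,2,0,6,0,2), (1908,2,0,5,3,0), (1752,2,0,5,2,1), (364,2,0,5,1,2), (8,2,0,5,0,3), (3074,2,0,4,4,0), (4156,2,0,4,3,1), (1610,2,0,4,2,2), (172,2,0,4,1,3), (2,2,0,4,0,4), (2996,2,0,3,5,0), (5350,2,0,3,4,1), (3040,2,0,3,3,2), (596,2,0,3,2,3), (28,2,0,3,1,4), (1764,2,0,2,6,0), (3918,2,0,2,5,1), (2940,2,0,2,4,2), (844,2,0,2,3,3), (72,2,0,2,2,4), (580,2,0,1,7,0), (1542,2,0,1,6,1), (1440,2,0,1,5,2), (546,2,0,1,4,3), (68,2,0,1,3,4), (82,2,0,0,8,0), (254,2,0,0,7,1), (284,2,0,0,6,2), (134,2,0,0,5,3), (22,2,0,0,4,4), (2,1,9,0,0,0), (23,1,8,1,0,0), (75,1,8,0,1,0), (7,1,8,0,0,1), (97,1,7,2,0,0), (631,1,7,1,1,0), (66,1,7,1,0,1), (550,1,7,0,2,0), (215,1,7,0,1,1), (9,1,7,0,0,2), (197,1,6,3,0,0), (1862,1,6,2,1,0), (219,1,6,2,0,1), (3285,1,6,1,2,0), (1406,1,6,1,1,1),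 (67,1,6,1,0,2), (1620,1,6,0,3,0), (1235,1,6,0,2,1), (218,1,6,0,1,2), (5,1,6,0,0,3), (231,1,5,4,0,0), (2451,1,5,3,1,0), (344,1,5,3,0,1), (6499,1,5,2,2,0), (3088,1,5,2,1,1), (170,1,5,2,0,2), (6577,1,5,1,3,0), (5508,1,5,1,2,1), (1068,1,5,1,1,2), (28,1,5,1,0,3), (2296,1,5,0,4,0), (2764,1,5,0,3,1), (950,1,5,0,2,2), (91,1,5,0,1,3), (1,1,5,0,0,4), (163,1,4,5,0,0), (1549,1,4,4,1,0), (323,1,4,4,0,1), (5368,1,4,3,2,0), (3063,1,4,3,1,1), (210,1,4,3,0,2), (8532,1,4,2,3,0), (8205,1,4,2,2,1), (1776,1,4,2,1,2), (54,1,4,2,0,3), (6318,1,4,1,4,0), (8533,1,4,1,3,1), (3218,1,4,1,2,2), (332,1,4,1,1,3), (4,1,4,1,0,4), (1768,1,4,0,5,0), (3063,1,4,0,4,1), (1652,1,4,0,3,2), (302,1,4,0,2,3), (13,1,4,0,1,4), (61,1,3,6,0,0), (433,1,3,5,1,0), (170,1,3,5,0,1), (1872,1,3,4,2,0), (1584,1,3,4,1,1),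 (151,1,3,4,0,2), (4518,1,3,3,3,0), (5640,1,3,3,2,1), (1441,1,3,3,1,2), (52,1,3,3,0,3), (5702,1,3,2,4,0), (9240,1,3,2,3,1), (3947,1,3,2,2,2), (449,1,3,2,1,3), (6,1,3,2,0,4), (3539,1,3,1,5,0), (7015,1,3,1,4,1), (4191,1,3,1,3,2), (834,1,3,1,2,3), (39,1,3,1,1,4), (855,1,3,0,6,0), (2001,1,3,0,5,1), (1530,1,3,0,4,2), (437,1,3,0,3,3), (37,1,3,0,2,4), (9,1,2,7,0,0), (37,1,2,6,1,0), (39,1,2,6,0,1), (285,1,2,5,2,0), (468,1,2,5,1,1), (51,1,2,5,0,2), (1257,1,2,4,3,0), (2231,1,2,4,2,1), (659,1,2,4,1,2), (25,1,2,4,0,3), (2585,1,2,3,4,0), (5140,1,2,3,3,1), (2462,1,2,3,2,2), (302,1,2,3,1,3), (4,1,2,3,0,4), (2697,1,2,2,5,0), (6100,1,2,2,4,1), (3990,1,2,2,3,2), (852,1,2,2,2,3), (42,1,2,2,1,4), (1401,1,2,1,6,0), (3598,1,2,1,5,1), (2963,1,2,1,4,2), (902,1,2,1,3,3), (80,1,2,1,2,4),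 (289,1,2,0,7,0), (836,1,2,0,6,1), (827,1,2,0,5,2), (326,1,2,0,4,3), (42,1,2,0,3,4), (8,1,1,7,1,0), (2,1,1,7,0,1), (98,1,1,6,2,0), (96,1,1,6,1,1), (5,1,1,6,0,2), (432,1,1,5,3,0), (622,1,1,5,2,1), (164,1,1,5,1,2), (4,1,1,5,0,3), (967,1,1,4,4,0), (1768,1,1,4,3,1), (817,1,1,4,2,2), (96,1,1,4,1,3), (1,1,1,4,0,4), (1228,1,1,3,5,0), (2695,1,1,3,4,1), (1748,1,1,3,3,2), (372,1,1,3,2,3), (18,1,1,3,1,4), (900,1,1,2,6,0), (2299,1,1,2,5,1), (1902,1,1,2,4,2), (584,1,1,2,3,3), (52,1,1,2,2,4), (356,1,1,1,7,0), (1037,1,1,1,6,1), (1038,1,1,1,5,2), (415,1,1,1,4,3), (54,1,1,1,3,4), (59,1,1,0,8,0), (193,1,1,0,7,1), (226,1,1,0,6,2), (111,1,1,0,5,3), (19,1,1,0,4,4), (4,1,0,8,1,0), (32,1,0,7,2,0), (14,1,0,7,1,1), (112,1,0,6,3,0), (98,1,0,6,2,1), (18,1,0,6,1,2), (224,1,0,5,4,0), (294,1,0,5,3,1),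 (108,1,0,5,2,2), (10,1,0,5,1,3), (280,1,0,4,5,0), (490,1,0,4,4,1), (270,1,0,4,3,2), (50,1,0,4,2,3), (2,1,0,4,1,4), (224,1,0,3,6,0), (490,1,0,3,5,1), (360,1,0,3,4,2), (100,1,0,3,3,3), (8,1,0,3,2,4), (112,1,0,2,7,0), (294,1,0,2,6,1), (270,1,0,2,5,2), (100,1,0,2,4,3), (12,1,0,2,3,4), (32,1,0,1,8,0), (98,1,0,1,7,1), (108,1,0,1,6,2), (50,1,0,1,5,3), (8,1,0,1,4,4), (4,1,0,0,9,0), (14,1,0,0,8,1), (18,1,0,0,7,2), (10,1,0,0,6,3), (2,1,0,0,5,4), (2,0,9,0,1,0), (23,0,8,1,1,0), (23,0,8,0,2,0), (7,0,8,0,1,1), (101,0,7,2,1,0), (202,0,7,1,2,0), (66,0,7,1,1,1), (101,0,7,0,3,0), (66,0,7,0,2,1), (9,0,7,0,1,2), (217,0,6,3,1,0), (651,0,6,2,2,0), (229,0,6,2,1,1), (651,0,6,1,3,0), (458,0,6,1,2,1), (67,0,6,1,1,2), (217,0,6,0,4,0), (229,0,6,0,3,1), (67,0,6,0,2,2), (5,0,6,0,1,3), (252,0,5,4,1,0),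 (1008,0,5,3,2,0), (379,0,5,3,1,1), (1512,0,5,2,3,0), (1137,0,5,2,2,1), (178,0,5,2,1,2), (1008,0,5,1,4,0), (1137,0,5,1,3,1), (356,0,5,1,2,2), (28,0,5,1,1,3), (252,0,5,0,5,0), (379,0,5,0,4,1), (178,0,5,0,3,2), (28,0,5,0,2,3), (1,0,5,0,1,4), (173,0,4,5,1,0), (865,0,4,4,2,0), (344,0,4,4,1,1), (1730,0,4,3,3,0), (1376,0,4,3,2,1), (227,0,4,3,1,2), (1730,0,4,2,4,0), (2064,0,4,2,3,1), (681,0,4,2,2,2), (56,0,4,2,1,3), (865,0,4,1,5,0), (1376,0,4,1,4,1), (681,0,4,1,3,2), (112,0,4,1,2,3), (4,0,4,1,1,4), (173,0,4,0,6,0), (344,0,4,0,5,1), (227,0,4,0,4,2), (56,0,4,0,3,3), (4,0,4,0,2,4), (73,0,3,6,1,0), (438,0,3,5,2,0), (182,0,3,5,1,1), (1095,0,3,4,3,0), (910,0,3,4,2,1), (157,0,3,4,1,2), (1460,0,3,3,4,0), (1820,0,3,3,3,1), (628,0,3,3,2,2), (54,0,3,3,1,3), (1095,0,3,2,5,0), (1820,0,3,2,4,1),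 (942,0,3,2,3,2), (162,0,3,2,2,3), (6,0,3,2,1,4), (438,0,3,1,6,0), (910,0,3,1,5,1), (628,0,3,1,4,2), (162,0,3,1,3,3), (12,0,3,1,2,4), (73,0,3,0,7,0), (182,0,3,0,6,1), (157,0,3,0,5,2), (54,0,3,0,4,3), (6,0,3,0,3,4), (18,0,2,7,1,0), (126,0,2,6,2,0), (54,0,2,6,1,1), (378,0,2,5,3,0), (324,0,2,5,2,1), (58,0,2,5,1,2), (630,0,2,4,4,0), (810,0,2,4,3,1), (290,0,2,4,2,2), (26,0,2,4,1,3), (630,0,2,3,5,0), (1080,0,2,3,4,1), (580,0,2,3,3,2), (104,0,2,3,2,3), (4,0,2,3,1,4), (378,0,2,2,6,0), (810,0,2,2,5,1), (580,0,2,2,4,2), (156,0,2,2,3,3), (12,0,2,2,2,4), (126,0,2,1,7,0), (324,0,2,1,6,1), (290,0,2,1,5,2), (104,0,2,1,4,3), (12,0,2,1,3,4), (18,0,2,0,8,0), (54,0,2,0,7,1), (58,0,2,0,6,2), (26,0,2,0,5,3), (4,0,2,0,4,4), (2,0,1,8,1,0), (16,0,1,7,2,0), (7,0,1,7,1,1), (56,0,1,6,3,0),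 (49,0,1,6,2,1), (9,0,1,6,1,2), (112,0,1,5,4,0), (147,0,1,5,3,1), (54,0,1,5,2,2), (5,0,1,5,1,3), (140,0,1,4,5,0), (245,0,1,4,4,1), (135,0,1,4,3,2), (25,0,1,4,2,3), (1,0,1,4,1,4), (112,0,1,3,6,0), (245,0,1,3,5,1), (180,0,1,3,4,2), (50,0,1,3,3,3), (4,0,1,3,2,4), (56,0,1,2,7,0), (147,0,1,2,6,1), (135,0,1,2,5,2), (50,0,1,2,4,3), (6,0,1,2,3,4), (16,0,1,1,8,0), (49,0,1,1,7,1), (54,0,1,1,6,2), (25,0,1,1,5,3), (4,0,1,1,4,4), (2,0,1,0,9,0), (7,0,1,0,8,1), (9,0,1,0,7,2), (5,0,1,0,6,3), (1,0,1,0,5,4)] + (5222*(y^4*u^3*r)*(r-g)^2 + 910*(y^3*u^3*r^2)*(r-g)^2 + 1746*(y^3*u^3)*(r^2-2*g^2)^2 + 1942*(y^3*u^2*r^2*g)*(r-g)^2 + 221*(y^2*u^2*r^2)*(r^2-3*g^2)^2) := by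
    subst hR hp hP he hS hX hs hz
    simp only [ev]
    ring
  rw [h]
  have h1 := ev_nonneg hy hu hr hg hc []
  have h2 : 0 ≤ 5222*(y^4*u^3*r)*(r-g)^2 + 910*(y^3*u^3*r^2)*(r-g)^2 + 1746*(y^3*u^3)*(r^2-2*g^2)^2 + 1942*(y^3*u^2*r^2*g)*(r-g)^2 + 221*(y^2*u^2*r^2)*(r^2-3*g^2)^2 := by positivity
  exact add_nonneg (ev_nonneg hy hu hr hg hc _) h2

set_option maxRecDepth 100000 in
theorem mb_F00 (u r g c z s X S e0 P0 R0 : ℝ) (hu : 0 ≤ u) (hr : 0 ≤ r) (hg : 0 ≤ g) (hc : 0 ≤ c)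
  (hz : z = u) (hs : s = z+r+g) (hX : X = s+c) (hS : S = X+s)
  (he : e0 = s*S-u^2) (hP : P0 = z*u*(S-z)) (hR : R0 = (u+r)*S-u^2) :
    0 ≤ z*(X+z)*(e0*(X*X*s^2*s+P0*(e0-X*s))) := by
  have h : z*(X+z)*(e0*(X*X*s^2*s+P0*(e0-X*s))) = ev 0 u r g c [(2,0,9,0,0,0), (23,0,8,1,0,0), (23,0,8,0,1,0), (7,0,8,0,0,1), (101,0,7,2,0,0), (202,0,7,1,1,0), (66,0,7,1,0,1), (101,0,7,0,2,0), (66,0,7,0,1,1), (9,0,7,0,0,2), (217,0,6,3,0,0), (651,0,6,2,1,0), (229,0,6,2,0,1), (651,0,6,1,2,0), (458,0,6,1,1,1), (67,0,6,1,0,2), (217,0,6,0,3,0), (229,0,6,0,2,1), (67,0,6,0,1,2), (5,0,6,0,0,3), (252,0,5,4,0,0), (1008,0,5,3,1,0), (379,0,5,3,0,1), (1512,0,5,2,2,0), (1137,0,5,2,1,1), (178,0,5,2,0,2), (1008,0,5,1,3,0), (1137,0,5,1,2,1), (356,0,5,1,1,2), (28,0,5,1,0,3), (252,0,5,0,4,0), (379,0,5,0,3,1),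 (178,0,5,0,2,2), (28,0,5,0,1,3), (1,0,5,0,0,4), (173,0,4,5,0,0), (865,0,4,4,1,0), (344,0,4,4,0,1), (1730,0,4,3,2,0), (1376,0,4,3,1,1), (227,0,4,3,0,2), (1730,0,4,2,3,0), (2064,0,4,2,2,1), (681,0,4,2,1,2), (56,0,4,2,0,3), (865,0,4,1,4,0), (1376,0,4,1,3,1), (681,0,4,1,2,2), (112,0,4,1,1,3), (4,0,4,1,0,4), (173,0,4,0,5,0), (344,0,4,0,4,1), (227,0,4,0,3,2), (56,0,4,0,2,3), (4,0,4,0,1,4), (73,0,3,6,0,0), (438,0,3,5,1,0), (182,0,3,5,0,1), (1095,0,3,4,2,0), (910,0,3,4,1,1), (157,0,3,4,0,2), (1460,0,3,3,3,0), (1820,0,3,3,2,1), (628,0,3,3,1,2), (54,0,3,3,0,3), (1095,0,3,2,4,0), (1820,0,3,2,3,1), (942,0,3,2,2,2), (162,0,3,2,1,3), (6,0,3,2,0,4), (438,0,3,1,5,0), (910,0,3,1,4,1), (628,0,3,1,3,2), (162,0,3,1,2,3), (12,0,3,1,1,4), (73,0,3,0,6,0), (182,0,3,0,5,1), (157,0,3,0,4,2),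 (54,0,3,0,3,3), (6,0,3,0,2,4), (18,0,2,7,0,0), (126,0,2,6,1,0), (54,0,2,6,0,1), (378,0,2,5,2,0), (324,0,2,5,1,1), (58,0,2,5,0,2), (630,0,2,4,3,0), (810,0,2,4,2,1), (290,0,2,4,1,2), (26,0,2,4,0,3), (630,0,2,3,4,0), (1080,0,2,3,3,1), (580,0,2,3,2,2), (104,0,2,3,1,3), (4,0,2,3,0,4), (378,0,2,2,5,0), (810,0,2,2,4,1), (580,0,2,2,3,2), (156,0,2,2,2,3), (12,0,2,2,1,4), (126,0,2,1,6,0), (324,0,2,1,5,1), (290,0,2,1,4,2), (104,0,2,1,3,3), (12,0,2,1,2,4), (18,0,2,0,7,0), (54,0,2,0,6,1), (58,0,2,0,5,2), (26,0,2,0,4,3), (4,0,2,0,3,4), (2,0,1,8,0,0), (16,0,1,7,1,0), (7,0,1,7,0,1), (56,0,1,6,2,0), (49,0,1,6,1,1), (9,0,1,6,0,2), (112,0,1,5,3,0), (147,0,1,5,2,1), (54,0,1,5,1,2), (5,0,1,5,0,3), (140,0,1,4,4,0), (245,0,1,4,3,1), (135,0,1,4,2,2), (25,0,1,4,1,3), (1,0,1,4,0,4), (112,0,1,3,5,0),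 (245,0,1,3,4,1), (180,0,1,3,3,2), (50,0,1,3,2,3), (4,0,1,3,1,4), (56,0,1,2,6,0), (147,0,1,2,5,1), (135,0,1,2,4,2), (50,0,1,2,3,3), (6,0,1,2,2,4), (16,0,1,1,7,0), (49,0,1,1,6,1), (54,0,1,1,5,2), (25,0,1,1,4,3), (4,0,1,1,3,4), (2,0,1,0,8,0), (7,0,1,0,7,1), (9,0,1,0,6,2), (5,0,1,0,5,3), (1,0,1,0,4,4)] := by
    subst hR hP he hS hX hs hz
    simp only [ev]
    ring
  rw [h]
  exact ev_nonneg (le_refl _) hu hr hg hc _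

set_option maxRecDepth 100000 in
theorem mb_D0 (y u r g c z s X S e0 P0 p1 R0 : ℝ) (hy : 0 ≤ y) (hu : 0 ≤ u) (hr : 0 ≤ r) (hg : 0 ≤ g) (hc : 0 ≤ c)
  (hz : z = y+u) (hs : s = z+y+r+g) (hX : X = s+y+c) (hS : S = X+s)
  (he : e0 = (y+s)*S-y*s-y*(u+r)-u^2) (hP : P0 = z*u*(S-z)+y*r*(S-s+z)) (hp : p1 = S-s+z)
  (hR : R0 = (u+r)*S-y*(u+r)-u^2) :
    0 ≤ ((z+y)*(X+z-2*y)*((e0+y*s)*((X-y)*s)) - 2*y*u*((e0+X*s)*((X-y)*s+R0))) := by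
  have h : ((z+y)*(X+z-2*y)*((e0+y*s)*((X-y)*s)) - 2*y*u*((e0+X*s)*((X-y)*s+R0))) = ev y u r g c [(240,6,0,0,0,0), (608,5,1,0,0,0), (520,5,0,1,0,0), (536,5,0,0,1,0), (288,5,0,0,0,1), (540,4,2,0,0,0), (948,4,1,1,0,0), (1132,4,1,0,1,0), (600,4,1,0,0,1), (452,4,0,2,0,0), (928,4,0,1,1,0), (488,4,0,1,0,1), (476,4,0,0,2,0), (504,4,0,0,1,1), (108,4,0,0,0,2), (294,3,3,0,0,0), (650,3,2,1,0,0), (858,3,2,0,1,0), (456,3,2,0,0,1), (584,3,1,2,0,0), (1384,3,1,1,1,0), (742,3,1,1,0,1), (808,3,1,0,2,0), (844,3,1,0,1,1), (180,3,1,0,0,2), (198,3,0,3,0,0), (606,3,0,2,1,0), (312,3,0,2,0,1), (618,3,0,1,2,0), (640,3,0,1,1,1), (134,3,0,1,0,2), (210,3,0,0,3,0), (328,3,0,0,2,1), (138,3,0,0,1,2), (12,3,0,0,0,3), (118,2,4,0,0,0), (311,2,3,1,0,0), (393,2,3,0,1,0), (195,2,3,0,0,1), (324,2,2,2,0,0),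 (822,2,2,1,1,0), (441,2,2,1,0,1), (502,2,2,0,2,0), (517,2,2,0,1,1), (107,2,2,0,0,2), (179,2,1,3,0,0), (625,2,1,2,1,0), (338,2,1,2,0,1), (717,2,1,1,2,0), (754,2,1,1,1,1), (161,2,1,1,0,2), (271,2,1,0,3,0), (418,2,1,0,2,1), (175,2,1,0,1,2), (16,2,1,0,0,3), (44,2,0,4,0,0), (178,2,0,3,1,0), (90,2,0,3,0,1), (270,2,0,2,2,0), (274,2,0,2,1,1), (56,2,0,2,0,2), (182,2,0,1,3,0), (278,2,0,1,2,1), (114,2,0,1,1,2), (10,2,0,1,0,3), (46,2,0,0,4,0), (94,2,0,0,3,1), (58,2,0,0,2,2), (10,2,0,0,1,3), (26,1,5,0,0,0), (104,1,4,1,0,0), (114,1,4,0,1,0), (50,1,4,0,0,1), (140,1,3,2,0,0), (317,1,3,1,1,0), (153,1,3,1,0,1), (177,1,3,0,2,0), (168,1,3,0,1,1), (31,1,3,0,0,2), (88,1,2,3,0,0), (304,1,2,2,1,0), (158,1,2,2,0,1), (344,1,2,1,2,0), (349,1,2,1,1,1), (71,1,2,1,0,2), (128,1,2,0,3,0), (191,1,2,0,2,1),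 (76,1,2,0,1,2), (7,1,2,0,0,3), (28,1,1,4,0,0), (125,1,1,3,1,0), (67,1,1,3,0,1), (207,1,1,2,2,0), (217,1,1,2,1,1), (46,1,1,2,0,2), (151,1,1,1,3,0), (233,1,1,1,2,1), (97,1,1,1,1,2), (9,1,1,1,0,3), (41,1,1,0,4,0), (83,1,1,0,3,1), (51,1,1,0,2,2), (9,1,1,0,1,3), (4,1,0,5,0,0), (20,1,0,4,1,0), (10,1,0,4,0,1), (40,1,0,3,2,0), (40,1,0,3,1,1), (8,1,0,3,0,2), (40,1,0,2,3,0), (60,1,0,2,2,1), (24,1,0,2,1,2), (2,1,0,2,0,3), (20,1,0,1,4,0), (40,1,0,1,3,1), (24,1,0,1,2,2), (4,1,0,1,1,3), (4,1,0,0,5,0), (10,1,0,0,4,1), (8,1,0,0,3,2), (2,1,0,0,2,3), (2,0,6,0,0,0), (13,0,5,1,0,0), (13,0,5,0,1,0), (5,0,5,0,0,1), (28,0,4,2,0,0), (56,0,4,1,1,0), (24,0,4,1,0,1), (28,0,4,0,2,0), (24,0,4,0,1,1), (4,0,4,0,0,2), (27,0,3,3,0,0), (81,0,3,2,1,0), (37,0,3,2,0,1), (81,0,3,1,2,0), (74,0,3,1,1,1),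 (13,0,3,1,0,2), (27,0,3,0,3,0), (37,0,3,0,2,1), (13,0,3,0,1,2), (1,0,3,0,0,3), (12,0,2,4,0,0), (48,0,2,3,1,0), (23,0,2,3,0,1), (72,0,2,2,2,0), (69,0,2,2,1,1), (13,0,2,2,0,2), (48,0,2,1,3,0), (69,0,2,1,2,1), (26,0,2,1,1,2), (2,0,2,1,0,3), (12,0,2,0,4,0), (23,0,2,0,3,1), (13,0,2,0,2,2), (2,0,2,0,1,3), (2,0,1,5,0,0), (10,0,1,4,1,0), (5,0,1,4,0,1), (20,0,1,3,2,0), (20,0,1,3,1,1), (4,0,1,3,0,2), (20,0,1,2,3,0), (30,0,1,2,2,1), (12,0,1,2,1,2), (1,0,1,2,0,3), (10,0,1,1,4,0), (20,0,1,1,3,1), (12,0,1,1,2,2), (2,0,1,1,1,3), (2,0,1,0,5,0), (5,0,1,0,4,1), (4,0,1,0,3,2), (1,0,1,0,2,3)] := by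
    subst hR hp hP he hS hX hs hz
    simp only [ev]
    ring
  rw [h]
  exact ev_nonneg hy hu hr hg hc _

set_option maxRecDepth 100000 in
theorem mb_DE (y u r g c z s X S e0 P0 p1 R0 : ℝ) (hy : 0 ≤ y) (hu : 0 ≤ u) (hr : 0 ≤ r) (hg : 0 ≤ g) (hc : 0 ≤ c)
  (hz : z = y+u) (hs : s = z+y+r+g) (hX : X = s+y+c) (hS : S = X+s)
  (he : e0 = (y+s)*S-y*s-y*(u+r)-u^2) (hP : P0 = z*u*(S-z)+y*r*(S-s+z)) (hp : p1 = S-s+z)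
  (hR : R0 = (u+r)*S-y*(u+r)-u^2) :
    0 ≤ (((z+y)*(X+z-2*y)*((e0+y*s)*((X-y)*s)) - 2*y*u*((e0+X*s)*((X-y)*s+R0))) + r^2*((-((z+y)*(X+z-2*y)*((X-y)*s)) + 2*y*u*((X-y)*s+R0+(e0+X*s))) + r^2*(-(2*y*u)))) := by
  have h : (((z+y)*(X+z-2*y)*((e0+y*s)*((X-y)*s)) - 2*y*u*((e0+X*s)*((X-y)*s+R0))) + r^2*((-((z+y)*(X+z-2*y)*((X-y)*s)) + 2*y*u*((X-y)*s+R0+(e0+X*s))) + r^2*(-(2*y*u)))) = ev y u r g c [(240,6,0,0,0,0), (608,5,1,0,0,0), (520,5,0,1,0,0), (536,5,0,0,1,0), (288,5,0,0,0,1), (540,4,2,0,0,0), (948,4,1,1,0,0), (1132,4,1,0,1,0), (600,4,1,0,0,1), (436,4,0,2,0,0), (928,4,0,1,1,0), (488,4,0,1,0,1), (476,4,0,0,2,0), (504,4,0,0,1,1), (108,4,0,0,0,2), (294,3,3,0,0,0), (650,3,2,1,0,0), (858,3,2,0,1,0), (456,3,2,0,0,1), (590,3,1,2,0,0), (1384,3,1,1,1,0), (742,3,1,1,0,1),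 (808,3,1,0,2,0), (844,3,1,0,1,1), (180,3,1,0,0,2), (174,3,0,3,0,0), (582,3,0,2,1,0), (296,3,0,2,0,1), (618,3,0,1,2,0), (640,3,0,1,1,1), (134,3,0,1,0,2), (210,3,0,0,3,0), (328,3,0,0,2,1), (138,3,0,0,1,2), (12,3,0,0,0,3), (118,2,4,0,0,0), (311,2,3,1,0,0), (393,2,3,0,1,0), (195,2,3,0,0,1), (332,2,2,2,0,0), (822,2,2,1,1,0), (441,2,2,1,0,1), (502,2,2,0,2,0), (517,2,2,0,1,1), (107,2,2,0,0,2), (179,2,1,3,0,0), (619,2,1,2,1,0), (324,2,1,2,0,1), (717,2,1,1,2,0), (754,2,1,1,1,1), (161,2,1,1,0,2), (271,2,1,0,3,0), (418,2,1,0,2,1), (175,2,1,0,1,2), (16,2,1,0,0,3), (32,2,0,4,0,0), (154,2,0,3,1,0), (74,2,0,3,0,1), (258,2,0,2,2,0), (258,2,0,2,1,1), (52,2,0,2,0,2), (182,2,0,1,3,0), (278,2,0,1,2,1), (114,2,0,1,1,2), (10,2,0,1,0,3), (46,2,0,0,4,0), (94,2,0,0,3,1), (58,2,0,0,2,2),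 (10,2,0,0,1,3), (26,1,5,0,0,0), (104,1,4,1,0,0), (114,1,4,0,1,0), (50,1,4,0,0,1), (134,1,3,2,0,0), (317,1,3,1,1,0), (153,1,3,1,0,1), (177,1,3,0,2,0), (168,1,3,0,1,1), (31,1,3,0,0,2), (86,1,2,3,0,0), (298,1,2,2,1,0), (150,1,2,2,0,1), (344,1,2,1,2,0), (349,1,2,1,1,1), (71,1,2,1,0,2), (128,1,2,0,3,0), (191,1,2,0,2,1), (76,1,2,0,1,2), (7,1,2,0,0,3), (24,1,1,4,0,0), (117,1,1,3,1,0), (57,1,1,3,0,1), (201,1,1,2,2,0), (205,1,1,2,1,1), (42,1,1,2,0,2), (151,1,1,1,3,0), (233,1,1,1,2,1), (97,1,1,1,1,2), (9,1,1,1,0,3), (41,1,1,0,4,0), (83,1,1,0,3,1), (51,1,1,0,2,2), (9,1,1,0,1,3), (2,1,0,5,0,0), (14,1,0,4,1,0), (6,1,0,4,0,1), (34,1,0,3,2,0), (32,1,0,3,1,1), (6,1,0,3,0,2), (38,1,0,2,3,0), (56,1,0,2,2,1), (22,1,0,2,1,2), (2,1,0,2,0,3), (20,1,0,1,4,0), (40,1,0,1,3,1), (24,1,0,1,2,2),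 (4,1,0,1,1,3), (4,1,0,0,5,0), (10,1,0,0,4,1), (8,1,0,0,3,2), (2,1,0,0,2,3), (2,0,6,0,0,0), (13,0,5,1,0,0), (13,0,5,0,1,0), (5,0,5,0,0,1), (26,0,4,2,0,0), (56,0,4,1,1,0), (24,0,4,1,0,1), (28,0,4,0,2,0), (24,0,4,0,1,1), (4,0,4,0,0,2), (22,0,3,3,0,0), (76,0,3,2,1,0), (34,0,3,2,0,1), (81,0,3,1,2,0), (74,0,3,1,1,1), (13,0,3,1,0,2), (27,0,3,0,3,0), (37,0,3,0,2,1), (13,0,3,0,1,2), (1,0,3,0,0,3), (8,0,2,4,0,0), (40,0,2,3,1,0), (18,0,2,3,0,1), (68,0,2,2,2,0), (64,0,2,2,1,1), (12,0,2,2,0,2), (48,0,2,1,3,0), (69,0,2,1,2,1), (26,0,2,1,1,2), (2,0,2,1,0,3), (12,0,2,0,4,0), (23,0,2,0,3,1), (13,0,2,0,2,2), (2,0,2,0,1,3), (1,0,1,5,0,0), (7,0,1,4,1,0), (3,0,1,4,0,1), (17,0,1,3,2,0), (16,0,1,3,1,1), (3,0,1,3,0,2), (19,0,1,2,3,0), (28,0,1,2,2,1), (11,0,1,2,1,2), (1,0,1,2,0,3), (10,0,1,1,4,0),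 (20,0,1,1,3,1), (12,0,1,1,2,2), (2,0,1,1,1,3), (2,0,1,0,5,0), (5,0,1,0,4,1), (4,0,1,0,3,2), (1,0,1,0,2,3)] := by
    subst hR hp hP he hS hX hs hz
    simp only [ev]
    ring
  rw [h]
  exact ev_nonneg hy hu hr hg hc _

/-- (IV), no other entries -/
theorem mb_IV_one {y u c s X S V e P R : ℝ} (hy : 0 ≤ y) (hu : 0 ≤ u) (hc : 0 ≤ c) (hs : s = y+u) (hX : X = s+y+c) (hS : S = X+s)
    (hV : V = y*u+u^2) (he : e = (y+s)*S-y*s-V) (hP : P = s*u*X) (hR : R = u*S-V) :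
    2*y*u*(e+X*s)*((X-y)*s*(X*s*(s+y)+s*e-P)+R*(X*s*(s+y)+e*S-P)-e*P) ≤
      (e+y*s)*(s+y)*(X+s-2*y)*((X-y)*X*s^2*(s+y)+P*(e-(X-y)*s)) := by
  have h : (e+y*s)*(s+y)*(X+s-2*y)*((X-y)*X*s^2*(s+y)+P*(e-(X-y)*s)) -
      2*y*u*(e+X*s)*((X-y)*s*(X*s*(s+y)+s*e-P)+R*(X*s*(s+y)+e*S-P)-e*P) = ev y u 0 0 c [(48,9,0,0,0,0), (330,8,1,0,0,0), (136,8,0,0,0,1), (688,7,2,0,0,0), (820,7,1,0,0,1), (136,7,0,0,0,2), (816,6,3,0,0,0), (1522,6,2,0,0,1), (714,6,1,0,0,2), (56,6,0,0,0,3), (836,5,4,0,0,0), (1532,5,3,0,0,1), (1140,5,2,0,0,2), (256,5,1,0,0,3), (8,5,0,0,0,4), (753,4,5,0,0,0), (1226,4,4,0,0,1), (939,4,3,0,0,2), (340,4,2,0,0,3), (32,4,1,0,0,4), (460,3,6,0,0,0), (831,3,5,0,0,1), (580,3,4,0,0,2), (219,3,3,0,0,3), (34,3,2,0,0,4), (162,2,7,0,0,0), (367,2,6,0,0,1), (290,2,5,0,0,2),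 (101,2,4,0,0,3), (16,2,3,0,0,4), (29,1,8,0,0,0), (83,1,7,0,0,1), (84,1,6,0,0,2), (35,1,5,0,0,3), (5,1,4,0,0,4), (2,0,9,0,0,0), (7,0,8,0,0,1), (9,0,7,0,0,2), (5,0,6,0,0,3), (1,0,5,0,0,4)] := by
    subst hR hP he hV hS hX hs
    simp only [ev]
    ring
  have h1 := ev_nonneg hy hu le_rfl le_rfl hc [(48,9,0,0,0,0), (330,8,1,0,0,0), (136,8,0,0,0,1), (688,7,2,0,0,0), (820,7,1,0,0,1), (136,7,0,0,0,2), (816,6,3,0,0,0), (1522,6,2,0,0,1), (714,6,1,0,0,2), (56,6,0,0,0,3), (836,5,4,0,0,0), (1532,5,3,0,0,1), (1140,5,2,0,0,2), (256,5,1,0,0,3), (8,5,0,0,0,4), (753,4,5,0,0,0), (1226,4,4,0,0,1), (939,4,3,0,0,2), (340,4,2,0,0,3), (32,4,1,0,0,4), (460,3,6,0,0,0), (831,3,5,0,0,1), (580,3,4,0,0,2), (219,3,3,0,0,3), (34,3,2,0,0,4), (162,2,7,0,0,0), (367,2,6,0,0,1), (290,2,5,0,0,2),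 (101,2,4,0,0,3), (16,2,3,0,0,4), (29,1,8,0,0,0), (83,1,7,0,0,1), (84,1,6,0,0,2), (35,1,5,0,0,3), (5,1,4,0,0,4), (2,0,9,0,0,0), (7,0,8,0,0,1), (9,0,7,0,0,2), (5,0,6,0,0,3), (1,0,5,0,0,4)]
  linarith

/-- (IV0), no other entries -/
theorem mb_IV0_one {y u c s X S V e P R : ℝ} (hy : 0 ≤ y) (hu : 0 ≤ u) (hc : 0 ≤ c) (hs : s = y+u) (hX : X = s+y+c) (hS : S = X+s)
    (hV : V = y*u+u^2) (he : e = (y+s)*S-y*s-V) (hP : P = s*u*X) (hR : R = u*S-V) :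
    2*y*u*(e+X*s)*((X-y)*s+R) ≤
      (e+y*s)*(s+y)*(X+s-2*y)*((X-y)*s) := by
  have h : (e+y*s)*(s+y)*(X+s-2*y)*((X-y)*s) -
      2*y*u*(e+X*s)*((X-y)*s+R) = ev y u 0 0 c [(12,6,0,0,0,0), (52,5,1,0,0,0), (28,5,0,0,0,1), (68,4,2,0,0,0), (96,4,1,0,0,1), (20,4,0,0,0,2), (51,3,3,0,0,0), (107,3,2,0,0,1), (52,3,1,0,0,2), (4,3,0,0,0,3), (32,2,4,0,0,0), (64,2,3,0,0,1), (44,2,2,0,0,2), (8,2,1,0,0,3), (13,1,5,0,0,0), (26,1,4,0,0,1), (18,1,3,0,0,2), (5,1,2,0,0,3), (2,0,6,0,0,0), (5,0,5,0,0,1), (4,0,4,0,0,2), (1,0,3,0,0,3)] := by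
    subst hR hP he hV hS hX hs
    simp only [ev]
    ring
  have h1 := ev_nonneg hy hu le_rfl le_rfl hc [(12,6,0,0,0,0), (52,5,1,0,0,0), (28,5,0,0,0,1), (68,4,2,0,0,0), (96,4,1,0,0,1), (20,4,0,0,0,2), (51,3,3,0,0,0), (107,3,2,0,0,1), (52,3,1,0,0,2), (4,3,0,0,0,3), (32,2,4,0,0,0), (64,2,3,0,0,1), (44,2,2,0,0,2), (8,2,1,0,0,3), (13,1,5,0,0,0), (26,1,4,0,0,1), (18,1,3,0,0,2), (5,1,2,0,0,3), (2,0,6,0,0,0), (5,0,5,0,0,1), (4,0,4,0,0,2), (1,0,3,0,0,3)]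
  linarith

theorem mb_step {F0 F1 F2 F3 y g r t : ℝ} (hy : 0 ≤ y) (hr : 0 ≤ r) (ht : 0 ≤ t) (htr : t ≤ r^2)
    (hcs : y*r^2 ≤ (y+g)*t) (hF2 : 0 ≤ -F2) (hF3 : 0 ≤ F3)
    (hH : 0 ≤ F0 + r^2 * (F1 + r^2 * F2)) (hW : 0 ≤ g * F0 + y * (F0 + r^2 * (F1 + r^2 * F2)))
    (hF0 : y = 0 → 0 ≤ F0) : 0 ≤ F0 + F1 * t + F2 * t^2 + F3 * t^3 := by
  have h7 : 0 ≤ F0 + t * (F1 + r^2 * F2) := by
    rcases eq_or_lt_of_le hr with hr0 | hr0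
    · have ht0 : t = 0 := by
        rw [← hr0] at htr
        nlinarith
      rw [ht0]
      rw [← hr0] at hH
      linarith
    · have hr2 : 0 < r^2 := by positivity
      by_cases hcase : 0 ≤ F0
      · have h8 : 0 ≤ r^2 * (F0 + t * (F1 + r^2 * F2)) := by
          have h9 : r^2 * (F0 + t * (F1 + r^2 * F2)) =
            t * (F0 + r^2 * (F1 + r^2 * F2)) + (r^2 - t) * F0 := by ring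
          rw [h9]
          exact add_nonneg (mul_nonneg ht hH) (mul_nonneg (by linarith) hcase)
        exact nonneg_of_mul_nonneg_right h8 hr2
      · push Not at hcase
        have hy0 : 0 < y := by
          rcases eq_or_lt_of_le hy with h | h
          · exact absurd (hF0 h.symm) (not_le.2 hcase)
          · exact h
        have h8 : 0 ≤ (y * r^2) * (F0 + t * (F1 + r^2 * F2)) := by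
          have h9 : (y * r^2) * (F0 + t * (F1 + r^2 * F2)) =
            t * (g * F0 + y * (F0 + r^2 * (F1 + r^2 * F2))) + (g * t - y * (r^2 - t)) * (-F0) := by
            ring
          rw [h9]
          exact add_nonneg (mul_nonneg ht hW) (mul_nonneg (by linarith) (by linarith))
        exact nonneg_of_mul_nonneg_right h8 (by positivity)
  have h10 : 0 ≤ t * (r^2 - t) * (-F2) := mul_nonneg (mul_nonneg ht (by linarith)) hF2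
  have h11 : 0 ≤ F3 * t^3 := mul_nonneg hF3 (by positivity)
  linarith

theorem mb_step0 {D0 D1 k r t : ℝ} (hr : 0 ≤ r) (ht : 0 ≤ t) (htr : t ≤ r^2)
    (hk : 0 ≤ k) (hD0 : 0 ≤ D0) (hDE : 0 ≤ D0 + r^2 * (D1 + r^2 * (-k))) :
    0 ≤ D0 + D1 * t + (-k) * t^2 := by
  have h7 : 0 ≤ D0 + t * (D1 + r^2 * (-k)) := by
    rcases eq_or_lt_of_le hr with hr0 | hr0
    · have ht0 : t = 0 := by
        rw [← hr0] at htr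
        nlinarith
      rw [ht0]
      linarith
    · have hr2 : 0 < r^2 := by positivity
      have h8 : 0 ≤ r^2 * (D0 + t * (D1 + r^2 * (-k))) := by
        have h9 : r^2 * (D0 + t * (D1 + r^2 * (-k))) =
          t * (D0 + r^2 * (D1 + r^2 * (-k))) + (r^2 - t) * D0 := by ring
        rw [h9]
        exact add_nonneg (mul_nonneg ht hDE) (mul_nonneg (by linarith) hD0)
      exact nonneg_of_mul_nonneg_right h8 hr2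
  have h10 : 0 ≤ t * (r^2 - t) * k := mul_nonneg (mul_nonneg ht (by linarith)) hk
  linarith

/-- (IV) -/
theorem mb_IV {y u r g c t z s X S V e P R : ℝ} (hy : 0 ≤ y) (hu : 0 ≤ u) (hr : 0 ≤ r) (hg : 0 ≤ g) (hc : 0 ≤ c) (ht : 0 ≤ t) (htr : t ≤ r^2) (hcs : y*r^2 ≤ (y+g)*t)
    (hz : z = y+u) (hs : s = z+y+r+g) (hX : X = s+y+c) (hS : S = X+s)
    (hV : V = y*(u+r)+u^2+t) (he : e = (y+s)*S-y*s-V) (hP : P = z*u*(S-z)+(y*r+t)*(S-s+z))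
    (hR : R = (u+r)*S-V) :
    2*y*u*(e+X*s)*((X-y)*s*(X*s*(s+y)+s*e-P)+R*(X*s*(s+y)+e*S-P)-e*P) ≤
      (e+y*s)*(z+y)*(X+z-2*y)*((X-y)*X*s^2*(s+y)+P*(e-(X-y)*s)) := by
  obtain ⟨e0, he0⟩ : ∃ e0, e0 = (y+s)*S-y*s-y*(u+r)-u^2 := ⟨_, rfl⟩
  obtain ⟨P0, hP0⟩ : ∃ P0, P0 = z*u*(S-z)+y*r*(S-s+z) := ⟨_, rfl⟩
  obtain ⟨p1, hp1⟩ : ∃ p1, p1 = S-s+z := ⟨_, rfl⟩
  obtain ⟨R0, hR0⟩ : ∃ R0, R0 = (u+r)*S-y*(u+r)-u^2 := ⟨_, rfl⟩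
  have e1 : e = e0 - t := by rw [he, hV, he0]; ring
  have e2 : P = P0 + p1 * t := by rw [hP, hP0, hp1]; ring
  have e3 : R = R0 - t := by rw [hR, hV, hR0]; ring
  have hF3 : 0 ≤ ((z+y)*(X+z-2*y)*p1 + 2*y*u*(S+p1+p1)) := by
    have hz0 : 0 ≤ z := by rw [hz]; positivity
    have hs0 : 0 ≤ s := by rw [hs]; positivity
    have hX1 : 2*y ≤ X := by rw [hX, hs, hz]; linarith
    have hS0 : 0 ≤ S := by rw [hS]; linarith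
    have hp0 : 0 ≤ p1 := by rw [hp1, hS]; linarith
    have h1 : 0 ≤ X+z-2*y := by linarith
    have h2 : 0 ≤ z + y := by linarith
    have h3 : 0 ≤ S+p1+p1 := by linarith
    have h4 : 0 ≤ 2*y*u := by positivity
    have h5 := mul_nonneg (mul_nonneg h2 h1) hp0
    have h6 := mul_nonneg h4 h3
    linarith
  have hF0 : y = 0 → 0 ≤ ((z+y)*(X+z-2*y)*((e0+y*s)*((X-y)*X*s^2*(s+y)+P0*(e0-(X-y)*s))) - 2*y*u*((e0+X*s)*((X-y)*s*(X*s*(s+y)+s*e0-P0)+R0*(X*s*(s+y)+S*e0-P0)-e0*P0))) := by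
    intro hy0
    have h1 := mb_F00 u r g c z s X S e0 P0 R0 hu hr hg hc (by rw [hz, hy0]; ring)
      (by rw [hs, hy0]; ring) (by rw [hX, hy0]; ring) hS (by rw [he0, hy0]; ring)
      (by rw [hP0, hy0]; ring) (by rw [hR0, hy0]; ring)
    have h2 : ((z+y)*(X+z-2*y)*((e0+y*s)*((X-y)*X*s^2*(s+y)+P0*(e0-(X-y)*s))) - 2*y*u*((e0+X*s)*((X-y)*s*(X*s*(s+y)+s*e0-P0)+R0*(X*s*(s+y)+S*e0-P0)-e0*P0))) = z*(X+z)*(e0*(X*X*s^2*s+P0*(e0-X*s))) := by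
      rw [hy0]; ring
    rw [h2]
    exact h1
  have h := mb_step hy hr ht htr hcs
    (mb_F2 y u r g c z s X S e0 P0 p1 R0 hy hu hr hg hc hz hs hX hS he0 hP0 hp1 hR0) hF3
    (mb_H y u r g c z s X S e0 P0 p1 R0 hy hu hr hg hc hz hs hX hS he0 hP0 hp1 hR0)
    (mb_W y u r g c z s X S e0 P0 p1 R0 hy hu hr hg hc hz hs hX hS he0 hP0 hp1 hR0) hF0
  have key : (e+y*s)*(z+y)*(X+z-2*y)*((X-y)*X*s^2*(s+y)+P*(e-(X-y)*s)) -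
      2*y*u*(e+X*s)*((X-y)*s*(X*s*(s+y)+s*e-P)+R*(X*s*(s+y)+e*S-P)-e*P) = ((z+y)*(X+z-2*y)*((e0+y*s)*((X-y)*X*s^2*(s+y)+P0*(e0-(X-y)*s))) - 2*y*u*((e0+X*s)*((X-y)*s*(X*s*(s+y)+s*e0-P0)+R0*(X*s*(s+y)+S*e0-P0)-e0*P0))) + ((z+y)*(X+z-2*y)*((e0+y*s)*(p1*(e0-(X-y)*s)-P0)-((X-y)*X*s^2*(s+y)+P0*(e0-(X-y)*s))) - 2*y*u*((e0+X*s)*(-((X-y)*s*(s+p1))-(X*s*(s+y)+S*e0-P0)-R0*(S+p1)+P0-e0*p1)-((X-y)*s*(X*s*(s+y)+s*e0-P0)+R0*(X*s*(s+y)+S*e0-P0)-e0*P0))) * t + ((z+y)*(X+z-2*y)*((e0+y*s)*(-p1)-(p1*(e0-(X-y)*s)-P0)) - 2*y*u*((e0+X*s)*(S+p1+p1)-(-((X-y)*s*(s+p1))-(X*s*(s+y)+S*e0-P0)-R0*(S+p1)+P0-e0*p1))) * t^2 + ((z+y)*(X+z-2*y)*p1 + 2*y*u*(S+p1+p1)) * t^3 := by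
    rw [e1, e2, e3]
    ring
  rw [← key] at h
  exact sub_nonneg.1 h

/-- (IV0) -/
theorem mb_IV0 {y u r g c t z s X S V e R : ℝ} (hy : 0 ≤ y) (hu : 0 ≤ u) (hr : 0 ≤ r) (hg : 0 ≤ g) (hc : 0 ≤ c) (ht : 0 ≤ t) (htr : t ≤ r^2)
    (hz : z = y+u) (hs : s = z+y+r+g) (hX : X = s+y+c) (hS : S = X+s)
    (hV : V = y*(u+r)+u^2+t) (he : e = (y+s)*S-y*s-V)
    (hR : R = (u+r)*S-V) :
    2*y*u*(e+X*s)*((X-y)*s+R) ≤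
      (e+y*s)*(z+y)*(X+z-2*y)*((X-y)*s) := by
  obtain ⟨e0, he0⟩ : ∃ e0, e0 = (y+s)*S-y*s-y*(u+r)-u^2 := ⟨_, rfl⟩
  obtain ⟨P0, hP0⟩ : ∃ P0, P0 = z*u*(S-z)+y*r*(S-s+z) := ⟨_, rfl⟩
  obtain ⟨p1, hp1⟩ : ∃ p1, p1 = S-s+z := ⟨_, rfl⟩
  obtain ⟨R0, hR0⟩ : ∃ R0, R0 = (u+r)*S-y*(u+r)-u^2 := ⟨_, rfl⟩
  have e1 : e = e0 - t := by rw [he, hV, he0]; ring
  have e3 : R = R0 - t := by rw [hR, hV, hR0]; ring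
  have hk : 0 ≤ 2*y*u := by positivity
  have h := mb_step0 hr ht htr hk
    (mb_D0 y u r g c z s X S e0 P0 p1 R0 hy hu hr hg hc hz hs hX hS he0 hP0 hp1 hR0)
    (mb_DE y u r g c z s X S e0 P0 p1 R0 hy hu hr hg hc hz hs hX hS he0 hP0 hp1 hR0)
  have key : (e+y*s)*(z+y)*(X+z-2*y)*((X-y)*s) -
      2*y*u*(e+X*s)*((X-y)*s+R) = ((z+y)*(X+z-2*y)*((e0+y*s)*((X-y)*s)) - 2*y*u*((e0+X*s)*((X-y)*s+R0))) + (-((z+y)*(X+z-2*y)*((X-y)*s)) + 2*y*u*((X-y)*s+R0+(e0+X*s))) * t + (-(2*y*u)) * t^2 := by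
    rw [e1, e3]
    ring
  rw [← key] at h
  exact sub_nonneg.1 h

end Pool.Agent.Helper6.MB
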